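import Pool.Agent.MP_b9bf0c_nt.Gauss

/-!
Odd integers as x^2 + 2 y^2 + 3 z^2 with x + y + z a square: the terms of the singular series.
-/

set_option autoImplicit false

open Finset Complex
open scoped Real ArithmeticFunction.Moebius

noncomputable section

namespace Pool.Agent.MP_b9bf0c_nt

open Pool.Agent.MP_2a1f0e_nt (ex)
open Pool.Agent.MP_c903c4_nt (Red cc)

namespace Arith

theorem rama (m : ℤ) {q : ℕ} (hq : 0 < q) : ∑ r ∈ Red q, ex ((r : ℝ) * m / q) =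
    ∑ x ∈ q.divisorsAntidiagonal, (μ x.1 : ℂ) * (if (x.2 : ℤ) ∣ m then (x.2 : ℂ) else 0) := by
  refine ((ArithmeticFunction.sum_eq_iff_sum_mul_moebius_eq
    (f := fun q : ℕ => ∑ r ∈ Red q, ex ((r : ℝ) * m / q))
    (g := fun d : ℕ => if (d : ℤ) ∣ m then (d : ℂ) else 0)).1 (fun d hd => ?_) q hq).symm
  have e1 := Pool.Agent.MP_c903c4_nt.Four_red hd fun x => ex (x * m)
  have e2 := Pool.Agent.MP_2a1f0e_nt.gs_div d hd m
  unfold Pool.Agent.MP_2a1f0e_nt.gs at e2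
  simp only [div_mul_eq_mul_div] at e1
  simp only [← mul_div_assoc] at e2
  rw [← e1, e2]

theorem mm_congr (ν : ℕ) {d s t : ℕ} (h : s ≡ t [MOD d]) :
    (d : ℤ) ∣ mm ν s ↔ (d : ℤ) ∣ mm ν t := by
  have h1 : (d : ℤ) ∣ mm ν s - mm ν t := by
    have h2 := (PP_dvd d t s h.dvd).mul_left 22
    have h3 : mm ν s - mm ν t = 22 * (PP t - PP s) := by
      unfold mm
      ring
    rwa [h3]
  exact dvd_iff_dvd_of_dvd_sub h1

theorem count (ν d k : ℕ) (w : ℂ) :
    ∑ s ∈ range (d * k), (if (d : ℤ) ∣ mm ν s then w else 0) = k * (rho ν d : ℂ) * w := by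
  induction k with
  | zero => simp
  | succ k ih =>
    rw [Nat.mul_succ, sum_range_add, ih]
    have h : ∑ s ∈ range d, (if (d : ℤ) ∣ mm ν (d * k + s : ℕ) then w else 0) =
        (rho ν d : ℂ) * w := by
      rw [rho, ← nsmul_eq_mul, ← sum_const, sum_filter]
      refine sum_congr rfl fun s _ => if_congr (mm_congr ν ?_) rfl rfl
      simp [Nat.ModEq]
    rw [h]
    push_cast
    ring

theorem conv_mul {f g : ℕ → ℝ} (f0 : f 0 = 0) (g0 : g 0 = 0) (f1 : f 1 = 1) (g1 : g 1 = 1)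
    (hf : ∀ a b : ℕ, a.Coprime b → f (a * b) = f a * f b)
    (hg : ∀ a b : ℕ, a.Coprime b → g (a * b) = g a * g b) {a b : ℕ} (h : a.Coprime b) :
    ∑ x ∈ (a * b).divisorsAntidiagonal, f x.1 * g x.2 =
      (∑ x ∈ a.divisorsAntidiagonal, f x.1 * g x.2) *
        ∑ x ∈ b.divisorsAntidiagonal, f x.1 * g x.2 := by
  have h1 : ArithmeticFunction.IsMultiplicative (⟨f, f0⟩ : ArithmeticFunction ℝ) :=
    ⟨f1, fun {a b} h => hf a b h⟩
  have h2 : ArithmeticFunction.IsMultiplicative (⟨g, g0⟩ : ArithmeticFunction ℝ) :=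
    ⟨g1, fun {a b} h => hg a b h⟩
  exact (h1.mul h2).map_mul_of_coprime h

theorem mu_mul {a b : ℕ} (h : a.Coprime b) : (μ (a * b) : ℝ) = (μ a : ℝ) * μ b := by
  rw [ArithmeticFunction.isMultiplicative_moebius.map_mul_of_coprime h, Int.cast_mul]

theorem mu_pow {p : ℕ} (hp : p.Prime) (i : ℕ) : μ (p ^ (i + 1 + 1)) = 0 := by
  rw [ArithmeticFunction.moebius_apply_prime_pow hp (by omega), if_neg (by omega)]

theorem div_pow_one {p : ℕ} (hp : p.Prime) (j : ℕ) : p ^ (j + 1) / p = p ^ j := by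
  rw [pow_succ, Nat.mul_div_cancel _ hp.pos]

end Arith

theorem hh_eq (ν : ℕ) {q : ℕ} (hq : 0 < q) : (hh ν q : ℂ) =
    ∑ a ∈ Red q, gg q a * (GT q ((a : ℝ) / q) / q) * ex ((a : ℝ) * ν / q) := by
  have hcop : ∀ a ∈ Red q, IsCoprime (a : ℤ) (q : ℤ) := fun a ha =>
    Nat.isCoprime_iff_coprime.2 (Pool.Agent.MP_c903c4_nt.Four_memRed.1 ha).2
  by_cases h : q.Coprime 22
  · have h88 : IsCoprime (88 : ℤ) (q : ℤ) := by
      have h1 : Nat.Coprime 88 q := by
        have h2 : Nat.Coprime (22 ^ 3) q := Nat.Coprime.pow_left 3 h.symm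
        exact Nat.Coprime.coprime_dvd_left (by norm_num) h2
      exact_mod_cast Nat.isCoprime_iff_coprime.2 h1
    obtain ⟨c, e, hce⟩ := h88
    have hc : (q : ℤ) ∣ 88 * c - 1 := ⟨-e, by linear_combination hce⟩
    have hq0 : (q : ℂ) ≠ 0 := by exact_mod_cast hq.ne'
    have hq1 : (q : ℝ) ≠ 0 := by exact_mod_cast hq.ne'
    have h1 : ∀ a ∈ Red q, gg q a * (GT q ((a : ℝ) / q) / q) * ex ((a : ℝ) * ν / q) =
        ∑ s ∈ range q, (chi q : ℂ) / q ^ 2 * ex ((a : ℝ) * ((4 * c * mm ν s : ℤ) : ℝ) / q) := by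
      intro a ha
      rw [gg_eq hq (hcop a ha) h hc, GT, sum_div, mul_sum, sum_mul]
      refine sum_congr rfl fun s _ => ?_
      have h2 : (a : ℝ) * ((4 * c * mm ν s : ℤ) : ℝ) / q =
          ((36 * a * c : ℤ) : ℝ) / q + -((a : ℝ) / q * (PP s : ℝ)) + (a : ℝ) * ν / q +
            ((-(a * e * (ν - PP s)) : ℤ) : ℝ) := by
        have h3 : (c : ℝ) * 88 + e * q = 1 := by exact_mod_cast hce
        unfold mm
        push_cast
        field_simp
        linear_combination (a * (ν - PP s) : ℝ) * h3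
      rw [h2, Pool.Agent.MP_2a1f0e_nt.ex_add, Pool.Agent.MP_2a1f0e_nt.ex_add,
        Pool.Agent.MP_2a1f0e_nt.ex_add, Pool.Agent.MP_2a1f0e_nt.ex_int]
      field_simp
    rw [sum_congr rfl h1, sum_comm]
    have h2 : ∀ s ∈ range q, ∑ a ∈ Red q,
        (chi q : ℂ) / q ^ 2 * ex ((a : ℝ) * ((4 * c * mm ν s : ℤ) : ℝ) / q) =
        ∑ x ∈ q.divisorsAntidiagonal, (chi q : ℂ) / q ^ 2 * (μ x.1 : ℂ) *
          (if (x.2 : ℤ) ∣ mm ν s then (x.2 : ℂ) else 0) := by
      intro s _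
      rw [← mul_sum, Arith.rama _ hq, mul_sum]
      refine sum_congr rfl fun x hx => ?_
      have h6 : (x.2 : ℤ) ∣ 4 * c * mm ν s ↔ (x.2 : ℤ) ∣ mm ν s := by
        refine ⟨fun h3 => ?_, fun h3 => h3.mul_left _⟩
        have h4 : (x.2 : ℤ) ∣ q := by
          exact_mod_cast Nat.dvd_of_mem_divisors (Nat.snd_mem_divisors_of_mem_antidiagonal hx)
        have h5 : mm ν s = 22 * (4 * c * mm ν s) + q * (e * mm ν s) := by
          linear_combination -mm ν s * hce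
        rw [h5]
        exact (h3.mul_left _).add (h4.mul_right _)
      rw [if_congr h6 rfl rfl]
      ring
    rw [sum_congr rfl h2, sum_comm, hh, mul_sum, Complex.ofReal_sum]
    refine sum_congr rfl fun x hx => ?_
    have h3 : x.2 * x.1 = q := by rw [mul_comm]; exact (Nat.mem_divisorsAntidiagonal.1 hx).1
    have h4 := Arith.count ν x.2 x.1 (x.2 : ℂ)
    rw [h3] at h4
    rw [← mul_sum, h4]
    have h5 : (x.2 : ℂ) * x.1 = q := by exact_mod_cast h3
    push_cast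
    field_simp
    linear_combination -(chi q : ℂ) * (μ x.1 : ℂ) * (rho ν x.2 : ℂ) * h5
  · rw [sum_eq_zero fun a ha => by rw [gg_eq_zero hq (hcop a ha) h, zero_mul, zero_mul]]
    simp [hh, chi, h]

theorem rho_mul (ν : ℕ) {a b : ℕ} (h : a.Coprime b) : rho ν (a * b) = rho ν a * rho ν b := by
  rcases Nat.eq_zero_or_pos a with rfl | ha
  · simp [rho]
  rcases Nat.eq_zero_or_pos b with rfl | hb
  · simp [rho]
  have hab : IsCoprime (a : ℤ) (b : ℤ) := Nat.isCoprime_iff_coprime.2 h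
  unfold rho
  rw [← card_product]
  refine card_bij (fun s _ => (s % a, s % b)) ?_ ?_ ?_
  · intro s hs
    simp only [mem_filter, mem_range, mem_product] at hs ⊢
    have h1 : ((a * b : ℕ) : ℤ) ∣ mm ν s := hs.2
    push_cast at h1
    exact ⟨⟨Nat.mod_lt _ ha, (Arith.mm_congr ν (Nat.mod_modEq s a)).2
      ((dvd_mul_right _ _).trans h1)⟩, Nat.mod_lt _ hb,
      (Arith.mm_congr ν (Nat.mod_modEq s b)).2 ((dvd_mul_left _ _).trans h1)⟩
  · intro s hs t ht hst
    simp only [mem_filter, mem_range, Prod.mk.injEq] at hs ht hst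
    exact ((Nat.modEq_and_modEq_iff_modEq_mul h).1 hst).eq_of_lt_of_lt hs.1 ht.1
  · rintro ⟨x, y⟩ hxy
    simp only [mem_filter, mem_range, mem_product] at hxy
    obtain ⟨⟨hx, hx'⟩, hy, hy'⟩ := hxy
    have h1 := (Nat.chineseRemainder h x y).2
    refine ⟨Nat.chineseRemainder h x y, ?_, ?_⟩
    · simp only [mem_filter, mem_range]
      refine ⟨Nat.chineseRemainder_lt_mul h x y ha.ne' hb.ne', ?_⟩
      push_cast
      exact hab.mul_dvd ((Arith.mm_congr ν h1.1).2 hx') ((Arith.mm_congr ν h1.2).2 hy')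
    · rw [Prod.mk.injEq]
      exact ⟨(show _ % a = x % a from h1.1).trans (Nat.mod_eq_of_lt hx),
        (show _ % b = y % b from h1.2).trans (Nat.mod_eq_of_lt hy)⟩

theorem rho_one (ν : ℕ) : rho ν 1 = 1 := by simp [rho]

theorem hh_one (ν : ℕ) : hh ν 1 = 1 := by simp [hh, chi_one, rho_one]

theorem hh_mul (ν : ℕ) {a b : ℕ} (h : a.Coprime b) : hh ν (a * b) = hh ν a * hh ν b := by
  unfold hh
  rw [Arith.conv_mul (f := fun n => (μ n : ℝ)) (g := fun n => (rho ν n : ℝ)) (by simp)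
    (by simp [rho]) (by simp) (by simp [rho_one]) (fun a b h => Arith.mu_mul h)
    (fun a b h => by rw [rho_mul ν h, Nat.cast_mul]) h, chi_mul]
  push_cast
  ring

theorem hh_pow (ν : ℕ) {p : ℕ} (hp : p.Prime) (j : ℕ) : hh ν (p ^ (j + 1)) =
    ((chi p : ℝ) / p) ^ (j + 1) * ((rho ν (p ^ (j + 1)) : ℝ) - rho ν (p ^ j)) := by
  unfold hh
  rw [Nat.sum_divisorsAntidiagonal (f := fun a b => (μ a : ℝ) * (rho ν b : ℝ)),
    Nat.sum_divisors_prime_pow hp, sum_range_succ', sum_range_succ',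
    sum_eq_zero fun i _ => by rw [Arith.mu_pow hp, Int.cast_zero, zero_mul], chi_pow]
  simp only [zero_add, pow_one, pow_zero, Nat.div_one, Arith.div_pow_one hp,
    ArithmeticFunction.moebius_apply_prime hp, ArithmeticFunction.moebius_apply_one]
  push_cast
  ring

theorem uu_one (ν : ℕ) : uu ν 1 = 1 := by simp [uu, hh_one]

theorem uu_mul (ν : ℕ) {a b : ℕ} (h : a.Coprime b) : uu ν (a * b) = uu ν a * uu ν b := by
  unfold uu
  by_cases ha : 3 ∣ a
  · rw [if_pos (ha.mul_right b), if_pos ha, zero_mul]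
  by_cases hb : 3 ∣ b
  · rw [if_pos (hb.mul_left a), if_pos hb, mul_zero]
  rw [if_neg ha, if_neg hb, if_neg fun h3 => ((Nat.prime_three.dvd_mul).1 h3).elim ha hb,
    Arith.mu_mul h, hh_mul ν h]
  ring

theorem kk_one (ν : ℕ) : kk ν 1 = 1 := by simp [kk, hh_one, uu_one]

theorem kk_mul (ν : ℕ) {a b : ℕ} (h : a.Coprime b) : kk ν (a * b) = kk ν a * kk ν b :=
  Arith.conv_mul (f := hh ν) (g := uu ν) (by simp [hh]) (by simp [uu]) (hh_one ν) (uu_one ν)
    (fun _ _ h => hh_mul ν h) (fun _ _ h => uu_mul ν h) h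

theorem kk_pow (ν : ℕ) {p : ℕ} (hp : p.Prime) (j : ℕ) :
    kk ν (p ^ (j + 1)) = hh ν (p ^ (j + 1)) + hh ν (p ^ j) * uu ν p := by
  unfold kk
  rw [Nat.sum_divisorsAntidiagonal' (f := fun a b => hh ν a * uu ν b),
    Nat.sum_divisors_prime_pow hp, sum_range_succ', sum_range_succ',
    sum_eq_zero fun i _ => by simp [uu, Arith.mu_pow hp]]
  simp only [zero_add, pow_one, pow_zero, Nat.div_one, Arith.div_pow_one hp, uu_one]
  ring

end Pool.Agent.MP_b9bf0c_nt
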