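import Pool.Agent.MP_b9bf0c_nt.Glob

/-!
Odd integers as x^2 + 2 y^2 + 3 z^2 with x + y + z a square: the model at integers with no representation.
-/

set_option autoImplicit false

open Finset Complex
open scoped Real ArithmeticFunction.Moebius

noncomputable section

namespace Pool.Agent.MP_b9bf0c_nt

open Pool.Agent.MP_2a1f0e_nt (ex)
open Pool.Agent.MP_c903c4_nt (Red cc)

namespace Bessel

open Pool.Agent.MP_2a1f0e_nt

@[fun_prop]
lemma cont_ex {f : ℝ → ℝ} (hf : Continuous f) : Continuous fun x => ex (f x) := by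
  unfold ex
  fun_prop

lemma int_ex (n : ℤ) : ∫ α in (0 : ℝ)..1, ex (α * n) = if n = 0 then 1 else 0 := by
  split_ifs with h
  · simp [h, ex_zero]
  · have e : ∀ α : ℝ, ex (α * n) = cexp ((n * (2 * π * I)) * α) := fun α => by
      unfold ex
      congr 1
      push_cast
      ring
    simp_rw [e]
    rw [integral_exp_mul_complex (mul_ne_zero (by exact_mod_cast h) two_pi_I_ne_zero)]
    simp [exp_int_mul_two_pi_mul_I]

lemma int_sq {ι : Type} (s : Finset ι) (c : ι → ℂ) (f : ι → ℤ) (hf : Set.InjOn f s) :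
    ∫ α in (0 : ℝ)..1, ‖∑ i ∈ s, c i * ex (α * f i)‖ ^ 2 = ∑ i ∈ s, ‖c i‖ ^ 2 := by
  classical
  apply ofReal_injective
  rw [← intervalIntegral.integral_ofReal]
  simp_rw [normsq_sum, ← mul_sub, ← Int.cast_sub]
  rw [intervalIntegral.integral_finsetSum fun i _ => Continuous.intervalIntegrable (by fun_prop) _ _,
    ofReal_sum]
  refine sum_congr rfl fun i hi => ?_
  rw [intervalIntegral.integral_finsetSum fun i _ => Continuous.intervalIntegrable (by fun_prop) _ _,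
    sum_eq_single_of_mem i hi]
  · rw [intervalIntegral.integral_const_mul, int_ex, if_pos (sub_self _), mul_one, mul_conj,
      normSq_eq_norm_sq]
  · intro j hj hne
    rw [intervalIntegral.integral_const_mul, int_ex, if_neg, mul_zero]
    exact fun h => hne (hf hi hj (sub_eq_zero.1 h)).symm

lemma dual {R G : ℝ → ℂ} (hR : Continuous R) (hG : Continuous G) {B : ℝ}
    (h : ∀ α, ‖R α‖ ≤ B) (E : Finset ℕ) :
    ∑ ν ∈ E, ‖∫ α in (0 : ℝ)..1, R α * G α * ex (α * (ν : ℤ))‖ ^ 2 ≤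
      B ^ 2 * ∫ α in (0 : ℝ)..1, ‖G α‖ ^ 2 := by
  obtain ⟨c, hc⟩ : ∃ c : ℕ → ℂ, ∀ ν, c ν = ∫ α in (0 : ℝ)..1, R α * G α * ex (α * (ν : ℤ)) :=
    ⟨_, fun _ => rfl⟩
  simp_rw [← hc]
  obtain ⟨P, hP⟩ : ∃ P : ℝ → ℂ, P = fun α => ∑ ν ∈ E, (starRingEnd ℂ) (c ν) * ex (α * (ν : ℤ)) :=
    ⟨_, rfl⟩
  have cP : Continuous P := by rw [hP]; fun_prop
  have h1 : ∫ α in (0 : ℝ)..1, ‖P α‖ ^ 2 = ∑ ν ∈ E, ‖c ν‖ ^ 2 := by
    rw [hP, int_sq E _ (fun ν : ℕ => (ν : ℤ)) fun _ _ _ _ h => Nat.cast_injective h]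
    simp
  have h2 : ((∑ ν ∈ E, ‖c ν‖ ^ 2 : ℝ) : ℂ) = ∫ α in (0 : ℝ)..1, R α * G α * P α := by
    simp_rw [hP, mul_sum]
    rw [intervalIntegral.integral_finsetSum fun i _ =>
      Continuous.intervalIntegrable (by fun_prop) _ _, ofReal_sum]
    refine sum_congr rfl fun ν _ => ?_
    simp_rw [mul_left_comm _ ((starRingEnd ℂ) (c ν))]
    rw [intervalIntegral.integral_const_mul, ← hc, mul_comm, mul_conj, normSq_eq_norm_sq]
  have h3 : ∑ ν ∈ E, ‖c ν‖ ^ 2 ≤
      ∫ α in (0 : ℝ)..1, (B ^ 2 / 2 * ‖G α‖ ^ 2 + 1 / 2 * ‖P α‖ ^ 2) := by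
    have h4 := congrArg norm h2
    rw [norm_real, Real.norm_of_nonneg (by positivity)] at h4
    rw [h4]
    refine intervalIntegral.norm_integral_le_of_norm_le zero_le_one
      (Filter.Eventually.of_forall fun α _ => ?_) (Continuous.intervalIntegrable (by fun_prop) _ _)
    rw [norm_mul, norm_mul]
    nlinarith [mul_le_mul_of_nonneg_right (h α) (mul_nonneg (norm_nonneg (G α)) (norm_nonneg (P α))),
      sq_nonneg (B * ‖G α‖ - ‖P α‖)]
  rw [intervalIntegral.integral_add (Continuous.intervalIntegrable (by fun_prop) _ _)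
    (Continuous.intervalIntegrable (by fun_prop) _ _), intervalIntegral.integral_const_mul,
    intervalIntegral.integral_const_mul, h1] at h3
  linarith

lemma int_tsum {ι : Type} [Countable ι] {c : ι → ℂ} (hc : Summable fun i => ‖c i‖) (f : ι → ℤ)
    {F : ℝ → ℂ} (hF : ∀ α, F α = ∑' i, c i * ex (-(α * f i))) :
    Continuous F ∧ ∀ n : ℤ, HasSum (fun i => if f i = n then c i else 0)
      (∫ α in (0 : ℝ)..1, F α * ex (α * n)) := by
  have hn : ∀ i x, ‖c i * ex x‖ = ‖c i‖ := fun i x => by rw [norm_mul, norm_ex, mul_one]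
  refine ⟨?_, fun n => ?_⟩
  · rw [funext hF]
    exact continuous_tsum (fun i => by fun_prop) hc fun i α => (hn i _).le
  · have h1 : HasSum (fun i => ∫ α in (0 : ℝ)..1, c i * ex (α * (n - f i : ℤ)))
        (∫ α in (0 : ℝ)..1, F α * ex (α * n)) :=
      intervalIntegral.hasSum_integral_of_dominated_convergence (fun i _ => ‖c i‖)
        (fun i => Continuous.aestronglyMeasurable (by fun_prop))
        (fun i => Filter.Eventually.of_forall fun α _ => (hn i _).le)
        (Filter.Eventually.of_forall fun _ _ => hc) intervalIntegrable_const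
        (Filter.Eventually.of_forall fun α _ => by
          rw [hF]
          have e : ∀ i, c i * ex (α * (n - f i : ℤ)) = c i * ex (-(α * f i)) * ex (α * n) :=
            fun i => by
              rw [mul_assoc, ← ex_add]
              congr 2
              push_cast
              ring
          simp_rw [e]
          exact ((hc.congr fun i => (hn i (-(α * f i))).symm).of_norm.hasSum).mul_right _)
    convert h1 using 2 with i
    rw [intervalIntegral.integral_const_mul, int_ex]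
    simp only [sub_eq_zero, eq_comm (a := n), mul_ite, mul_one, mul_zero]

/-- the weight -/
def ww (M : ℕ) (m : ℤ) : ℝ := Real.exp (-(2 * π * (1 / (M : ℝ) ^ 2) * m))

lemma ww_add (M : ℕ) (m n : ℤ) : ww M (m + n) = ww M m * ww M n := by
  unfold ww
  rw [← Real.exp_add]
  congr 1
  push_cast
  ring

lemma exp_pt (M : ℕ) (α : ℝ) (m : ℤ) :
    cexp (-(2 * π * pt M α * m)) = ww M m * ex (-(α * m)) := by
  unfold pt ww ex
  rw [ofReal_exp, ← exp_add]
  congr 1
  push_cast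
  ring

lemma norm_pt (M : ℕ) (α : ℝ) (m : ℤ) : ‖cexp (-(2 * π * pt M α * m))‖ = ‖(ww M m : ℂ)‖ := by
  rw [exp_pt, norm_mul, norm_ex, mul_one]

lemma pt_re {M : ℕ} (hM : 2 ≤ M) (α : ℝ) : 0 < (pt M α).re := by
  have : (0 : ℝ) < M := by exact_mod_cast (by omega : 0 < M)
  unfold pt
  rw [add_re, ofReal_re, re_ofReal_mul, I_re, mul_zero, add_zero]
  positivity

lemma th_co {M : ℕ} (hM : 2 ≤ M) : (Continuous fun α => th (pt M α)) ∧
    ∀ n : ℤ, (∀ j k, qf 11 (-3) j + qf 1 0 k ≠ n) →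
      ∫ α in (0 : ℝ)..1, th (pt M α) * ex (α * n) = 0 := by
  have h1 := fun α => summable_phi (A := 11) (by norm_num) (-3) (pt_re hM α)
  have h2 := fun α => summable_phi (A := 1) (by norm_num) 0 (pt_re hM α)
  have h5 : Summable fun j => ‖(ww M (qf 11 (-3) j) : ℂ)‖ := (h1 0).congr fun j => norm_pt M 0 _
  have h6 : Summable fun j => ‖(ww M (qf 1 0 j) : ℂ)‖ := (h2 0).congr fun j => norm_pt M 0 _
  have h7 := h5.mul_norm h6
  have h8 : ∀ α, th (pt M α) = ∑' p : ℤ × ℤ, (ww M (qf 11 (-3) p.1) : ℂ) * (ww M (qf 1 0 p.2) : ℂ) *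
      ex (-(α * (qf 11 (-3) p.1 + qf 1 0 p.2 : ℤ))) := fun α => by
    unfold th phi
    rw [tsum_mul_tsum_of_summable_norm (h1 α) (h2 α)]
    refine tsum_congr fun p => ?_
    rw [exp_pt, exp_pt, mul_mul_mul_comm, ← ex_add]
    congr 2
    push_cast
    ring
  obtain ⟨h3, h4⟩ := int_tsum h7 (fun p => qf 11 (-3) p.1 + qf 1 0 p.2) h8
  refine ⟨h3, fun n hn => (h4 n).unique ?_⟩
  simp [hn]

lemma EE_co {M : ℕ} (hM : 2 ≤ M) (θ : ℝ) : (Continuous fun α => EE (pt M (α - θ))) ∧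
    ∀ n : ℕ, ∫ α in (0 : ℝ)..1, EE (pt M (α - θ)) * ex (α * (n : ℤ)) = ww M n * ex (θ * n) := by
  have h1 : ∀ β, ‖cexp (-(2 * π * pt M β))‖ < 1 := fun β => by
    rw [norm_exp, Real.exp_lt_one_iff, neg_re, mul_assoc, ← ofReal_ofNat, re_ofReal_mul,
      re_ofReal_mul, neg_lt_zero]
    have := pt_re hM β
    positivity
  have h2 : ∀ β (m : ℕ), cexp (-(2 * π * pt M β)) ^ m = ww M m * ex (-(β * m)) := fun β m => by
    have := exp_pt M β m
    rw [Int.cast_natCast, Int.cast_natCast] at this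
    rw [← this, ← exp_nat_mul]
    congr 1
    ring
  obtain ⟨h3, h4⟩ := int_tsum (ι := ℕ) (c := fun m => (ww M m : ℂ) * ex (θ * m))
    ((summable_norm_geometric_of_norm_lt_one (h1 0)).congr fun m => by
      rw [h2, norm_mul, norm_mul, norm_ex, norm_ex])
    (fun m => m) (F := fun α => EE (pt M (α - θ))) fun α => by
      unfold EE
      rw [one_div, ← tsum_geometric_of_norm_lt_one (h1 _)]
      refine tsum_congr fun m => ?_
      rw [h2, mul_assoc, ← ex_add]
      congr 2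
      push_cast
      ring
  refine ⟨h3, fun n => (h4 n).unique ?_⟩
  simpa using hasSum_single (f := fun i : ℕ => if i = n then (ww M i : ℂ) * ex (θ * i) else 0) n
    fun i hi => if_neg hi

/-- the error term -/
def Er (M : ℕ) (α : ℝ) : ℂ := th (pt M α) - kap * ∑ q ∈ Ioc 0 (M / 2), ∑ a ∈ Red q,
  gg q a * EE (pt M (α - (a : ℝ) / q))

lemma Er_co {M : ℕ} (hM : 2 ≤ M) : Continuous (Er M) ∧
    ∀ n : ℕ, (∀ j k, qf 11 (-3) j + qf 1 0 k ≠ n) →
      ∫ α in (0 : ℝ)..1, Er M α * ex (α * (n : ℤ)) =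
        -(kap * ww M n * ∑ q ∈ Ioc 0 (M / 2), ∑ a ∈ Red q, gg q a * ex ((a : ℝ) / q * n)) := by
  obtain ⟨h1, h2⟩ := th_co hM
  have h3 := fun θ => (EE_co hM θ).1
  refine ⟨by unfold Er; fun_prop, fun n hn => ?_⟩
  simp_rw [Er, sub_mul, mul_assoc, sum_mul, mul_assoc]
  rw [intervalIntegral.integral_sub (Continuous.intervalIntegrable (by fun_prop) _ _)
    (Continuous.intervalIntegrable (by fun_prop) _ _), h2 _ hn, zero_sub,
    intervalIntegral.integral_const_mul,
    intervalIntegral.integral_finsetSum fun i _ => Continuous.intervalIntegrable (by fun_prop) _ _,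
    mul_sum (a := (ww M n : ℂ))]
  congr 2
  refine sum_congr rfl fun q _ => ?_
  rw [intervalIntegral.integral_finsetSum fun i _ => Continuous.intervalIntegrable (by fun_prop) _ _,
    mul_sum]
  refine sum_congr rfl fun a _ => ?_
  rw [intervalIntegral.integral_const_mul, (EE_co hM _).2, mul_left_comm]

lemma coeff {M T ν : ℕ} (hM : 2 ≤ M) (h1 : ¬ Rp ν) (h2 : ∀ s : ℕ, s < T → PP s ≤ ν) :
    ∫ α in (0 : ℝ)..1, Er M α * (∑ s ∈ range T, (ww M (PP s) : ℂ) * ex (α * (-PP s : ℤ))) *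
      ex (α * (ν : ℤ)) = -(kap * ww M ν * JJ (M / 2) T ν) := by
  obtain ⟨h3, h4⟩ := Er_co hM
  simp_rw [mul_sum, sum_mul]
  rw [intervalIntegral.integral_finsetSum fun i _ => Continuous.intervalIntegrable (by fun_prop) _ _]
  have e : JJ (M / 2) T ν = ∑ s ∈ range T, ∑ q ∈ Ioc 0 (M / 2), ∑ a ∈ Red q,
      gg q a * ex ((a : ℝ) / q * (ν - PP s)) := by
    unfold JJ GT
    rw [sum_comm]
    refine sum_congr rfl fun q _ => ?_
    rw [sum_comm]
    refine sum_congr rfl fun a _ => ?_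
    rw [mul_sum, sum_mul]
    refine sum_congr rfl fun s _ => ?_
    rw [mul_assoc, ← ex_add]
    congr 2
    ring
  rw [e, mul_sum, ← sum_neg_distrib]
  refine sum_congr rfl fun s hs => ?_
  obtain ⟨n, hn⟩ := Int.eq_ofNat_of_zero_le (sub_nonneg.2 (h2 s (mem_range.1 hs)))
  have e1 : ∀ α : ℝ, Er M α * ((ww M (PP s) : ℂ) * ex (α * (-PP s : ℤ))) * ex (α * (ν : ℤ)) =
      ww M (PP s) * (Er M α * ex (α * (n : ℤ))) := fun α => by
    rw [← hn, show α * ((ν - PP s : ℤ) : ℝ) = α * (-PP s : ℤ) + α * (ν : ℤ) by push_cast; ring,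
      ex_add]
    ring
  have e2 : (ν : ℝ) - PP s = n := by exact_mod_cast hn
  simp_rw [e1, e2]
  rw [intervalIntegral.integral_const_mul, h4 n fun j k h => h1 ⟨j, k, s, by omega⟩,
    show (ν : ℤ) = PP s + n by omega, ww_add]
  push_cast
  ring

end Bessel

open Bessel in
theorem bessel : ∃ C : ℝ, 0 < C ∧ ∀ (M T : ℕ) (E : Finset ℕ), 2 ≤ M →
    (∀ ν ∈ E, ¬ Rp ν ∧ ν ≤ M ^ 2 ∧ ∀ s : ℕ, s < T → PP s ≤ ν) →
    ∑ ν ∈ E, ‖JJ (M / 2) T ν‖ ^ 2 ≤ C * (M : ℝ) ^ 2 * (1 + Real.log M) ^ 2 * T := by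
  obtain ⟨C, hC, h⟩ := theta_approx
  have hk : 0 < ‖kap‖ := by
    unfold kap
    rw [norm_real, norm_pos_iff]
    positivity
  have hd : 0 < (‖kap‖ * Real.exp (-(2 * π))) ^ 2 := by positivity
  refine ⟨C ^ 2 / (‖kap‖ * Real.exp (-(2 * π))) ^ 2, by positivity, fun M T E hM hE => ?_⟩
  have hM0 : (0 : ℝ) < M := by exact_mod_cast (by omega : 0 < M)
  have hL := Real.log_natCast_nonneg M
  have h1 := dual (G := fun α => ∑ s ∈ range T, (ww M (PP s) : ℂ) * ex (α * (-PP s : ℤ)))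
    (Er_co hM).1 (by fun_prop) (B := C * M * (1 + Real.log M))
    (fun α => h M α hM) E
  rw [int_sq _ _ (fun s : ℕ => -PP s) fun _ _ _ _ h => PP_inj (neg_injective h)] at h1
  have h2 : ∑ s ∈ range T, ‖(ww M (PP s) : ℂ)‖ ^ 2 ≤ T := by
    refine (sum_le_card_nsmul _ _ 1 fun s _ => ?_).trans (by simp)
    refine pow_le_one₀ (norm_nonneg _) ?_
    have : (0 : ℝ) < PP s := by exact_mod_cast PP_pos s
    rw [norm_real, ww, Real.norm_of_nonneg (Real.exp_pos _).le, Real.exp_le_one_iff, neg_nonpos]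
    positivity
  have h3 := h1.trans (mul_le_mul_of_nonneg_left h2 (sq_nonneg _))
  rw [div_mul_eq_mul_div, div_mul_eq_mul_div, div_mul_eq_mul_div, le_div_iff₀ hd, sum_mul]
  refine le_trans (sum_le_sum fun ν hν => ?_) (h3.trans_eq (by ring))
  obtain ⟨h4, h5, h6⟩ := hE ν hν
  rw [coeff hM h4 h6, norm_neg, norm_mul, norm_mul, ← mul_pow, mul_comm]
  refine pow_le_pow_left₀ (by positivity) (mul_le_mul_of_nonneg_right
    (mul_le_mul_of_nonneg_left ?_ hk.le) (norm_nonneg _)) 2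
  rw [norm_real, ww, Real.norm_of_nonneg (Real.exp_pos _).le, Real.exp_le_exp, neg_le_neg_iff,
    mul_assoc]
  refine mul_le_of_le_one_right (by positivity) ?_
  rw [one_div_mul_eq_div, div_le_one (by positivity)]
  exact_mod_cast h5

end Pool.Agent.MP_b9bf0c_nt
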