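import Pool.Agent.MP_b9bf0c_nt.Local

/-!
Odd integers as x^2 + 2 y^2 + 3 z^2 with x + y + z a square: the mollified Euler product.
-/

set_option autoImplicit false

open Finset Complex
open scoped Real ArithmeticFunction.Moebius

noncomputable section

namespace Pool.Agent.MP_b9bf0c_nt

open Pool.Agent.MP_2a1f0e_nt (ex)
open Pool.Agent.MP_c903c4_nt (Red cc)

namespace Euler

theorem sum_eq_prod {f : ℕ → ℝ} (h1 : f 1 = 1) (hm : ∀ a b : ℕ, a.Coprime b → f (a * b) = f a * f b)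
    {S : Finset ℕ} (hS : ∀ p ∈ S, p.Prime) :
    ∑ l ∈ (∏ p ∈ S, p ^ 4).divisors, f l = ∏ p ∈ S, ∑ j ∈ range 5, f (p ^ j) := by
  let F : ArithmeticFunction ℝ := ⟨fun n => if n = 0 then 0 else f n, if_pos rfl⟩
  have hF : ∀ n, n ≠ 0 → F n = f n := fun n hn => if_neg hn
  have h2 : F.IsMultiplicative := ArithmeticFunction.IsMultiplicative.iff_ne_zero.2
    ⟨(hF 1 one_ne_zero).trans h1, fun ha hb h => by
      rw [hF _ ha, hF _ hb, hF _ (mul_ne_zero ha hb), hm _ _ h]⟩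
  have h3 : ∀ n, (F * (ArithmeticFunction.zeta : ArithmeticFunction ℝ)) n =
      ∑ l ∈ n.divisors, f l := fun n => by
    rw [ArithmeticFunction.coe_mul_zeta_apply]
    exact sum_congr rfl fun l hl => hF l (Nat.pos_of_mem_divisors hl).ne'
  rw [← h3, (h2.mul ArithmeticFunction.isMultiplicative_zeta.natCast).map_prod _ _
    fun p hp q hq h => Nat.coprime_pow_primes 4 4 (hS p hp) (hS q hq) h]
  exact prod_congr rfl fun p hp => by rw [h3, Nat.sum_divisors_prime_pow (hS p hp)]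

theorem dvd_of_ne {k : ℕ → ℝ} (hm : ∀ a b : ℕ, a.Coprime b → k (a * b) = k a * k b)
    (h5 : ∀ p : ℕ, p.Prime → ∀ j, 5 ≤ j → k (p ^ j) = 0) {l D : ℕ} (h0 : l ≠ 0) (hD : l ≤ D)
    (hk : k l ≠ 0) : l ∣ ∏ p ∈ (range (D + 1)).filter Nat.Prime, p ^ 4 := by
  refine (Nat.dvd_iff_prime_pow_dvd_dvd _ _).2 fun p j hp hj => ?_
  rcases Nat.eq_zero_or_pos j with rfl | hj0
  · simp
  have h1 : p ≤ D := (Nat.le_of_dvd (Nat.pos_of_ne_zero h0)
    ((dvd_pow_self p hj0.ne').trans hj)).trans hD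
  obtain ⟨e, m, hpm, rfl⟩ := Nat.exists_eq_pow_mul_and_not_dvd h0 p hp.ne_one
  have hc := (Nat.Prime.coprime_iff_not_dvd hp).2 hpm
  have he : e ≤ 4 := by
    by_contra h
    rw [hm _ _ (hc.pow_left e), h5 p hp e (by omega), zero_mul] at hk
    exact hk rfl
  exact ((hc.pow_left j).dvd_of_dvd_mul_right hj).trans ((pow_dvd_pow p he).trans
    (dvd_prod_of_mem _ (mem_filter.2 ⟨mem_range.2 (by omega), hp⟩)))

theorem prod_ite (S B : Finset ℕ) (A : ℝ) :
    ∏ p ∈ S, (if p ∈ B then A else 1) = A ^ (S ∩ B).card := by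
  rw [prod_ite_mem, prod_const]

theorem exp_le {x : ℝ} (h0 : 0 ≤ x) (h : x ≤ 1 / 2) : Real.exp (-(2 * x)) ≤ 1 - x := by
  rw [Real.exp_neg, inv_le_iff_one_le_mul₀ (Real.exp_pos _)]
  nlinarith [Real.add_one_le_exp (2 * x), mul_nonneg h0 (sub_nonneg.2 h)]

theorem two_pow_le {n : ℕ} (hn : n ≠ 0) : 2 ^ n.primeFactors.card ≤ n.divisors.card := by
  rw [Nat.card_divisors hn]
  exact pow_card_le_prod _ _ _ fun p hp => Nat.succ_le_succ
    ((Nat.prime_of_mem_primeFactors hp).factorization_pos_of_dvd hn (Nat.dvd_of_mem_primeFactors hp))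

theorem uu_prime (ν : ℕ) {p : ℕ} (hp : p.Prime) (h : p ≠ 3) : uu ν p = -hh ν p := by
  rw [uu, if_neg fun h3 => h ((Nat.prime_dvd_prime_iff_eq Nat.prime_three hp).1 h3).symm,
    ArithmeticFunction.moebius_apply_prime hp]
  simp

theorem kk_eq {ν p : ℕ} (hp : p.Prime) (h : uu ν p = 0) (j : ℕ) : kk ν (p ^ j) = hh ν (p ^ j) := by
  cases j with
  | zero => rw [pow_zero, kk_one, hh_one]
  | succ j => rw [kk_pow ν hp, h, mul_zero, add_zero]

end Euler

theorem euler : ∃ c C : ℝ, 0 < c ∧ 0 < C ∧ ∀ (k : ℕ → ℝ) (B : Finset ℕ) (D : ℕ), 1 ≤ D →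
    k 1 = 1 → (∀ a b : ℕ, a.Coprime b → k (a * b) = k a * k b) →
    (∀ p : ℕ, p.Prime → p ∉ B → k p = 0 ∧ |k (p ^ 2)| ≤ 9 / (p : ℝ) ^ 2 ∧
      (p < 5 → k (p ^ 2) = 0) ∧ ∀ j, 3 ≤ j → k (p ^ j) = 0) →
    (∀ p : ℕ, p.Prime → p ∈ B → (∀ j, 1 ≤ j → |k (p ^ j)| ≤ 3 / p) ∧
      (∀ j, 5 ≤ j → k (p ^ j) = 0) ∧ 2 / 5 ≤ ∑ j ∈ range 5, k (p ^ j)) →
    c / 4 ^ B.card - C * 16 ^ B.card / (D : ℝ) ^ (1 / 8 : ℝ) ≤ ∑ l ∈ Ioc 0 D, k l := by
  have s1 : Summable fun n : ℕ => 2 * (9 / (n : ℝ) ^ 2) := by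
    simpa only [div_eq_mul_inv] using
      ((Real.summable_nat_pow_inv.2 one_lt_two).mul_left 9).mul_left 2
  have s2 : Summable fun n : ℕ => 9 * (n : ℝ) ^ (-7 / 4 : ℝ) :=
    (Real.summable_nat_rpow.2 (by norm_num)).mul_left 9
  refine ⟨Real.exp (-∑' n : ℕ, 2 * (9 / (n : ℝ) ^ 2)), Real.exp (∑' n : ℕ, 9 * (n : ℝ) ^ (-7 / 4 : ℝ)),
    Real.exp_pos _, Real.exp_pos _, fun k B D hD h1 hm hg hb => ?_⟩
  set S := (range (D + 1)).filter Nat.Prime with hSdef
  have hS : ∀ p ∈ S, p.Prime := fun p hp => (mem_filter.1 hp).2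
  have hL : ∏ p ∈ S, p ^ 4 ≠ 0 := prod_ne_zero_iff.2 fun p hp => pow_ne_zero _ (hS p hp).ne_zero
  have hD0 : (0 : ℝ) < D := by exact_mod_cast hD
  have hc : (S ∩ B).card ≤ B.card := card_le_card inter_subset_right
  have e1 : ∑ l ∈ Ioc 0 D, k l = ∑ l ∈ (∏ p ∈ S, p ^ 4).divisors with l ≤ D, k l := by
    refine (sum_subset (fun l hl => ?_) fun l hl hn => ?_).symm
    · rw [mem_filter] at hl
      exact mem_Ioc.2 ⟨Nat.pos_of_mem_divisors hl.1, hl.2⟩
    · rw [mem_Ioc] at hl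
      by_contra hk
      refine hn (mem_filter.2 ⟨Nat.mem_divisors.2 ⟨Euler.dvd_of_ne hm (fun p hp j hj => ?_)
        hl.1.ne' hl.2 hk, hL⟩, hl.2⟩)
      by_cases h : p ∈ B
      · exact (hb p hp h).2.1 j hj
      · exact (hg p hp h).2.2.2 j (by omega)
  have e2 : Real.exp (-∑' n : ℕ, 2 * (9 / (n : ℝ) ^ 2)) / 4 ^ B.card ≤
      ∑ l ∈ (∏ p ∈ S, p ^ 4).divisors, k l := by
    rw [Euler.sum_eq_prod h1 hm hS]
    refine le_trans ?_ (prod_le_prod (f := fun p : ℕ => (if p ∈ B then (1 / 4 : ℝ) else 1) *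
      Real.exp (-(2 * (9 / (p : ℝ) ^ 2)))) (fun p _ => by positivity) fun p hp => ?_)
    · rw [prod_mul_distrib, Euler.prod_ite, ← Real.exp_sum, sum_neg_distrib, div_eq_inv_mul,
        ← inv_pow, one_div]
      refine mul_le_mul (pow_le_pow_of_le_one (by norm_num) (by norm_num) hc)
        (Real.exp_le_exp.2 (neg_le_neg (s1.sum_le_tsum _ fun _ _ => by positivity)))
        (Real.exp_pos _).le (by positivity)
    · have h2 : Real.exp (-(2 * (9 / (p : ℝ) ^ 2))) ≤ 1 :=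
        Real.exp_le_one_iff.2 (neg_nonpos.2 (by positivity))
      split_ifs with h
      · linarith [(hb p (hS p hp) h).2.2]
      · obtain ⟨g1, g2, g3, g4⟩ := hg p (hS p hp) h
        simp only [sum_range_succ, range_zero, sum_empty, pow_zero, pow_one, h1, g1, g4 3 le_rfl,
          g4 4 (by norm_num), zero_add, add_zero, one_mul]
        rcases lt_or_ge p 5 with h5 | h5
        · rw [g3 h5, add_zero]
          exact h2
        · have h6 : (5 : ℝ) ≤ p := by exact_mod_cast h5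
          have h7 : 9 / (p : ℝ) ^ 2 ≤ 1 / 2 := by
            rw [div_le_iff₀ (by positivity)]
            nlinarith
          linarith [Euler.exp_le (by positivity) h7, (abs_le.1 g2).1]
  have e3 : ∑ l ∈ (∏ p ∈ S, p ^ 4).divisors, |k l| * (l : ℝ) ^ (1 / 8 : ℝ) ≤
      Real.exp (∑' n : ℕ, 9 * (n : ℝ) ^ (-7 / 4 : ℝ)) * 16 ^ B.card := by
    rw [Euler.sum_eq_prod (f := fun l => |k l| * (l : ℝ) ^ (1 / 8 : ℝ)) (by simp [h1])
      (fun a b h => by
        rw [hm a b h, abs_mul, Nat.cast_mul, Real.mul_rpow a.cast_nonneg b.cast_nonneg]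
        ring) hS]
    refine (prod_le_prod (g := fun p : ℕ => (if p ∈ B then (16 : ℝ) else 1) *
      Real.exp (9 * (p : ℝ) ^ (-7 / 4 : ℝ))) (fun p _ => by positivity) fun p hp => ?_).trans ?_
    · have hp1 : (1 : ℝ) ≤ p := by exact_mod_cast (hS p hp).one_le
      have h2 := Real.add_one_le_exp (9 * (p : ℝ) ^ (-7 / 4 : ℝ))
      have h3 : 0 ≤ 9 * (p : ℝ) ^ (-7 / 4 : ℝ) := by positivity
      split_ifs with h
      · have h4 : ∀ j, 1 ≤ j → j ≤ 4 → |k (p ^ j)| * ((p ^ j : ℕ) : ℝ) ^ (1 / 8 : ℝ) ≤ 3 := by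
          intro j hj hj'
          have h5 : ((p ^ j : ℕ) : ℝ) ^ (1 / 8 : ℝ) ≤ p := by
            rw [Nat.cast_pow, ← Real.rpow_natCast, ← Real.rpow_mul (by positivity)]
            refine (Real.rpow_le_rpow_of_exponent_le hp1 ?_).trans_eq (Real.rpow_one _)
            have : (j : ℝ) ≤ 4 := by exact_mod_cast hj'
            linarith
          refine (mul_le_mul ((hb p (hS p hp) h).1 j hj) h5 (by positivity)
            (by positivity)).trans_eq ?_
          field_simp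
        simp only [sum_range_succ, range_zero, sum_empty, pow_zero, h1, abs_one, Nat.cast_one,
          Real.one_rpow]
        linarith [h4 1 le_rfl (by norm_num), h4 2 (by norm_num) (by norm_num),
          h4 3 (by norm_num) (by norm_num), h4 4 (by norm_num) le_rfl]
      · obtain ⟨g1, g2, -, g4⟩ := hg p (hS p hp) h
        have h5 : |k (p ^ 2)| * ((p ^ 2 : ℕ) : ℝ) ^ (1 / 8 : ℝ) ≤ 9 * (p : ℝ) ^ (-7 / 4 : ℝ) := by
          refine (mul_le_mul_of_nonneg_right g2 (by positivity)).trans_eq ?_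
          rw [Nat.cast_pow, ← Real.rpow_natCast, ← Real.rpow_mul (by positivity), div_mul_eq_mul_div,
            mul_div_assoc, ← Real.rpow_sub (by positivity)]
          norm_num
        simp only [sum_range_succ, range_zero, sum_empty, pow_zero, pow_one, h1, g1, g4 3 le_rfl,
          g4 4 (by norm_num), abs_one, abs_zero, Nat.cast_one, Real.one_rpow, zero_mul]
        linarith
    · rw [prod_mul_distrib, Euler.prod_ite, ← Real.exp_sum, mul_comm]
      exact mul_le_mul (Real.exp_le_exp.2 (s2.sum_le_tsum _ fun _ _ => by positivity))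
        (pow_le_pow_right₀ (by norm_num) hc) (by positivity) (Real.exp_pos _).le
  have e4 : ∑ l ∈ (∏ p ∈ S, p ^ 4).divisors with ¬ l ≤ D, k l ≤
      (∑ l ∈ (∏ p ∈ S, p ^ 4).divisors, |k l| * (l : ℝ) ^ (1 / 8 : ℝ)) / (D : ℝ) ^ (1 / 8 : ℝ) := by
    rw [sum_div, sum_filter]
    refine sum_le_sum fun l _ => ?_
    split_ifs with h
    · positivity
    · rw [le_div_iff₀ (by positivity)]
      exact mul_le_mul (le_abs_self _) (Real.rpow_le_rpow hD0.le
        (by exact_mod_cast (not_le.1 h).le) (by norm_num)) (by positivity) (abs_nonneg _)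
  have e5 := sum_filter_add_sum_filter_not (∏ p ∈ S, p ^ 4).divisors (· ≤ D) k
  have e6 := div_le_div_of_nonneg_right e3 (Real.rpow_nonneg hD0.le (1 / 8))
  linarith

theorem kk_lower : ∃ c C : ℝ, 0 < c ∧ 0 < C ∧ ∀ (τ : ℝ) (ν D : ℕ), Free ν → Dv τ (2 * ν + 1) →
    1 ≤ D → c / τ ^ 2 - C * τ ^ 4 / (D : ℝ) ^ (1 / 8 : ℝ) ≤ ∑ l ∈ Ioc 0 D, kk ν l := by
  obtain ⟨c, C, hc, hC, h⟩ := euler
  refine ⟨c / 4, C * 16, by positivity, by positivity, fun τ ν D hν hτ hD => ?_⟩
  have hn : 2 * ν + 1 ≠ 0 := by omega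
  set B := insert 3 ((2 * ν + 1).primeFactors.erase 11) with hB
  have hmem : ∀ p, p.Prime → (p ∈ B ↔ p = 3 ∨ p ≠ 11 ∧ p ∣ 2 * ν + 1) := fun p hp => by
    simp [hB, hp]
  have h66 : ∀ p : ℕ, p.Prime → p ∣ 66 → p = 2 ∨ p = 3 ∨ p = 11 := fun p hp h => by
    rw [show 66 = 2 * (3 * 11) from rfl, hp.dvd_mul, hp.dvd_mul,
      Nat.prime_dvd_prime_iff_eq hp Nat.prime_two, Nat.prime_dvd_prime_iff_eq hp Nat.prime_three,
      Nat.prime_dvd_prime_iff_eq hp Nat.prime_eleven] at h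
    exact h
  refine le_trans ?_ (h (kk ν) B D hD (kk_one ν) (fun a b => kk_mul ν) (fun p hp hpB => ?_)
    fun p hp hpB => ?_)
  · have h1 : (2 : ℝ) ^ B.card ≤ 2 * τ := by
      have h2 : B.card ≤ (2 * ν + 1).primeFactors.card + 1 :=
        (card_insert_le _ _).trans (Nat.succ_le_succ card_erase_le)
      have h3 : (2 : ℝ) ^ (2 * ν + 1).primeFactors.card ≤ τ :=
        le_trans (by exact_mod_cast Euler.two_pow_le hn) (hτ _ hn le_rfl)
      refine (pow_le_pow_right₀ one_le_two h2).trans ?_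
      rw [pow_succ]
      linarith
    have h2 : (4 : ℝ) ^ B.card ≤ 4 * τ ^ 2 := by
      have := pow_le_pow_left₀ (by positivity) h1 2
      rwa [← pow_mul, mul_comm B.card, pow_mul, mul_pow, show (2 : ℝ) ^ 2 = 4 by norm_num] at this
    have h3 : (16 : ℝ) ^ B.card ≤ 16 * τ ^ 4 := by
      have := pow_le_pow_left₀ (by positivity) h1 4
      rwa [← pow_mul, mul_comm B.card, pow_mul, mul_pow, show (2 : ℝ) ^ 4 = 16 by norm_num] at this
    refine sub_le_sub ?_ (div_le_div_of_nonneg_right ?_ (by positivity))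
    · rw [div_div]
      exact div_le_div_of_nonneg_left hc.le (by positivity) h2
    · rw [mul_assoc]
      exact mul_le_mul_of_nonneg_left h3 hC.le
  · rw [hmem p hp, not_or, not_and_or, not_not] at hpB
    by_cases hb : p = 2 ∨ p = 11
    · have h1 : uu ν p = 0 := by
        rw [Euler.uu_prime ν hp hpB.1, ← pow_one p, hh_bad ν hb 0, neg_zero]
      have h2 : ∀ j, 1 ≤ j → kk ν (p ^ j) = 0 := fun j hj => by
        obtain ⟨i, rfl⟩ := Nat.exists_eq_add_of_le' hj
        rw [Euler.kk_eq hp h1, hh_bad ν hb]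
      refine ⟨by simpa using h2 1 le_rfl, ?_, fun _ => h2 2 one_le_two, fun j hj => h2 j (by omega)⟩
      rw [h2 2 one_le_two, abs_zero]
      positivity
    · obtain ⟨g1, g2⟩ := hh_good (ν := ν) hp fun h => by
        rcases hp.dvd_mul.1 h with h | h
        · have := h66 p hp h
          tauto
        · tauto
      have h1 := Euler.uu_prime ν hp hpB.1
      refine ⟨?_, ?_, fun h5 => ?_, fun j hj => ?_⟩
      · have := kk_pow ν hp 0
        rwa [zero_add, pow_one, pow_zero, hh_one, h1, one_mul, add_neg_cancel] at this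
      · rw [kk_pow ν hp 1, g2 _ le_rfl, pow_one, h1, zero_add, mul_neg, abs_neg, abs_mul]
        refine (mul_le_mul g1 g1 (abs_nonneg _) (by positivity)).trans_eq ?_
        ring
      · have := hp.two_le
        have h4 : p ≠ 4 := by
          rintro rfl
          norm_num at hp
        omega
      · obtain ⟨i, rfl⟩ := Nat.exists_eq_add_of_le' (show 1 ≤ j by omega)
        rw [kk_pow ν hp, g2 _ (by omega), g2 _ (by omega), zero_mul, add_zero]
  · by_cases h3 : p = 3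
    · subst h3
      obtain ⟨g1, g2, g3⟩ := hh_three hν
      simp only [Euler.kk_eq hp (show uu ν 3 = 0 by simp [uu])]
      exact ⟨fun j _ => (g1 j).trans_eq (by norm_num), g2, le_trans (by norm_num) g3⟩
    · obtain ⟨h11, hd⟩ := ((hmem p hp).1 hpB).resolve_left h3
      have h2 : p ≠ 2 := by
        rintro rfl
        omega
      obtain ⟨g1, g2, g3⟩ := hh_dvd hν hp (fun h => by have := h66 p hp h; tauto) hd
      have h5 : (5 : ℝ) ≤ p := by
        have := hp.two_le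
        have h4 : p ≠ 4 := by
          rintro rfl
          norm_num at hp
        exact_mod_cast (by omega : 5 ≤ p)
      have h6 : 1 / (p : ℝ) ≤ 1 / 5 := one_div_le_one_div_of_le (by norm_num) h5
      simp only [Euler.kk_eq hp (show uu ν p = 0 by rw [Euler.uu_prime ν hp h3, g1, neg_zero])]
      refine ⟨fun j hj => (g2 j hj).trans (div_le_div_of_nonneg_right (by norm_num)
        (by positivity)), g3, ?_⟩
      simp only [sum_range_succ, range_zero, sum_empty, pow_zero, pow_one, hh_one, g1]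
      linarith [(abs_le.1 (g2 2 (by norm_num))).1, (abs_le.1 (g2 3 (by norm_num))).1,
        (abs_le.1 (g2 4 (by norm_num))).1]

end Pool.Agent.MP_b9bf0c_nt
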