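import Pool.Agent.MP_b9bf0c_nt.Arith

/-!
Odd integers as x^2 + 2 y^2 + 3 z^2 with x + y + z a square: local factors.
-/

set_option autoImplicit false

open Finset Complex
open scoped Real ArithmeticFunction.Moebius

noncomputable section

namespace Pool.Agent.MP_b9bf0c_nt

open Pool.Agent.MP_2a1f0e_nt (ex)
open Pool.Agent.MP_c903c4_nt (Red cc)

namespace Local

theorem sum_split (f : ℕ → ℕ) (a b : ℕ) :
    ∑ s ∈ range (a * b), f s = ∑ w ∈ range b, ∑ s ∈ range a, f (a * w + s) := by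
  induction b with
  | zero => simp
  | succ b ih => rw [Nat.mul_succ, sum_range_add, ih, sum_range_succ]

theorem count_lin {p : ℕ} (hp : p.Prime) {c : ℤ} (hc : ¬ (p : ℤ) ∣ c) (d : ℤ) :
    ∑ w ∈ range p, (if (p : ℤ) ∣ d + c * w then 1 else 0) = 1 := by
  haveI := Fact.mk hp
  have hc' : (c : ZMod p) ≠ 0 := fun h => hc ((ZMod.intCast_zmod_eq_zero_iff_dvd c p).1 h)
  have key : ∀ w : ℕ, (p : ℤ) ∣ d + c * w ↔ (w : ZMod p) = -d / c := by
    intro w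
    rw [← ZMod.intCast_zmod_eq_zero_iff_dvd, eq_div_iff hc']
    push_cast
    constructor <;> intro h <;> linear_combination h
  rw [sum_eq_single ((-d / c : ZMod p).val)]
  · rw [if_pos ((key _).2 (ZMod.natCast_zmod_val _))]
  · intro w hw hne
    refine if_neg fun h => hne ?_
    rw [← (key w).1 h, ZMod.val_natCast, Nat.mod_eq_of_lt (mem_range.1 hw)]
  · intro h
    exact absurd (mem_range.2 (ZMod.val_lt _)) h

theorem rho_le (ν d : ℕ) : rho ν d ≤ d := (card_filter_le _ _).trans_eq (card_range d)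

theorem rho_eq (ν d : ℕ) : rho ν d = ∑ s ∈ range d, if (d : ℤ) ∣ mm ν s then 1 else 0 := by
  rw [rho, card_filter]

theorem abs_hh (ν : ℕ) {p : ℕ} (hp : p.Prime) (j : ℕ) {B : ℝ}
    (hB : |(rho ν (p ^ (j + 1)) : ℝ) - rho ν (p ^ j)| ≤ B) :
    |hh ν (p ^ (j + 1))| ≤ B / (p : ℝ) ^ (j + 1) := by
  have hp0 : (0 : ℝ) < p := by exact_mod_cast hp.pos
  have h1 : |(chi p : ℝ)| ≤ 1 := by exact_mod_cast abs_chi_le p
  rw [hh_pow ν hp, abs_mul, abs_pow, abs_div, abs_of_pos hp0, div_pow, div_mul_eq_mul_div]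
  refine div_le_div_of_nonneg_right ?_ (by positivity)
  calc _ ≤ 1 * B := mul_le_mul (pow_le_one₀ (abs_nonneg _) h1) hB (abs_nonneg _) zero_le_one
    _ = B := one_mul B

theorem not_dvd_of {p : ℕ} {m : ℕ} (h : ¬ p ∣ m) {c : ℕ} (hc : c ∣ m) : ¬ (p : ℤ) ∣ (c : ℤ) :=
  fun h1 => h ((Int.natCast_dvd_natCast.1 h1).trans hc)

theorem rho_four {ν p : ℕ} (hp : p.Prime) (h : ¬ p ∣ 66) : rho ν p ≤ 4 := by
  classical
  haveI := Fact.mk hp
  have nz : ∀ c : ℕ, c ∣ 66 → ((c : ℕ) : ZMod p) ≠ 0 := fun c hc h1 =>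
    h (((ZMod.natCast_eq_zero_iff c p).1 h1).trans hc)
  have h6 : (6 : ZMod p) ≠ 0 := by exact_mod_cast nz 6 (by norm_num)
  have h33 : (33 : ZMod p) ≠ 0 := by exact_mod_cast nz 33 (by norm_num)
  set a : ZMod p := 11 * (2 * ν + 1) / 6 with ha
  refine le_trans (card_le_card_of_injOn (t := (Polynomial.nthRoots 4 a).toFinset)
    (fun s : ℕ => (33 * s + 3 : ZMod p)) ?_ ?_)
    ((Multiset.toFinset_card_le _).trans (Polynomial.card_nthRoots 4 a))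
  · intro s hs
    have h1 := (mem_filter.1 (mem_coe.1 hs)).2
    rw [← ZMod.intCast_zmod_eq_zero_iff_dvd, mm_eq] at h1
    push_cast at h1
    rw [mem_coe, Multiset.mem_toFinset, Polynomial.mem_nthRoots (by norm_num), ha,
      eq_div_iff h6]
    linear_combination -h1
  · intro s hs t ht hst
    have hs' := mem_range.1 (mem_filter.1 (mem_coe.1 hs)).1
    have ht' := mem_range.1 (mem_filter.1 (mem_coe.1 ht)).1
    have h1 : (s : ZMod p) = t := mul_left_cancel₀ h33 (add_right_cancel hst)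
    have h2 := congrArg ZMod.val h1
    rwa [ZMod.val_natCast, ZMod.val_natCast, Nat.mod_eq_of_lt hs', Nat.mod_eq_of_lt ht'] at h2

theorem hensel {ν p : ℕ} (hp : p.Prime) (h : ¬ p ∣ 66 * (2 * ν + 1)) (j : ℕ) :
    rho ν (p ^ (j + 2)) = rho ν (p ^ (j + 1)) := by
  have hpz : Prime (p : ℤ) := Nat.prime_iff_prime_int.1 hp
  rw [rho_eq, rho_eq, pow_succ p (j + 1), sum_split, sum_comm]
  refine sum_congr rfl fun s _ => ?_
  set P : ℕ := p ^ (j + 1) with hP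
  have hP0 : (P : ℤ) ≠ 0 := by exact_mod_cast (pow_pos hp.pos _).ne'
  have hpP : (p : ℤ) ∣ P := by
    rw [hP]; push_cast; exact dvd_pow_self _ (by omega)
  set t : ℤ := 33 * s + 3 with ht
  have e : ∀ w : ℕ, mm ν ((P * w + s : ℕ) : ℤ) = mm ν s + P * (-(792 * t ^ 3) * w -
      P * (6 * w ^ 2 * (6 * 33 ^ 2 * t ^ 2 + 4 * 33 ^ 3 * t * (P * w) + 33 ^ 4 * (P * w) ^ 2))) := by
    intro w
    rw [mm_eq, mm_eq, ht]
    push_cast
    ring
  by_cases hs : (P : ℤ) ∣ mm ν s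
  · obtain ⟨d, hd⟩ := hs
    have hc : ¬ (p : ℤ) ∣ -(792 * t ^ 3) := by
      rw [dvd_neg]
      intro h1
      rcases hpz.dvd_or_dvd h1 with h2 | h2
      · have h3 : (p : ℤ) ∣ 66 ^ 3 := h2.trans (by norm_num)
        exact not_dvd_of h (dvd_mul_right 66 _) (by exact_mod_cast hpz.dvd_of_dvd_pow h3)
      · have h3 : (p : ℤ) ∣ t := hpz.dvd_of_dvd_pow h2
        have h4 : (p : ℤ) ∣ mm ν s := hd ▸ hpP.mul_right d
        refine not_dvd_of h (c := 11 * (2 * ν + 1)) ⟨6, by ring⟩ ?_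
        have h5 : ((11 * (2 * ν + 1) : ℕ) : ℤ) = mm ν s + t * (6 * t ^ 3) := by
          rw [mm_eq, ht]; push_cast; ring
        rw [h5]
        exact h4.add (h3.mul_right _)
    rw [if_pos ⟨d, hd⟩]
    refine Eq.trans (sum_congr rfl fun w _ => if_congr ?_ rfl rfl) (count_lin hp hc d)
    rw [e, hd, ← mul_add, Nat.cast_mul, mul_dvd_mul_iff_left hP0, ← add_sub_assoc]
    exact dvd_sub_left (hpP.mul_right _) |>.trans Iff.rfl
  · rw [if_neg hs]
    refine sum_eq_zero fun w _ => if_neg fun h1 => hs ?_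
    rw [e, Nat.cast_mul] at h1
    exact (dvd_add_left (dvd_mul_right _ _)).1 ((dvd_mul_right _ _).trans h1)

theorem dvd_iff {ν p : ℕ} (hν : Free ν) (hp : p.Prime) (h66 : ¬ p ∣ 66) (h : p ∣ 2 * ν + 1)
    (j : ℕ) (s : ℤ) : ((p ^ (j + 1) : ℕ) : ℤ) ∣ mm ν s ↔
      (p : ℤ) ∣ 33 * s + 3 ∧ p ^ (j + 1) ∣ 2 * ν + 1 := by
  have hpz : Prime (p : ℤ) := Nat.prime_iff_prime_int.1 hp
  have hn : (p : ℤ) ∣ 2 * ν + 1 := by exact_mod_cast h
  have cop : ∀ i : ℕ, ((p : ℤ)) ^ i ∣ 11 * (2 * ν + 1) → p ^ i ∣ 2 * ν + 1 := by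
    intro i hi
    have h1 : p ^ i ∣ 11 * (2 * ν + 1) := by exact_mod_cast hi
    refine Nat.Coprime.dvd_of_dvd_mul_left (Nat.Coprime.pow_left i ?_) h1
    exact (Nat.Prime.coprime_iff_not_dvd hp).2 fun h2 => h66 (h2.trans (by norm_num))
  rw [mm_eq]
  push_cast
  constructor
  · intro h1
    have h2 : (p : ℤ) ∣ 6 * (33 * s + 3) ^ 4 :=
      (dvd_sub_right (hn.mul_left 11)).1 ((dvd_pow_self _ (by omega)).trans h1)
    have h3 : (p : ℤ) ∣ 33 * s + 3 := by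
      rcases hpz.dvd_or_dvd h2 with h4 | h4
      · exact absurd h4 (not_dvd_of h66 (c := 6) (by norm_num))
      · exact hpz.dvd_of_dvd_pow h4
    have h4 : (p : ℤ) ^ 4 ∣ 6 * (33 * s + 3) ^ 4 := (pow_dvd_pow_of_dvd h3 4).mul_left 6
    refine ⟨h3, ?_⟩
    rcases le_total (j + 1) 4 with hj | hj
    · exact cop _ ((dvd_sub_left ((pow_dvd_pow _ hj).trans h4)).1 h1)
    · exact absurd (cop _ ((dvd_sub_left h4).1 ((pow_dvd_pow _ hj).trans h1))) (hν p hp)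
  · rintro ⟨h3, h1⟩
    have hj : j + 1 ≤ 4 := by
      by_contra hj
      exact hν p hp ((pow_dvd_pow _ (by omega)).trans h1)
    have h4 : (p : ℤ) ^ 4 ∣ 6 * (33 * s + 3) ^ 4 := (pow_dvd_pow_of_dvd h3 4).mul_left 6
    have h5 : (p : ℤ) ^ (j + 1) ∣ 2 * ν + 1 := by exact_mod_cast h1
    exact (h5.mul_left 11).sub ((pow_dvd_pow _ hj).trans h4)

theorem rho_dvd {ν p : ℕ} (hν : Free ν) (hp : p.Prime) (h66 : ¬ p ∣ 66) (h : p ∣ 2 * ν + 1)
    (j : ℕ) : rho ν (p ^ (j + 1)) = if p ^ (j + 1) ∣ 2 * ν + 1 then p ^ j else 0 := by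
  rw [rho_eq]
  simp only [dvd_iff hν hp h66 h]
  split_ifs with h1
  · simp only [h1, and_true]
    rw [pow_succ', sum_split]
    have h33 : ¬ (p : ℤ) ∣ 33 := not_dvd_of h66 (c := 33) (by norm_num)
    calc _ = ∑ _w ∈ range (p ^ j), 1 := sum_congr rfl fun w _ => by
          refine Eq.trans (sum_congr rfl fun s _ => if_congr (iff_of_eq ?_) rfl rfl)
            (count_lin hp h33 (33 * (p * w) + 3))
          congr 1
          push_cast
          ring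
      _ = p ^ j := by simp
  · simp [h1]

theorem rho_three (ν : ℕ) {j : ℕ} (hj : j ≤ 5) :
    rho ν (3 ^ j) = if 3 ^ j ∣ 2 * ν + 1 then 3 ^ j else 0 := by
  have key : ∀ s : ℤ, ((3 ^ j : ℕ) : ℤ) ∣ mm ν s ↔ 3 ^ j ∣ 2 * ν + 1 := by
    intro s
    have h4 : ((3 ^ j : ℕ) : ℤ) ∣ 6 * (33 * s + 3) ^ 4 := by
      push_cast
      exact (pow_dvd_pow _ hj).trans ⟨2 * (11 * s + 1) ^ 4, by ring⟩
    rw [mm_eq, dvd_sub_left h4]
    have h5 : (11 * (2 * ν + 1) : ℤ) = ((11 * (2 * ν + 1) : ℕ) : ℤ) := by push_cast; ring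
    rw [h5, Int.natCast_dvd_natCast]
    exact Nat.Coprime.dvd_mul_left (Nat.Coprime.pow_left j (by norm_num))
  rw [rho_eq]
  simp only [key]
  split_ifs <;> simp

theorem rho_three_zero {ν : ℕ} (hν : Free ν) {j : ℕ} (hj : 4 ≤ j) : rho ν (3 ^ j) = 0 := by
  rw [rho, card_eq_zero, filter_eq_empty_iff]
  intro s _ h1
  have h2 : ((3 ^ 4 : ℕ) : ℤ) ∣ mm ν s :=
    (Int.natCast_dvd_natCast.2 (pow_dvd_pow 3 hj)).trans h1
  have h4 : ((3 ^ 4 : ℕ) : ℤ) ∣ 6 * (33 * (s : ℤ) + 3) ^ 4 := ⟨6 * (11 * s + 1) ^ 4, by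
    push_cast; ring⟩
  rw [mm_eq, dvd_sub_left h4] at h2
  have h5 : 3 ^ 4 ∣ 11 * (2 * ν + 1) := by exact_mod_cast h2
  exact hν 3 Nat.prime_three (Nat.Coprime.dvd_of_dvd_mul_left (by norm_num) h5)

end Local

open Local

theorem hh_bad (ν : ℕ) {p : ℕ} (hp : p = 2 ∨ p = 11) (j : ℕ) : hh ν (p ^ (j + 1)) = 0 := by
  have h1 : chi p = 0 := by
    rcases hp with rfl | rfl <;> exact if_neg (by norm_num)
  have h2 : p.Prime := by
    rcases hp with rfl | rfl <;> norm_num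
  rw [hh_pow ν h2, h1]
  simp

theorem hh_good {ν p : ℕ} (hp : p.Prime) (h : ¬ p ∣ 66 * (2 * ν + 1)) :
    |hh ν p| ≤ 3 / p ∧ ∀ j, 2 ≤ j → hh ν (p ^ j) = 0 := by
  constructor
  · have h4 : (rho ν p : ℝ) ≤ 4 := by
      exact_mod_cast rho_four hp fun h1 => h (h1.mul_right _)
    have h0 : (0 : ℝ) ≤ rho ν p := Nat.cast_nonneg _
    have := abs_hh ν hp 0 (B := 3) (by
      rw [zero_add, pow_one, pow_zero, rho_one, abs_le]
      push_cast
      constructor <;> linarith)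
    simpa using this
  · intro j hj
    obtain ⟨i, rfl⟩ : ∃ i, j = i + 1 + 1 := ⟨j - 2, by omega⟩
    rw [hh_pow ν hp, hensel hp h, sub_self, mul_zero]

theorem hh_dvd {ν p : ℕ} (hν : Free ν) (hp : p.Prime) (h66 : ¬ p ∣ 66) (h : p ∣ 2 * ν + 1) :
    hh ν p = 0 ∧ (∀ j, 1 ≤ j → |hh ν (p ^ j)| ≤ 1 / p) ∧ ∀ j, 5 ≤ j → hh ν (p ^ j) = 0 := by
  have hp0 : (0 : ℝ) < p := by exact_mod_cast hp.pos
  refine ⟨?_, fun j hj => ?_, fun j hj => ?_⟩
  · have h1 := hh_pow ν hp 0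
    rw [rho_dvd hν hp h66 h, zero_add, pow_one, if_pos h, pow_zero, rho_one, sub_self,
      mul_zero] at h1
    exact h1
  · obtain ⟨i, rfl⟩ : ∃ i, j = i + 1 := ⟨j - 1, by omega⟩
    have h1 : rho ν (p ^ (i + 1)) ≤ p ^ i := by
      rw [rho_dvd hν hp h66 h]
      split_ifs <;> simp
    have h2 : (rho ν (p ^ (i + 1)) : ℝ) ≤ (p : ℝ) ^ i := by exact_mod_cast h1
    have h3 : (rho ν (p ^ i) : ℝ) ≤ (p : ℝ) ^ i := by exact_mod_cast rho_le ν (p ^ i)
    have h4 : (0 : ℝ) ≤ rho ν (p ^ (i + 1)) := Nat.cast_nonneg _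
    have h5 : (0 : ℝ) ≤ rho ν (p ^ i) := Nat.cast_nonneg _
    refine (abs_hh ν hp i (B := (p : ℝ) ^ i) (abs_le.2 ⟨by linarith, by linarith⟩)).trans_eq ?_
    field_simp
    ring
  · obtain ⟨i, rfl⟩ : ∃ i, j = i + 3 + 1 + 1 := ⟨j - 5, by omega⟩
    rw [hh_pow ν hp, rho_dvd hν hp h66 h, rho_dvd hν hp h66 h,
      if_neg fun h1 => hν p hp ((pow_dvd_pow _ (by omega)).trans h1),
      if_neg fun h1 => hν p hp ((pow_dvd_pow _ (by omega)).trans h1), sub_self, mul_zero]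

theorem hh_three {ν : ℕ} (hν : Free ν) : (∀ j, |hh ν (3 ^ j)| ≤ 1) ∧
    (∀ j, 5 ≤ j → hh ν (3 ^ j) = 0) ∧ 2 / 3 ≤ ∑ j ∈ range 5, hh ν (3 ^ j) := by
  refine ⟨fun j => ?_, fun j hj => ?_, ?_⟩
  · rcases j with _ | i
    · rw [pow_zero, hh_one, abs_one]
    · have h2 : (rho ν (3 ^ (i + 1)) : ℝ) ≤ ((3 : ℕ) : ℝ) ^ (i + 1) := by
        exact_mod_cast rho_le ν (3 ^ (i + 1))
      have h3 : (rho ν (3 ^ i) : ℝ) ≤ ((3 : ℕ) : ℝ) ^ (i + 1) := by
        exact_mod_cast (rho_le ν (3 ^ i)).trans (Nat.pow_le_pow_right (by norm_num) (by omega))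
      have h4 : (0 : ℝ) ≤ rho ν (3 ^ (i + 1)) := Nat.cast_nonneg _
      have h5 : (0 : ℝ) ≤ rho ν (3 ^ i) := Nat.cast_nonneg _
      refine (abs_hh ν Nat.prime_three i (B := ((3 : ℕ) : ℝ) ^ (i + 1))
        (abs_le.2 ⟨by linarith, by linarith⟩)).trans_eq (div_self (by positivity))
  · obtain ⟨i, rfl⟩ : ∃ i, j = i + 1 := ⟨j - 1, by omega⟩
    rw [hh_pow ν Nat.prime_three, rho_three_zero hν (by omega), rho_three_zero hν (by omega),
      sub_self, mul_zero]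
  · have e0 := hh_pow ν Nat.prime_three 0
    have e1 := hh_pow ν Nat.prime_three 1
    have e2 := hh_pow ν Nat.prime_three 2
    have e3 := hh_pow ν Nat.prime_three 3
    rw [rho_three_zero hν (j := 3 + 1) le_rfl] at e3
    rw [rho_three ν (j := 0 + 1) (by norm_num), pow_zero, rho_one] at e0
    rw [rho_three ν (j := 1 + 1) (by norm_num), rho_three ν (j := 1) (by norm_num)] at e1
    rw [rho_three ν (j := 2 + 1) (by norm_num), rho_three ν (j := 2) (by norm_num)] at e2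
    rw [rho_three ν (j := 3) (by norm_num)] at e3
    simp only [sum_range_succ, range_zero, sum_empty, pow_zero, hh_one]
    rw [chi_three] at e0 e1 e2 e3
    norm_num at e0 e1 e2 e3 ⊢
    rw [e0, e1, e2, e3]
    split_ifs with h1 h2 h3 h3 h2 h3 h3 <;> first | (exfalso; omega) | norm_num

end Pool.Agent.MP_b9bf0c_nt
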