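import Pool.Agent.MP_b9bf0c_nt.LS
import Pool.Agent.MP_b9bf0c_nt.Local

/-!
Odd integers as x^2 + 2 y^2 + 3 z^2 with x + y + z a square: the mollifier.
-/

set_option autoImplicit false

open Finset Complex
open scoped Real ArithmeticFunction.Moebius

noncomputable section

namespace Pool.Agent.MP_b9bf0c_nt

open Pool.Agent.MP_2a1f0e_nt (ex)
open Pool.Agent.MP_c903c4_nt (Red cc)

namespace Moll

theorem sqf_of_uu {ν e : ℕ} (h : uu ν e ≠ 0) : Squarefree e ∧ ¬ 3 ∣ e ∧ hh ν e ≠ 0 := by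
  unfold uu at h
  split_ifs at h with h3
  · exact absurd rfl h
  · refine ⟨ArithmeticFunction.moebius_ne_zero_iff_squarefree.1 fun h0 => h ?_, h3, fun h0 => h ?_⟩
    · rw [h0, Int.cast_zero, zero_mul]
    · rw [h0, mul_zero]

theorem abs_uu {ν e : ℕ} (h : uu ν e ≠ 0) : |uu ν e| = |hh ν e| := by
  obtain ⟨h1, h2, _⟩ := sqf_of_uu h
  have h4 : |(μ e : ℝ)| = 1 := by
    exact_mod_cast ArithmeticFunction.abs_moebius_eq_one_of_squarefree h1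
  rw [uu, if_neg h2, abs_mul, h4, one_mul]

theorem good_of_uu {ν p : ℕ} (hν : Free ν) (hp : p.Prime) (h : uu ν p ≠ 0) :
    ¬ p ∣ 66 * (2 * ν + 1) := by
  obtain ⟨_, h2, h3⟩ := sqf_of_uu h
  have h66 : ¬ p ∣ 66 := by
    intro h1
    have h5 : p ∣ 2 * 3 * 11 := h1
    rcases (Nat.Prime.dvd_mul hp).1 h5 with h6 | h6
    · rcases (Nat.Prime.dvd_mul hp).1 h6 with h7 | h7
      · have := hh_bad ν (Or.inl ((Nat.prime_dvd_prime_iff_eq hp Nat.prime_two).1 h7)) 0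
        exact h3 (by simpa using this)
      · exact h2 ((Nat.prime_dvd_prime_iff_eq hp Nat.prime_three).1 h7 ▸ dvd_rfl)
    · have := hh_bad ν (Or.inr ((Nat.prime_dvd_prime_iff_eq hp (by norm_num)).1 h6)) 0
      exact h3 (by simpa using this)
  intro h1
  rcases (Nat.Prime.dvd_mul hp).1 h1 with h6 | h6
  · exact h66 h6
  · exact h3 (hh_dvd hν hp h66 h6).1

theorem abs_uu_le {ν : ℕ} (hν : Free ν) (e : ℕ) : |uu ν e| ≤ (e.divisors.card : ℝ) ^ 2 / e := by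
  induction e using Nat.recOnPosPrimePosCoprime with
  | prime_pow p k hp hk =>
    by_cases h : uu ν (p ^ k) = 0
    · rw [h, abs_zero]
      positivity
    · obtain rfl : k = 1 := ((Nat.squarefree_pow_iff hp.ne_one hk.ne').1 (sqf_of_uu h).1).2
      rw [pow_one] at h ⊢
      rw [abs_uu h, hp.divisors, card_pair hp.ne_one.symm]
      refine (hh_good hp (good_of_uu hν hp h)).1.trans ?_
      gcongr
      norm_num
  | zero => simp [uu]
  | one => simp [uu_one]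
  | coprime a b _ _ hab iha ihb =>
    rw [uu_mul ν hab, abs_mul, hab.card_divisors_mul]
    push_cast
    rw [mul_pow, mul_div_mul_comm]
    exact mul_le_mul iha ihb (abs_nonneg _) (by positivity)

/-- The weight of the common divisor. -/
def wt (ν g : ℕ) : ℝ := hh ν g * uu ν g

theorem abs_wt_le {τ : ℝ} {ν g : ℕ} (hν : Free ν) (hτ : (g.divisors.card : ℝ) ≤ τ) :
    |wt ν g| ≤ τ ^ 4 / (g : ℝ) ^ 2 := by
  have h0 : (0 : ℝ) ≤ g.divisors.card := Nat.cast_nonneg _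
  have h1 : |uu ν g| ≤ τ ^ 2 / g := (abs_uu_le hν g).trans (by gcongr)
  by_cases h : uu ν g = 0
  · rw [wt, h, mul_zero, abs_zero]
    positivity
  · rw [wt, abs_mul, ← abs_uu h]
    calc |uu ν g| * |uu ν g| ≤ τ ^ 2 / g * (τ ^ 2 / g) :=
          mul_le_mul h1 h1 (abs_nonneg _) (by positivity)
      _ = τ ^ 4 / (g : ℝ) ^ 2 := by ring

/-- The sign attached to a factorisation. -/
def sg (g q e : ℕ) : ℝ := if g.Coprime q ∧ g.Coprime e ∧ ¬ 3 ∣ e then (μ e : ℝ) else 0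

theorem abs_sg_le (g q e : ℕ) : |sg g q e| ≤ 1 := by
  unfold sg
  split_ifs
  · exact_mod_cast ArithmeticFunction.abs_moebius_le_one
  · simp

theorem term_eq {ν g q e : ℕ} (hν : Free ν) (hg : g ≠ 0) (hq : q ≠ 0) (hqe : q.Coprime e) :
    hh ν (g * q) * uu ν (g * e) = wt ν g * (sg g q e * hh ν (q * e)) := by
  by_cases h : g.Coprime q ∧ g.Coprime e
  · rw [hh_mul ν h.1, uu_mul ν h.2, hh_mul ν hqe, wt, sg, show uu ν e =
      if 3 ∣ e then 0 else (μ e : ℝ) * hh ν e from rfl]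
    by_cases h3 : 3 ∣ e
    · rw [if_pos h3, if_neg fun h4 => h4.2.2 h3]
      ring
    · rw [if_neg h3, if_pos ⟨h.1, h.2, h3⟩]
      ring
  · rw [sg, if_neg fun h4 => h ⟨h4.1, h4.2.1⟩, zero_mul, mul_zero]
    by_contra h1
    have h2 : uu ν (g * e) ≠ 0 := right_ne_zero_of_mul h1
    have h3 : hh ν (g * q) ≠ 0 := left_ne_zero_of_mul h1
    have hs := (sqf_of_uu h2).1
    have h4 : g.Coprime e := (Nat.squarefree_mul_iff.1 hs).1
    have h5 : ¬ g.Coprime q := fun h5 => h ⟨h5, h4⟩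
    obtain ⟨p, hp, hpg, hpq⟩ := Nat.Prime.not_coprime_iff_dvd.1 h5
    obtain ⟨c, hc⟩ : p ∣ g * e := hpg.mul_right e
    rw [hc] at hs h2
    rw [uu_mul ν (Nat.squarefree_mul_iff.1 hs).1] at h2
    have h6 := (hh_good hp (good_of_uu hν hp (left_ne_zero_of_mul h2))).2
    obtain ⟨j, m, hm, hjm⟩ := Nat.exists_eq_pow_mul_and_not_dvd (mul_ne_zero hg hq) p hp.ne_one
    have hcop : (p ^ j).Coprime m := ((Nat.Prime.coprime_iff_not_dvd hp).2 hm).pow_left j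
    have h7 : p ^ 2 ∣ p ^ j * m := by
      rw [← hjm, sq]
      exact mul_dvd_mul hpg hpq
    have h8 : p ^ 2 ∣ p ^ j :=
      (((Nat.Prime.coprime_iff_not_dvd hp).2 hm).pow_left 2).dvd_of_dvd_mul_right h7
    rw [hjm, hh_mul ν hcop, h6 j ((Nat.pow_dvd_pow_iff_le_right hp.one_lt).1 h8), zero_mul] at h3
    exact h3 rfl

/-- The pairs with a large product. -/
def PR (D : ℕ) : Finset (ℕ × ℕ) := (Ioc 0 D ×ˢ Ioc 0 D).filter fun x => D < x.1 * x.2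

/-- The pairs with given greatest common divisor and given reduced product. -/
def FB (D g l : ℕ) : Finset (ℕ × ℕ) :=
  ((PR D).filter fun x => x.1.gcd x.2 = g).filter fun x => x.1 / g * (x.2 / g) = l

/-- The coefficients of the inner sums. -/
def cf (D g l : ℕ) : ℝ := ∑ x ∈ FB D g l, sg g (x.1 / g) (x.2 / g)

theorem RR_pairs (D ν : ℕ) : RR D ν = ∑ x ∈ PR D, hh ν x.1 * uu ν x.2 := by
  have h1 : ∑ l ∈ Ioc 0 D, kk ν l =
      ∑ x ∈ Ioc 0 D ×ˢ Ioc 0 D with x.1 * x.2 ≤ D, hh ν x.1 * uu ν x.2 := by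
    trans ∑ n ∈ Ioc 0 D, ∑ x ∈ Ioc 0 D ×ˢ Ioc 0 D with x.1 * x.2 = n, hh ν x.1 * uu ν x.2
    · refine sum_congr rfl fun n hn => ?_
      rw [mem_Ioc] at hn
      rw [kk, Nat.divisorsAntidiagonal_eq_prod_filter_of_le hn.1.ne' hn.2]
    · simp_rw [sum_filter]
      rw [sum_comm]
      exact sum_congr rfl fun _ _ => (by simp_all)
  rw [RR, HH, Mo, sum_mul_sum, ← sum_product', h1,
    ← sum_filter_add_sum_filter_not _ fun x : ℕ × ℕ => x.1 * x.2 ≤ D, add_sub_cancel_left]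
  simp only [PR, not_le]

theorem mem_PR {D : ℕ} {x : ℕ × ℕ} (h : x ∈ PR D) :
    0 < x.1 ∧ x.1 ≤ D ∧ 0 < x.2 ∧ x.2 ≤ D ∧ D < x.1 * x.2 := by
  simp only [PR, mem_filter, mem_product, mem_Ioc] at h
  exact ⟨h.1.1.1, h.1.1.2, h.1.2.1, h.1.2.2, h.2⟩

theorem RR_eq {ν : ℕ} (hν : Free ν) (D : ℕ) :
    RR D ν = ∑ g ∈ Ioc 0 D, wt ν g * ∑ l ∈ Ioc 0 (D ^ 2), cf D g l * hh ν l := by
  rw [RR_pairs, ← sum_fiberwise_of_maps_to (g := fun x : ℕ × ℕ => x.1.gcd x.2) (t := Ioc 0 D)]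
  · refine sum_congr rfl fun g hg => ?_
    have hg0 : 0 < g := (mem_Ioc.1 hg).1
    rw [← sum_fiberwise_of_maps_to (g := fun x : ℕ × ℕ => x.1 / g * (x.2 / g)) (t := Ioc 0 (D ^ 2)),
      mul_sum]
    · refine sum_congr rfl fun l _ => ?_
      rw [cf, sum_mul, mul_sum]
      refine sum_congr rfl fun x hx => ?_
      obtain ⟨hx1, rfl⟩ := mem_filter.1 hx
      obtain ⟨hx2, hx3⟩ := mem_filter.1 hx1
      obtain ⟨h1, -⟩ := mem_PR hx2
      have d1 : g ∣ x.1 := hx3 ▸ Nat.gcd_dvd_left _ _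
      have d2 : g ∣ x.2 := hx3 ▸ Nat.gcd_dvd_right _ _
      have hc : (x.1 / g).Coprime (x.2 / g) := hx3 ▸ Nat.coprime_div_gcd_div_gcd (hx3 ▸ hg0)
      rw [← term_eq hν hg0.ne' (Nat.div_pos (Nat.le_of_dvd h1 d1) hg0).ne' hc,
        Nat.mul_div_cancel' d1, Nat.mul_div_cancel' d2]
    · intro x hx
      obtain ⟨hx2, hx3⟩ := mem_filter.1 hx
      obtain ⟨h1, h2, h3, h4, -⟩ := mem_PR hx2
      have d1 : g ∣ x.1 := hx3 ▸ Nat.gcd_dvd_left _ _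
      have d2 : g ∣ x.2 := hx3 ▸ Nat.gcd_dvd_right _ _
      refine mem_Ioc.2 ⟨Nat.mul_pos (Nat.div_pos (Nat.le_of_dvd h1 d1) hg0)
        (Nat.div_pos (Nat.le_of_dvd h3 d2) hg0), ?_⟩
      rw [sq]
      exact Nat.mul_le_mul ((Nat.div_le_self _ _).trans h2) ((Nat.div_le_self _ _).trans h4)
  · intro x hx
    obtain ⟨h1, h2, -⟩ := mem_PR hx
    exact mem_Ioc.2 ⟨Nat.gcd_pos_of_pos_left _ h1, (Nat.gcd_le_left _ h1).trans h2⟩

theorem mem_FB {D g l : ℕ} {x : ℕ × ℕ} (h : x ∈ FB D g l) :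
    g * (x.1 / g) = x.1 ∧ g * (x.2 / g) = x.2 ∧ x.1 / g * (x.2 / g) = l ∧ D < x.1 * x.2 := by
  obtain ⟨hx1, h1⟩ := mem_filter.1 h
  obtain ⟨hx2, hx3⟩ := mem_filter.1 hx1
  exact ⟨Nat.mul_div_cancel' (hx3 ▸ Nat.gcd_dvd_left _ _),
    Nat.mul_div_cancel' (hx3 ▸ Nat.gcd_dvd_right _ _), h1, (mem_PR hx2).2.2.2.2⟩

theorem abs_cf_le (D g : ℕ) {l : ℕ} (hl : l ≠ 0) : |cf D g l| ≤ (l.divisors.card : ℝ) := by
  refine (abs_sum_le_sum_abs _ _).trans ((sum_le_card_nsmul _ _ 1 fun x _ => abs_sg_le _ _ _).trans ?_)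
  rw [nsmul_eq_mul, mul_one, Nat.cast_le]
  refine card_le_card_of_injOn (fun x => x.1 / g) (fun x hx => ?_) fun x hx y hy hxy => ?_
  · exact mem_coe.2 (Nat.mem_divisors.2 ⟨⟨_, (mem_FB (mem_coe.1 hx)).2.2.1.symm⟩, hl⟩)
  · obtain ⟨a1, a2, a3, -⟩ := mem_FB (mem_coe.1 hx)
    obtain ⟨b1, b2, b3, -⟩ := mem_FB (mem_coe.1 hy)
    have h1 : x.1 / g = y.1 / g := hxy
    have h2 : x.2 / g = y.2 / g := by
      refine Nat.eq_of_mul_eq_mul_left (Nat.pos_of_ne_zero (left_ne_zero_of_mul (a3 ▸ hl))) ?_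
      rw [a3, h1, b3]
    exact Prod.ext (by rw [← a1, h1, b1]) (by rw [← a2, h2, b2])

theorem cf_zero {D g l : ℕ} (hg : 0 < g) (h : (l : ℝ) ≤ D / (g : ℝ) ^ 2) : cf D g l = 0 := by
  refine sum_eq_zero fun x hx => ?_
  obtain ⟨a1, a2, a3, a4⟩ := mem_FB hx
  have h1 : (0 : ℝ) < g := by exact_mod_cast hg
  rw [le_div_iff₀ (by positivity)] at h
  have h2 : l * g ^ 2 ≤ D := by exact_mod_cast h
  have h3 : x.1 * x.2 = l * g ^ 2 := by
    rw [← a3]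
    nth_rewrite 1 [← a1, ← a2]
    ring
  omega

end Moll

open Moll

theorem abs_Mo_le {τ : ℝ} {ν D : ℕ} (hν : Free ν) (hτ : Dv τ D) (hD : 1 ≤ D) :
    |Mo D ν| ≤ τ ^ 2 * (1 + Real.log D) := by
  have h0 := hτ.one_le hD
  refine (abs_sum_le_sum_abs _ _).trans ?_
  calc ∑ e ∈ Ioc 0 D, |uu ν e| ≤ ∑ e ∈ Ioc 0 D, τ ^ 2 * (1 / (e : ℝ)) := by
        refine sum_le_sum fun e he => (abs_uu_le hν e).trans ?_
        have h1 := hτ e (mem_Ioc.1 he).1.ne' (mem_Ioc.1 he).2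
        rw [mul_one_div]
        gcongr
    _ ≤ _ := by
        rw [← mul_sum]
        exact mul_le_mul_of_nonneg_left (LS.harm' 0 D) (by positivity)

theorem RR_sq {τ : ℝ} {D N : ℕ} (hτ : Dv τ (33 ^ 4 * D ^ 8)) (hD : 1 ≤ D) (hN : 1 ≤ N)
    (E : Finset ℕ) (hE : ∀ ν ∈ E, Free ν ∧ 0 < ν ∧ ν ≤ N) :
    ∑ ν ∈ E, RR D ν ^ 2 ≤ 200 * (2 * N + (D : ℝ) ^ 4) * τ ^ 11 * (1 + Real.log D) ^ 3 / D := by
  have hD2 : D ^ 2 ≤ 33 ^ 4 * D ^ 8 :=
    (Nat.pow_le_pow_right hD (by norm_num)).trans (Nat.le_mul_of_pos_left _ (by norm_num))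
  have hD1 : D ≤ D ^ 2 := Nat.le_self_pow (by norm_num) D
  have h1 : 1 ≤ τ := (hτ.mono hD2).one_le (hD.trans hD1)
  have hDr : (1 : ℝ) ≤ D := by exact_mod_cast hD
  have hlog : 0 ≤ Real.log D := Real.log_nonneg hDr
  set X : ℕ → ℕ → ℝ := fun g ν => ∑ l ∈ Ioc 0 (D ^ 2), cf D g l * hh ν l with hX
  set K : ℝ := 144 * (2 * N + (D : ℝ) ^ 4) * τ ^ 3 * (1 + Real.log D) / D with hK
  have hK0 : 0 ≤ K := by positivity
  have a1 : ∀ ν ∈ E, RR D ν ^ 2 ≤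
      (1 + Real.log D) * ∑ g ∈ Ioc 0 D, τ ^ 8 / (g : ℝ) ^ 3 * X g ν ^ 2 := by
    intro ν hν
    rw [RR_eq (hE ν hν).1]
    refine (sum_sq_le_sum_mul_sum_of_sq_le_mul (f := fun g : ℕ => 1 / (g : ℝ))
      (g := fun g : ℕ => τ ^ 8 / (g : ℝ) ^ 3 * X g ν ^ 2) _ (fun g _ => by positivity)
      (fun g _ => by positivity) fun g hg => ?_).trans ?_
    · have hg0 : (0 : ℝ) < g := by exact_mod_cast (mem_Ioc.1 hg).1
      have h2 := abs_wt_le (hE ν hν).1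
        (hτ g (mem_Ioc.1 hg).1.ne' ((mem_Ioc.1 hg).2.trans (hD1.trans hD2)))
      have h3 : wt ν g ^ 2 ≤ (τ ^ 4 / (g : ℝ) ^ 2) ^ 2 := by
        rw [← sq_abs]
        exact pow_le_pow_left₀ (abs_nonneg _) h2 2
      calc (wt ν g * X g ν) ^ 2 = wt ν g ^ 2 * X g ν ^ 2 := mul_pow _ _ _
        _ ≤ (τ ^ 4 / (g : ℝ) ^ 2) ^ 2 * X g ν ^ 2 := by gcongr
        _ = _ := by field_simp
    · exact mul_le_mul_of_nonneg_right (LS.harm' 0 D) (sum_nonneg fun g _ => by positivity)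
  have a2 : ∀ g ∈ Ioc 0 D, ∑ ν ∈ E, X g ν ^ 2 ≤ K * (g : ℝ) ^ 2 := by
    intro g hg
    have hg0 : (0 : ℝ) < g := by exact_mod_cast (mem_Ioc.1 hg).1
    have h2 := hh_ls (τ := τ) (σ := τ) (R := D / (g : ℝ) ^ 2) (L := D ^ 2) (N := N)
      (by rwa [← pow_mul]) (hD.trans hD1) hN (by positivity) (cf D g)
      (fun l hl => (abs_cf_le D g (mem_Ioc.1 hl).1.ne').trans
        (hτ l (mem_Ioc.1 hl).1.ne' ((mem_Ioc.1 hl).2.trans hD2)))
      fun l hl => cf_zero (mem_Ioc.1 hg).1 hl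
    refine (sum_le_sum_of_subset_of_nonneg (fun ν hν => mem_Ioc.2 (hE ν hν).2)
      fun _ _ _ => sq_nonneg _).trans (h2.trans ?_)
    push_cast
    rw [Real.log_pow, hK]
    calc _ ≤ 72 * (2 * N + ((D : ℝ) ^ 2) ^ 2) * τ ^ 2 * τ * (2 * (1 + Real.log D)) /
          (D / (g : ℝ) ^ 2) := by
          gcongr
          push_cast
          linarith
      _ = _ := by
          field_simp
          ring
  calc ∑ ν ∈ E, RR D ν ^ 2
      ≤ ∑ ν ∈ E, (1 + Real.log D) * ∑ g ∈ Ioc 0 D, τ ^ 8 / (g : ℝ) ^ 3 * X g ν ^ 2 := sum_le_sum a1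
    _ = (1 + Real.log D) * ∑ g ∈ Ioc 0 D, τ ^ 8 / (g : ℝ) ^ 3 * ∑ ν ∈ E, X g ν ^ 2 := by
        rw [← mul_sum, sum_comm]
        simp only [mul_sum]
    _ ≤ (1 + Real.log D) * ∑ g ∈ Ioc 0 D, τ ^ 8 * K * (1 / (g : ℝ)) := by
        refine mul_le_mul_of_nonneg_left (sum_le_sum fun g hg => ?_) (by positivity)
        have hg0 : (0 : ℝ) < g := by exact_mod_cast (mem_Ioc.1 hg).1
        calc _ ≤ τ ^ 8 / (g : ℝ) ^ 3 * (K * (g : ℝ) ^ 2) :=
              mul_le_mul_of_nonneg_left (a2 g hg) (by positivity)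
          _ = _ := by field_simp
    _ ≤ (1 + Real.log D) * (τ ^ 8 * K * (1 + Real.log D)) := by
        rw [← mul_sum]
        have := LS.harm' 0 D
        gcongr
    _ = 144 * ((2 * N + (D : ℝ) ^ 4) * τ ^ 11 * (1 + Real.log D) ^ 3 / D) := by
        rw [hK]
        ring
    _ ≤ 200 * ((2 * N + (D : ℝ) ^ 4) * τ ^ 11 * (1 + Real.log D) ^ 3 / D) := by
        gcongr
        norm_num
    _ = _ := by ring

end Pool.Agent.MP_b9bf0c_nt
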