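import Pool.Agent.MP_b9bf0c_nt.Bessel
import Pool.Agent.MP_b9bf0c_nt.Euler
import Pool.Agent.MP_b9bf0c_nt.Moll

/-!
Odd integers as x^2 + 2 y^2 + 3 z^2 with x + y + z a square: the exceptional set in one block.
-/

set_option autoImplicit false

open Finset Complex
open scoped Real ArithmeticFunction.Moebius

noncomputable section

namespace Pool.Agent.MP_b9bf0c_nt

open Pool.Agent.MP_2a1f0e_nt (ex)
open Pool.Agent.MP_c903c4_nt (Red cc)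

namespace Core

theorem sum_HH : ∃ C : ℝ, 0 < C ∧ ∀ (T : ℕ) (Λ : ℝ) (E : Finset ℕ), 1 ≤ T →
    Dv Λ (33 ^ 5 * T ^ 8) → 1 + Real.log (4356 * T ^ 2 : ℕ) ≤ Λ →
    (∀ ν ∈ E, ν ∈ Ioc (33 ^ 4 * T ^ 4) (16 * (33 ^ 4 * T ^ 4)) ∧ ¬ Rp ν) →
    ∑ ν ∈ E, HH T ν ^ 2 ≤ C * Λ ^ 2 * (T : ℝ) ^ 3 := by
  obtain ⟨Cb, hCb, hb⟩ := bessel
  refine ⟨(2 * Cb + 6000) * 4356 ^ 2, by positivity, fun T Λ E hT hτ hL hE => ?_⟩
  set M : ℕ := 4356 * T ^ 2 with hM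
  have hT2 : T ≤ T ^ 2 := by nlinarith
  have hT' : (1 : ℝ) ≤ T := by exact_mod_cast hT
  have hN : M ^ 2 = 16 * (33 ^ 4 * T ^ 4) := by rw [hM]; ring
  have hΛ : 1 ≤ Λ := hτ.one_le (Nat.one_le_iff_ne_zero.2 (by positivity))
  have hM1 : (1 : ℝ) ≤ M := by exact_mod_cast (by omega : 1 ≤ M)
  have hl0 : 0 ≤ 1 + Real.log M := by have := Real.log_nonneg hM1; linarith
  have h1 := hb M T E (by omega) fun ν hν => by
    obtain ⟨h, h'⟩ := hE ν hν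
    rw [mem_Ioc] at h
    refine ⟨h', hN ▸ h.2, fun s hs => (PP_le hs).trans ?_⟩
    exact_mod_cast h.1.le
  have hQ : T ≤ M / 2 := by omega
  have hQ1 : (1 : ℝ) ≤ (M / 2 : ℕ) := by exact_mod_cast hT.trans hQ
  have hQM : ((M / 2 : ℕ) : ℝ) ≤ M := by exact_mod_cast Nat.div_le_self M 2
  have h2 := JJ_approx (τ := Λ) (T := T) (Q := M / 2) (N := M ^ 2)
    (hτ.mono (Nat.mul_le_mul (by norm_num) (Nat.pow_le_pow_right hT (by norm_num)))) hT hQ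
    (Nat.one_le_iff_ne_zero.2 (by positivity))
  have h3 : ∑ ν ∈ E, ‖JJ (M / 2) T ν - (T : ℂ) * (HH T ν : ℂ)‖ ^ 2 ≤
      3000 * (M : ℝ) ^ 2 * Λ ^ 2 * T := by
    refine (sum_le_sum_of_subset_of_nonneg (fun ν hν => ?_) fun _ _ _ => by positivity).trans
      (h2.trans ?_)
    · have := mem_Ioc.1 (hE ν hν).1
      exact mem_Ioc.2 ⟨by omega, by omega⟩
    · have h4 : 1 + Real.log (M / 2 : ℕ) ≤ Λ :=
        le_trans (by have := Real.log_le_log (by linarith) hQM; linarith) hL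
      have h5 : ((M / 2 : ℕ) : ℝ) ^ 2 ≤ (M : ℝ) ^ 2 := by gcongr
      have h6 : 0 ≤ 1 + Real.log (M / 2 : ℕ) := by have := Real.log_nonneg hQ1; linarith
      calc _ ≤ 1000 * (2 * (M : ℝ) ^ 2 + (M : ℝ) ^ 2) * Λ * T * Λ := by
            push_cast
            gcongr
        _ = _ := by ring
  have h4 : ∑ ν ∈ E, ‖JJ (M / 2) T ν‖ ^ 2 ≤ Cb * (M : ℝ) ^ 2 * Λ ^ 2 * T :=
    h1.trans (by gcongr)
  have h5 : (T : ℝ) ^ 2 * ∑ ν ∈ E, HH T ν ^ 2 ≤ 2 * ∑ ν ∈ E, ‖JJ (M / 2) T ν‖ ^ 2 +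
      2 * ∑ ν ∈ E, ‖JJ (M / 2) T ν - (T : ℂ) * (HH T ν : ℂ)‖ ^ 2 := by
    rw [mul_sum, mul_sum, mul_sum, ← sum_add_distrib]
    refine sum_le_sum fun ν _ => ?_
    have h6 := norm_sub_le (JJ (M / 2) T ν) (JJ (M / 2) T ν - (T : ℂ) * (HH T ν : ℂ))
    rw [sub_sub_cancel, norm_mul, Complex.norm_natCast, Complex.norm_real, Real.norm_eq_abs] at h6
    have h7 : ((T : ℝ) * |HH T ν|) ^ 2 ≤ _ := pow_le_pow_left₀ (by positivity) h6 2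
    rw [mul_pow, sq_abs] at h7
    nlinarith [sq_nonneg (‖JJ (M / 2) T ν‖ - ‖JJ (M / 2) T ν - (T : ℂ) * (HH T ν : ℂ)‖)]
  refine le_of_mul_le_mul_left (h5.trans ?_) (by positivity : (0 : ℝ) < (T : ℝ) ^ 2)
  have hM' : (M : ℝ) = 4356 * (T : ℝ) ^ 2 := by rw [hM]; push_cast; ring
  calc _ ≤ 2 * (Cb * (M : ℝ) ^ 2 * Λ ^ 2 * T) + 2 * (3000 * (M : ℝ) ^ 2 * Λ ^ 2 * T) := by gcongr
    _ = _ := by rw [hM']; ring

theorem aux : ∃ C : ℝ, 0 < C ∧ ∀ (T : ℕ) (Λ : ℝ) (E : Finset ℕ), 1 ≤ T →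
    Dv Λ (33 ^ 5 * T ^ 8) → 1 + Real.log (4356 * T ^ 2 : ℕ) ≤ Λ →
    (∀ ν ∈ E, ν ∈ Ioc (33 ^ 4 * T ^ 4) (16 * (33 ^ 4 * T ^ 4)) ∧ Free ν ∧ ¬ Rp ν) →
    (E.card : ℝ) ≤ C * Λ ^ 48 * (T : ℝ) ^ 3 := by
  obtain ⟨C₁, hC₁, h1⟩ := sum_HH
  obtain ⟨c, C₂, hc, hC₂, h2⟩ := kk_lower
  refine ⟨16 * 33 ^ 4 * (2 * C₂ / c) ^ 8 + 8 / c ^ 2 * (C₁ + 200 * (32 * 33 ^ 4 + 1)),
    by positivity, fun T Λ E hT hτ hL hE => ?_⟩
  have hT' : (1 : ℝ) ≤ T := by exact_mod_cast hT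
  have hΛ : 1 ≤ Λ := hτ.one_le (Nat.one_le_iff_ne_zero.2 (by positivity))
  have h48 : T ^ 4 ≤ T ^ 8 := Nat.pow_le_pow_right hT (by norm_num)
  have h14 : 1 ≤ T ^ 4 := Nat.one_le_pow _ _ hT
  by_cases hs : c * (T : ℝ) ^ (1 / 8 : ℝ) ≤ 2 * C₂ * Λ ^ 6
  · have h3 : (T : ℝ) ≤ (2 * C₂ / c) ^ 8 * Λ ^ 48 := by
      have h4 : (T : ℝ) ^ (1 / 8 : ℝ) ≤ 2 * C₂ / c * Λ ^ 6 := by
        rw [div_mul_eq_mul_div, le_div_iff₀ hc]
        linarith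
      have h5 := pow_le_pow_left₀ (by positivity) h4 8
      rw [← Real.rpow_natCast, ← Real.rpow_mul (by positivity)] at h5
      norm_num at h5
      refine h5.trans_eq ?_
      ring
    have h4 : E.card ≤ 16 * (33 ^ 4 * T ^ 4) := by
      refine (card_le_card fun ν hν => (hE ν hν).1).trans ?_
      rw [Nat.card_Ioc]
      omega
    have h5 : (E.card : ℝ) ≤ 16 * 33 ^ 4 * T * (T : ℝ) ^ 3 := by
      have h6 : (E.card : ℝ) ≤ 16 * (33 ^ 4 * (T : ℝ) ^ 4) := by exact_mod_cast h4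
      refine h6.trans_eq ?_
      ring
    calc _ ≤ 16 * 33 ^ 4 * ((2 * C₂ / c) ^ 8 * Λ ^ 48) * (T : ℝ) ^ 3 := h5.trans (by gcongr)
      _ = 16 * 33 ^ 4 * (2 * C₂ / c) ^ 8 * Λ ^ 48 * (T : ℝ) ^ 3 := by ring
      _ ≤ _ := by gcongr; exact le_add_of_nonneg_right (by positivity)
  push Not at hs
  have hlT : 1 + Real.log T ≤ Λ := by
    refine le_trans ?_ hL
    have : (T : ℝ) ≤ (4356 * T ^ 2 : ℕ) := by exact_mod_cast (by nlinarith : T ≤ 4356 * T ^ 2)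
    have := Real.log_le_log (by linarith) this
    linarith
  have hl0 : 0 ≤ 1 + Real.log T := by have := Real.log_nonneg hT'; linarith
  have h3 : ∀ ν ∈ E, c ^ 2 / (8 * Λ ^ 4) ≤ Λ ^ 6 * HH T ν ^ 2 + RR T ν ^ 2 := by
    intro ν hν
    obtain ⟨a1, a2, -⟩ := hE ν hν
    rw [mem_Ioc] at a1
    have b1 := h2 Λ ν T a2 (hτ.mono (by omega)) hT
    have b2 := abs_Mo_le (τ := Λ) a2 (hτ.mono (by
      have : T ≤ T ^ 8 := Nat.le_self_pow (by norm_num) T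
      omega)) hT
    have b3 : |Mo T ν| ≤ Λ ^ 3 := b2.trans (by rw [pow_succ Λ 2]; gcongr)
    have b4 : C₂ * Λ ^ 4 / (T : ℝ) ^ (1 / 8 : ℝ) ≤ c / (2 * Λ ^ 2) := by
      rw [div_le_div_iff₀ (by positivity) (by positivity)]
      nlinarith
    have b5 : c / (2 * Λ ^ 2) ≤ Λ ^ 3 * |HH T ν| + |RR T ν| := by
      have e : c / Λ ^ 2 = c / (2 * Λ ^ 2) + c / (2 * Λ ^ 2) := by field_simp; ring
      have b6 : HH T ν * Mo T ν ≤ Λ ^ 3 * |HH T ν| := by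
        refine (le_abs_self _).trans ?_
        rw [abs_mul, mul_comm]
        gcongr
      have b7 := neg_le_abs (RR T ν)
      have b8 : RR T ν = HH T ν * Mo T ν - ∑ l ∈ Ioc 0 T, kk ν l := rfl
      linarith
    have b6 := pow_le_pow_left₀ (by positivity) b5 2
    have e : c ^ 2 / (8 * Λ ^ 4) = (c / (2 * Λ ^ 2)) ^ 2 / 2 := by field_simp; ring
    rw [e, ← sq_abs (HH T ν), ← sq_abs (RR T ν)]
    nlinarith [sq_nonneg (Λ ^ 3 * |HH T ν| - |RR T ν|)]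
  have h4 := h1 T Λ E hT hτ hL fun ν hν => ⟨(hE ν hν).1, (hE ν hν).2.2⟩
  have h5 := RR_sq (τ := Λ) (D := T) (N := 16 * (33 ^ 4 * T ^ 4)) (hτ.mono (by omega)) hT
    (by omega) E fun ν hν => by
      have := mem_Ioc.1 (hE ν hν).1
      exact ⟨(hE ν hν).2.1, by omega, this.2⟩
  have h6 : ∑ ν ∈ E, RR T ν ^ 2 ≤ 200 * (32 * 33 ^ 4 + 1) * Λ ^ 14 * (T : ℝ) ^ 3 := by
    refine h5.trans ?_
    rw [div_le_iff₀ (by positivity)]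
    calc _ ≤ 200 * (2 * ((16 * (33 ^ 4 * T ^ 4) : ℕ) : ℝ) + (T : ℝ) ^ 4) * Λ ^ 11 * Λ ^ 3 := by
          gcongr
      _ = _ := by push_cast; ring
  have h7 := card_nsmul_le_sum E _ _ h3
  rw [sum_add_distrib, ← mul_sum, nsmul_eq_mul, ← le_div_iff₀ (by positivity)] at h7
  have h8 : Λ ^ 12 ≤ Λ ^ 48 := pow_le_pow_right₀ hΛ (by norm_num)
  have h9 : Λ ^ 18 ≤ Λ ^ 48 := pow_le_pow_right₀ hΛ (by norm_num)
  calc _ ≤ (Λ ^ 6 * (C₁ * Λ ^ 2 * (T : ℝ) ^ 3) +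
        200 * (32 * 33 ^ 4 + 1) * Λ ^ 14 * (T : ℝ) ^ 3) / (c ^ 2 / (8 * Λ ^ 4)) :=
        h7.trans (by gcongr)
    _ = 8 / c ^ 2 * (C₁ * Λ ^ 12 + 200 * (32 * 33 ^ 4 + 1) * Λ ^ 18) * (T : ℝ) ^ 3 := by
        field_simp
    _ ≤ 8 / c ^ 2 * (C₁ * Λ ^ 48 + 200 * (32 * 33 ^ 4 + 1) * Λ ^ 48) * (T : ℝ) ^ 3 := by gcongr
    _ = 8 / c ^ 2 * (C₁ + 200 * (32 * 33 ^ 4 + 1)) * Λ ^ 48 * (T : ℝ) ^ 3 := by ring
    _ ≤ _ := by gcongr; exact le_add_of_nonneg_left (by positivity)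

end Core

open Classical in
theorem core {ε : ℝ} (hε : 0 < ε) : ∃ C : ℝ, 0 < C ∧ ∀ T : ℕ, 1 ≤ T →
    (((Ioc (33 ^ 4 * T ^ 4) (16 * (33 ^ 4 * T ^ 4))).filter fun ν : ℕ => Free ν ∧ ¬ Rp ν).card : ℝ) ≤
      C * (T : ℝ) ^ (3 + ε) := by
  obtain ⟨C, hC, h⟩ := Core.aux
  have hδ : 0 < ε / 384 := by positivity
  obtain ⟨Cd, hCd, hd⟩ := Pool.Agent.MP_2a1f0e_nt.divisor_bound hδ
  obtain ⟨A, hA0, hA1, hA2⟩ : ∃ A : ℝ, 0 < A ∧ Cd * (33 ^ 5 : ℝ) ^ (ε / 384) ≤ A ∧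
      4357 + 96 / ε ≤ A := ⟨Cd * (33 ^ 5 : ℝ) ^ (ε / 384) + (4357 + 96 / ε), by positivity,
    le_add_of_nonneg_right (by positivity), le_add_of_nonneg_left (by positivity)⟩
  refine ⟨C * A ^ 48, by positivity, fun T hT => ?_⟩
  have hT' : (1 : ℝ) ≤ T := by exact_mod_cast hT
  have h1 : (1 : ℝ) ≤ (T : ℝ) ^ (ε / 48) := Real.one_le_rpow hT' (by positivity)
  refine (h T (A * (T : ℝ) ^ (ε / 48)) _ hT (fun m h0 hm => (hd m).trans ?_) ?_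
    fun ν hν => mem_filter.1 hν).trans (le_of_eq ?_)
  · have h2 : (m : ℝ) ^ (ε / 384) ≤ (33 ^ 5 : ℝ) ^ (ε / 384) * (T : ℝ) ^ (ε / 48) := by
      have h3 : (m : ℝ) ≤ 33 ^ 5 * (T : ℝ) ^ 8 := by exact_mod_cast hm
      refine (Real.rpow_le_rpow (by positivity) h3 hδ.le).trans_eq ?_
      rw [Real.mul_rpow (by positivity) (by positivity), ← Real.rpow_natCast (T : ℝ),
        ← Real.rpow_mul (by positivity)]
      congr 2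
      push_cast
      ring
    calc _ ≤ Cd * ((33 ^ 5 : ℝ) ^ (ε / 384) * (T : ℝ) ^ (ε / 48)) := by gcongr
      _ = Cd * (33 ^ 5 : ℝ) ^ (ε / 384) * (T : ℝ) ^ (ε / 48) := by ring
      _ ≤ _ := by gcongr
  · have h2 := Real.log_le_rpow_div (by positivity : (0 : ℝ) ≤ T) (by positivity : 0 < ε / 48)
    have h3 := Real.log_le_self (by norm_num : (0 : ℝ) ≤ 4356)
    push_cast
    rw [Real.log_mul (by norm_num) (by positivity), Real.log_pow]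
    calc _ ≤ 4357 * (T : ℝ) ^ (ε / 48) + 2 * ((T : ℝ) ^ (ε / 48) / (ε / 48)) := by
          push_cast
          linarith
      _ = (4357 + 96 / ε) * (T : ℝ) ^ (ε / 48) := by field_simp; ring
      _ ≤ _ := by gcongr
  · rw [mul_pow, ← Real.rpow_natCast ((T : ℝ) ^ (ε / 48)), ← Real.rpow_mul (by positivity),
      Real.rpow_add (by positivity), show ε / 48 * ((48 : ℕ) : ℝ) = ε by push_cast; ring,
      Real.rpow_ofNat]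
    ring

end Pool.Agent.MP_b9bf0c_nt
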