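import Pool.Agent.MP_c903c4_nt.Four
import Pool.Agent.MP_2a1f0e_nt.Div

/-!
Odd integers as x^2 + 2 y^2 + 3 z^2 with x + y + z a square: definitions and basic facts.
-/

set_option autoImplicit false

open Finset Complex
open scoped Real ArithmeticFunction.Moebius

noncomputable section

namespace Pool.Agent.MP_b9bf0c_nt

open Pool.Agent.MP_2a1f0e_nt (ex)
open Pool.Agent.MP_c903c4_nt (Red cc)

/-- Triangular numbers. -/
def tri (k : ℤ) : ℤ := k * (k + 1) / 2

/-- The integer valued quadratic polynomial `(A j ^ 2 + (A + 2 B) j) / 2`. -/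
def qf (A B j : ℤ) : ℤ := A * tri j + B * j

/-- The quartic polynomial `(3 (33 s + 3) ^ 4 - 1) / 11`. -/
def PP (s : ℤ) : ℤ := 22 + 243 * s * (4 + 66 * s + 484 * s ^ 2 + 1331 * s ^ 3)

/-- Representable integers. -/
def Rp (ν : ℤ) : Prop := ∃ j k s : ℤ, ν = qf 11 (-3) j + qf 1 0 k + PP s

/-- Complete quadratic exponential sums. -/
def SS (A B : ℤ) (q : ℕ) (a k : ℤ) : ℂ :=
  ∑ r ∈ range (2 * q), ex (-((a * qf A B r : ℤ) : ℝ) / q + (k : ℝ) * r / (2 * q))

/-- The coefficient of the fraction `a / q`. -/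
def gg (q : ℕ) (a : ℤ) : ℂ := SS 11 (-3) q a 0 * SS 1 0 q a 0 / (4 * (q : ℂ) ^ 2)

/-- One dimensional theta series. -/
def phi (A B : ℤ) (z : ℂ) : ℂ := ∑' j : ℤ, cexp (-(2 * π * z * (qf A B j : ℂ)))

/-- The binary theta series. -/
def th (z : ℂ) : ℂ := phi 11 (-3) z * phi 1 0 z

/-- The geometric series. -/
def EE (z : ℂ) : ℂ := 1 / (1 - cexp (-(2 * π * z)))

/-- The normalising constant. -/
def kap : ℂ := ((2 * π / √11 : ℝ) : ℂ)

/-- The point with real part `1 / M ^ 2` and imaginary part `β`. -/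
def pt (M : ℕ) (β : ℝ) : ℂ := ((1 / (M : ℝ) ^ 2 : ℝ) : ℂ) + (β : ℂ) * I

/-- The quartic exponential sum. -/
def GT (T : ℕ) (α : ℝ) : ℂ := ∑ s ∈ range T, ex (-(α * (PP s : ℝ)))

/-- The model for the number of representations. -/
def JJ (Q T : ℕ) (ν : ℕ) : ℂ :=
  ∑ q ∈ Ioc 0 Q, ∑ a ∈ Red q, gg q a * GT T ((a : ℝ) / q) * ex ((a : ℝ) * ν / q)

/-- The number `11 (2 ν + 1) - 6 (33 s + 3) ^ 4`. -/
def mm (ν : ℕ) (s : ℤ) : ℤ := 22 * (ν - PP s) + 9

/-- The number of roots modulo `d`. -/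
def rho (ν d : ℕ) : ℕ := ((range d).filter fun s : ℕ => (d : ℤ) ∣ mm ν s).card

/-- The quadratic character of discriminant `-11` on the integers coprime to `22`. -/
def chi (q : ℕ) : ℤ := if q.Coprime 22 then jacobiSym (-11) q else 0

/-- The terms of the singular series. -/
def hh (ν q : ℕ) : ℝ :=
  (chi q : ℝ) / q * ∑ x ∈ q.divisorsAntidiagonal, (μ x.1 : ℝ) * (rho ν x.2 : ℝ)

/-- The truncated singular series. -/
def HH (D ν : ℕ) : ℝ := ∑ q ∈ Ioc 0 D, hh ν q

/-- The terms of the mollifier. -/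
def uu (ν e : ℕ) : ℝ := if 3 ∣ e then 0 else (μ e : ℝ) * hh ν e

/-- The mollifier. -/
def Mo (D ν : ℕ) : ℝ := ∑ e ∈ Ioc 0 D, uu ν e

/-- The Dirichlet convolution of the series and the mollifier. -/
def kk (ν l : ℕ) : ℝ := ∑ x ∈ l.divisorsAntidiagonal, hh ν x.1 * uu ν x.2

/-- The remainder of the mollified series. -/
def RR (D ν : ℕ) : ℝ := HH D ν * Mo D ν - ∑ l ∈ Ioc 0 D, kk ν l

/-- `2 ν + 1` is not divisible by the fourth power of a prime. -/
def Free (ν : ℕ) : Prop := ∀ p : ℕ, p.Prime → ¬ p ^ 4 ∣ 2 * ν + 1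

/-- A bound for the divisor function. -/
def Dv (τ : ℝ) (N : ℕ) : Prop := ∀ m : ℕ, m ≠ 0 → m ≤ N → (m.divisors.card : ℝ) ≤ τ

/-- The number of collisions of the quartic polynomial modulo `q` among `0, ..., T - 1`. -/
def col (T q : ℕ) : ℕ := cc (range T) (fun s : ℕ => PP s) q

theorem two_tri (k : ℤ) : 2 * tri k = k * (k + 1) :=
  Int.mul_ediv_cancel' (Int.even_mul_succ_self k).two_dvd

theorem two_qf (A B j : ℤ) : 2 * qf A B j = A * j ^ 2 + (A + 2 * B) * j := by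
  unfold qf
  linear_combination A * two_tri j

theorem qf_add (A B j h : ℤ) : qf A B (j + h) = qf A B j + qf A B h + A * j * h := by
  have h1 := two_qf A B (j + h)
  have h2 := two_qf A B j
  have h3 := two_qf A B h
  apply mul_left_cancel₀ (two_ne_zero (α := ℤ))
  linear_combination h1 - h2 - h3

theorem qf_one_nonneg (j : ℤ) : 0 ≤ qf 1 0 j := by
  have := two_qf 1 0 j
  rcases le_or_gt 0 j with h | h <;> nlinarith

theorem qf_eleven_nonneg (j : ℤ) : 0 ≤ qf 11 (-3) j := by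
  have := two_qf 11 (-3) j
  rcases le_or_gt 0 j with h | h <;> nlinarith

theorem eleven_PP (s : ℤ) : 11 * PP s = 3 * (33 * s + 3) ^ 4 - 1 := by
  unfold PP
  ring

theorem mm_eq (ν : ℕ) (s : ℤ) : mm ν s = 11 * (2 * ν + 1) - 6 * (33 * s + 3) ^ 4 := by
  unfold mm
  linear_combination -2 * eleven_PP s

theorem PP_dvd (d s t : ℤ) (h : d ∣ s - t) : d ∣ PP s - PP t := by
  refine h.trans ⟨243 * (4 + 66 * (s + t) + 484 * (s ^ 2 + s * t + t ^ 2) +
    1331 * (s + t) * (s ^ 2 + t ^ 2)), ?_⟩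
  unfold PP
  ring

theorem PP_pos (s : ℕ) : 0 < PP s := by
  unfold PP
  positivity

theorem PP_lt {s t : ℕ} (h : s < t) : PP s < PP t := by
  have h1 : (33 * (s : ℤ) + 3) ^ 4 < (33 * (t : ℤ) + 3) ^ 4 :=
    pow_lt_pow_left₀ (by omega) (by positivity) (by norm_num)
  have h2 := eleven_PP s
  have h3 := eleven_PP t
  omega

theorem PP_inj {s t : ℕ} (h : PP s = PP t) : s = t := by
  rcases lt_trichotomy s t with h1 | h1 | h1
  · exact absurd h (PP_lt h1).ne
  · exact h1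
  · exact absurd h (PP_lt h1).ne'

theorem PP_le {s T : ℕ} (h : s < T) : PP s ≤ 33 ^ 4 * (T : ℤ) ^ 4 := by
  have h1 : (33 * (s : ℤ) + 3) ^ 4 ≤ (33 * (T : ℤ)) ^ 4 :=
    pow_le_pow_left₀ (by positivity) (by omega) 4
  have h2 := eleven_PP s
  have h3 : (0 : ℤ) ≤ (33 * (T : ℤ)) ^ 4 := by positivity
  rw [← mul_pow]
  omega

theorem chi_mul (a b : ℕ) : chi (a * b) = chi a * chi b := by
  unfold chi
  by_cases ha : a.Coprime 22
  · by_cases hb : b.Coprime 22
    · rw [if_pos ha, if_pos hb, if_pos (Nat.Coprime.mul_left ha hb)]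
      refine jacobiSym.mul_right' _ ?_ ?_
      · rintro rfl
        simp at ha
      · rintro rfl
        simp at hb
    · rw [if_neg hb, if_neg fun h => hb (Nat.Coprime.coprime_mul_left h), mul_zero]
  · rw [if_neg ha, if_neg fun h => ha (Nat.Coprime.coprime_mul_right h), zero_mul]

theorem abs_chi_le (a : ℕ) : |chi a| ≤ 1 := by
  unfold chi
  split_ifs
  · rcases jacobiSym.trichotomy (-11) a with h | h | h <;> simp [h]
  · simp

theorem chi_one : chi 1 = 1 := by simp [chi]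

theorem chi_three : chi 3 = 1 := by
  unfold chi
  norm_num

theorem chi_pow (a j : ℕ) : chi (a ^ j) = chi a ^ j := by
  induction j with
  | zero => simp [chi_one]
  | succ j ih => rw [pow_succ, chi_mul, ih, pow_succ]

theorem Dv.mono {τ : ℝ} {N N' : ℕ} (h : Dv τ N) (hN : N' ≤ N) : Dv τ N' :=
  fun m h0 hm => h m h0 (hm.trans hN)

theorem Dv.one_le {τ : ℝ} {N : ℕ} (h : Dv τ N) (hN : 1 ≤ N) : 1 ≤ τ := by
  simpa using h 1 one_ne_zero hN

end Pool.Agent.MP_b9bf0c_nt
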