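import Pool.Agent.MP_b9bf0c_nt.Core

/-!
Odd integers as x^2 + 2 y^2 + 3 z^2 with x + y + z a square: the exceptional set.
-/

set_option autoImplicit false

open Finset
open scoped Classical

namespace Pool.Agent.MP_b9bf0c_nt

/-- A representation with a square sum of the variables. -/
def Rep (n : ℕ) : Prop :=
  ∃ x y z m : ℤ, (n : ℤ) = x ^ 2 + 2 * y ^ 2 + 3 * z ^ 2 ∧ x + y + z = m ^ 2

theorem rep_of_Rp {ν : ℕ} (h : Rp ν) : Rep (2 * ν + 1) := by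
  obtain ⟨j, k, s, h⟩ := h
  have h1 := two_qf 11 (-3) j
  have h2 := two_qf 1 0 k
  obtain ⟨z, w, hw, hz⟩ : ∃ z w : ℤ, w ^ 2 = (2 * k + 1) ^ 2 ∧
      4 * z = 792 * s ^ 2 + 144 * s + 7 + 2 * j + w := by
    rcases Int.even_or_odd' (j + k) with ⟨i, hi | hi⟩
    · exact ⟨198 * s ^ 2 + 36 * s + 2 + i, 2 * k + 1, rfl, by linear_combination -2 * hi⟩
    · exact ⟨198 * s ^ 2 + 36 * s + 2 + i - k, -(2 * k + 1), by ring, by linear_combination -2 * hi⟩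
  refine ⟨(33 * s + 3) ^ 2 - (297 * s ^ 2 + 54 * s + 2 - 2 * j) - z,
    297 * s ^ 2 + 54 * s + 2 - 2 * j, z, 33 * s + 3, ?_, by ring⟩
  have hw' : w = 4 * z - (792 * s ^ 2 + 144 * s + 7 + 2 * j) := by linear_combination -hz
  rw [hw'] at hw
  unfold PP at h
  push_cast
  apply mul_left_cancel₀ (by norm_num : (4 : ℤ) ≠ 0)
  linear_combination 8 * h + 4 * h1 + 4 * h2 - hw

theorem Rep.mul {n : ℕ} (h : Rep n) (k : ℕ) : Rep (k ^ 4 * n) := by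
  obtain ⟨x, y, z, m, h1, h2⟩ := h
  refine ⟨k ^ 2 * x, k ^ 2 * y, k ^ 2 * z, k * m, ?_, by linear_combination (k : ℤ) ^ 2 * h2⟩
  push_cast
  linear_combination (k : ℤ) ^ 4 * h1

theorem exists_free (n : ℕ) (hn : n ≠ 0) :
    ∃ k m : ℕ, 1 ≤ k ∧ n = k ^ 4 * m ∧ ∀ p : ℕ, p.Prime → ¬ p ^ 4 ∣ m := by
  induction n using Nat.strong_induction_on with
  | _ n ih =>
    by_cases h : ∃ p : ℕ, p.Prime ∧ p ^ 4 ∣ n
    · obtain ⟨p, hp, m, rfl⟩ := h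
      have hm : m ≠ 0 := right_ne_zero_of_mul hn
      obtain ⟨k, m', h1, rfl, h2⟩ := ih m (lt_mul_of_one_lt_left (Nat.pos_of_ne_zero hm)
        (Nat.one_lt_pow (by norm_num) hp.one_lt)) hm
      exact ⟨p * k, m', Nat.mul_pos hp.pos h1, by ring, h2⟩
    · exact ⟨1, n, le_rfl, by simp, fun p hp hd => h ⟨p, hp, hd⟩⟩

theorem blocks {ε : ℝ} (hε : 0 < ε) : ∃ C : ℝ, 0 < C ∧ ∀ i : ℕ,
    (((range (33 ^ 4 * 16 ^ i + 1)).filter fun ν : ℕ => Free ν ∧ ¬ Rp ν).card : ℝ) ≤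
      C * ((2 : ℝ) ^ i) ^ (3 + ε) := by
  obtain ⟨C, hC, h⟩ := core hε
  refine ⟨C + (33 ^ 4 + 1), by positivity, fun i => ?_⟩
  induction i with
  | zero =>
    have : (((range (33 ^ 4 * 16 ^ 0 + 1)).filter fun ν : ℕ => Free ν ∧ ¬ Rp ν).card : ℝ) ≤
        33 ^ 4 + 1 := by exact_mod_cast (card_filter_le _ _).trans (by simp)
    rw [pow_zero (2 : ℝ), Real.one_rpow]
    linarith
  | succ i ih =>
    have h1 := h (2 ^ i) Nat.one_le_two_pow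
    have e : (2 ^ i) ^ 4 = 16 ^ i := by rw [← pow_mul, mul_comm, pow_mul]; norm_num
    rw [e] at h1
    have h2 : (range (33 ^ 4 * 16 ^ (i + 1) + 1)).filter (fun ν : ℕ => Free ν ∧ ¬ Rp ν) ⊆
        (range (33 ^ 4 * 16 ^ i + 1)).filter (fun ν : ℕ => Free ν ∧ ¬ Rp ν) ∪
          (Ioc (33 ^ 4 * 16 ^ i) (16 * (33 ^ 4 * 16 ^ i))).filter fun ν : ℕ => Free ν ∧ ¬ Rp ν := by
      intro ν hν
      rw [← filter_union]
      rw [mem_filter] at hν ⊢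
      refine ⟨?_, hν.2⟩
      have := mem_range.1 hν.1
      rw [pow_succ] at this
      rw [mem_union, mem_range, mem_Ioc]
      omega
    have h3 := (Nat.cast_le (α := ℝ)).2 ((card_le_card h2).trans (card_union_le _ _))
    rw [Nat.cast_add] at h3
    have h4 : (2 : ℝ) ≤ (2 : ℝ) ^ (3 + ε) := by
      simpa using Real.rpow_le_rpow_of_exponent_le (one_le_two (α := ℝ)) (by linarith : 1 ≤ 3 + ε)
    have h5 : 0 < ((2 : ℝ) ^ i) ^ (3 + ε) := by positivity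
    rw [pow_succ (2 : ℝ), Real.mul_rpow (by positivity) (by norm_num)]
    rw [Nat.cast_pow, Nat.cast_ofNat] at h1
    have h6 : (C + (33 ^ 4 + 1)) * (((2 : ℝ) ^ i) ^ (3 + ε) * 2) ≤
        (C + (33 ^ 4 + 1)) * (((2 : ℝ) ^ i) ^ (3 + ε) * (2 : ℝ) ^ (3 + ε)) := by gcongr
    nlinarith

theorem free_bound {ε : ℝ} (hε : 0 < ε) : ∃ C : ℝ, 0 < C ∧ ∀ Y : ℕ,
    (((Ioc 0 Y).filter fun n : ℕ => Odd n ∧ (∀ p : ℕ, p.Prime → ¬ p ^ 4 ∣ n) ∧ ¬ Rep n).card : ℝ) ≤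
      C * (Y : ℝ) ^ (3 / 4 + ε) := by
  obtain ⟨C, hC, h⟩ := blocks (ε := 4 * ε) (by positivity)
  refine ⟨C * (16 : ℝ) ^ (3 / 4 + ε), by positivity, fun Y => ?_⟩
  rcases Nat.eq_zero_or_pos Y with rfl | hY
  · simp only [Ioc_self, filter_empty, card_empty, Nat.cast_zero]
    positivity
  have h1 : Y < 16 ^ (Nat.log 16 Y + 1) := Nat.lt_pow_succ_log_self (by norm_num) Y
  have h2 : 16 ^ (Nat.log 16 Y + 1) ≤ 16 * Y := by
    have := Nat.pow_log_le_self 16 hY.ne'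
    rw [pow_succ]
    omega
  generalize Nat.log 16 Y + 1 = i at h1 h2
  refine le_trans ?_ ((h i).trans ?_)
  · refine Nat.cast_le.2 (card_le_card_of_injOn (fun n => n / 2) (fun n hn => ?_) fun n hn m hm e => ?_)
    · obtain ⟨a1, ⟨ν, rfl⟩, a2, a3⟩ := mem_filter.1 (mem_coe.1 hn)
      have := mem_Ioc.1 a1
      have e : (2 * ν + 1) / 2 = ν := by omega
      simp only [e, coe_filter, mem_range, Set.mem_ofPred_eq]
      exact ⟨by omega, a2, fun hr => a3 (rep_of_Rp hr)⟩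
    · obtain ⟨-, ⟨a, rfl⟩, -⟩ := mem_filter.1 (mem_coe.1 hn)
      obtain ⟨-, ⟨b, rfl⟩, -⟩ := mem_filter.1 (mem_coe.1 hm)
      simp only at e
      omega
  · have e : ((2 : ℝ) ^ i) ^ (3 + 4 * ε) = ((16 : ℝ) ^ i) ^ (3 / 4 + ε) := by
      rw [show (16 : ℝ) ^ i = ((2 : ℝ) ^ i) ^ (4 : ℝ) by
        rw [Real.rpow_ofNat, ← pow_mul, mul_comm, pow_mul]; norm_num,
        ← Real.rpow_mul (by positivity)]
      congr 1
      ring
    rw [e, mul_assoc, ← Real.mul_rpow (by norm_num) (by positivity)]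
    gcongr
    exact_mod_cast h2

theorem main {ε : ℝ} (hε : 0 < ε) : ∃ C : ℝ, ∀ X : ℕ,
    (((Ioc 0 X).filter fun n : ℕ => Odd n ∧ ¬ Rep n).card : ℝ) ≤ C * (X : ℝ) ^ (3 / 4 + ε) := by
  obtain ⟨C, hC, h⟩ := free_bound hε
  refine ⟨C * 2, fun X => ?_⟩
  have h1 : (Ioc 0 X).filter (fun n : ℕ => Odd n ∧ ¬ Rep n) ⊆ (Ioc 0 X).biUnion fun k =>
      ((Ioc 0 (X / k ^ 4)).filter fun n : ℕ =>
        Odd n ∧ (∀ p : ℕ, p.Prime → ¬ p ^ 4 ∣ n) ∧ ¬ Rep n).image (k ^ 4 * ·) := by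
    intro n hn
    obtain ⟨a1, a2, a3⟩ := mem_filter.1 hn
    rw [mem_Ioc] at a1
    obtain ⟨k, m, b1, rfl, b2⟩ := exists_free n a1.1.ne'
    have hm : 0 < m := Nat.pos_of_mul_pos_left a1.1
    have hk : k ≤ k ^ 4 * m := (Nat.le_self_pow (by norm_num) k).trans (Nat.le_mul_of_pos_right _ hm)
    refine mem_biUnion.2 ⟨k, mem_Ioc.2 ⟨b1, hk.trans a1.2⟩, mem_image.2 ⟨m, mem_filter.2
      ⟨mem_Ioc.2 ⟨hm, ?_⟩, (Nat.odd_mul.1 a2).2, b2, fun hr => a3 (hr.mul k)⟩, rfl⟩⟩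
    rw [Nat.le_div_iff_mul_le (by positivity), mul_comm]
    exact a1.2
  have h2 : ∀ k ∈ Ioc 0 X, ((((Ioc 0 (X / k ^ 4)).filter fun n : ℕ =>
      Odd n ∧ (∀ p : ℕ, p.Prime → ¬ p ^ 4 ∣ n) ∧ ¬ Rep n).image (k ^ 4 * ·)).card : ℝ) ≤
        C * (X : ℝ) ^ (3 / 4 + ε) * ((k : ℝ) ^ 2)⁻¹ := by
    intro k hk
    have hk1 : (1 : ℝ) ≤ k := by exact_mod_cast (mem_Ioc.1 hk).1
    refine le_trans (Nat.cast_le.2 card_image_le) ((h _).trans ?_)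
    have h3 : ((X / k ^ 4 : ℕ) : ℝ) ≤ X / (k : ℝ) ^ 4 := by
      rw [← Nat.cast_pow]
      exact Nat.cast_div_le
    have h4 : (k : ℝ) ^ 2 ≤ ((k : ℝ) ^ 4) ^ (3 / 4 + ε) := by
      rw [← Real.rpow_natCast (k : ℝ) 4, ← Real.rpow_mul (by positivity), ← Real.rpow_natCast]
      refine Real.rpow_le_rpow_of_exponent_le hk1 ?_
      push_cast
      linarith
    rw [mul_assoc, ← div_eq_mul_inv]
    calc _ ≤ C * (X / (k : ℝ) ^ 4) ^ (3 / 4 + ε) := by gcongr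
      _ = C * ((X : ℝ) ^ (3 / 4 + ε) / ((k : ℝ) ^ 4) ^ (3 / 4 + ε)) := by
        rw [Real.div_rpow (by positivity) (by positivity)]
      _ ≤ _ := by gcongr
  have h3 : ∑ k ∈ Ioc 0 X, ((k : ℝ) ^ 2)⁻¹ ≤ 2 := by
    have := sum_Ioo_inv_sq_le (α := ℝ) 0 (X + 1)
    rw [show Ioo 0 (X + 1) = Ioc 0 X by ext; simp] at this
    simpa using this
  calc _ ≤ ∑ k ∈ Ioc 0 X, C * (X : ℝ) ^ (3 / 4 + ε) * ((k : ℝ) ^ 2)⁻¹ := by
        refine le_trans ?_ (sum_le_sum h2)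
        exact_mod_cast (card_le_card h1).trans card_biUnion_le
    _ ≤ C * (X : ℝ) ^ (3 / 4 + ε) * 2 := by rw [← mul_sum]; gcongr
    _ = _ := by ring

end Pool.Agent.MP_b9bf0c_nt
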