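import Pool.Agent.MP_b9bf0c_nt.Defs

/-!
Odd integers as x^2 + 2 y^2 + 3 z^2 with x + y + z a square: quadratic exponential sums.
-/

set_option autoImplicit false

open Finset Complex
open scoped Real ArithmeticFunction.Moebius

noncomputable section

namespace Pool.Agent.MP_b9bf0c_nt

open Pool.Agent.MP_2a1f0e_nt (ex)
open Pool.Agent.MP_c903c4_nt (Red cc)

namespace Gauss

open Pool.Agent.MP_2a1f0e_nt

/-- The additive character modulo `q`. -/
def e (q : ℕ) (m : ℤ) : ℂ := ex ((m : ℝ) / q)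

theorem e_add (q : ℕ) (m n : ℤ) : e q (m + n) = e q m * e q n := by
  rw [e, e, e, ← ex_add, Int.cast_add, add_div]

theorem e_dvd {q : ℕ} {m : ℤ} (h : (q : ℤ) ∣ m) : e q m = 1 := by
  obtain ⟨t, rfl⟩ := h
  rcases eq_or_ne q 0 with rfl | hq
  · simp [e, ex_zero]
  · have hq' : (q : ℝ) ≠ 0 := Nat.cast_ne_zero.2 hq
    rw [e, ← ex_int t]
    congr 1
    push_cast
    field_simp

theorem e_congr {q : ℕ} {m n : ℤ} (h : (q : ℤ) ∣ m - n) : e q m = e q n := by
  rw [← sub_add_cancel m n, e_add, e_dvd h, one_mul]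

theorem e_mul (q : ℕ) {d : ℕ} (hd : d ≠ 0) (m : ℤ) : e (d * q) (d * m) = e q m := by
  have hd' : (d : ℝ) ≠ 0 := Nat.cast_ne_zero.2 hd
  rw [e, e]
  congr 1
  push_cast
  exact mul_div_mul_left _ _ hd'

theorem norm_e (q : ℕ) (m : ℤ) : ‖e q m‖ = 1 := norm_ex _

theorem conj_e (q : ℕ) (m : ℤ) : (starRingEnd ℂ) (e q m) = e q (-m) := by
  rw [e, e, conj_ex, Int.cast_neg, neg_div]

theorem sum_e {q : ℕ} (hq : 0 < q) (m : ℤ) :
    ∑ r ∈ range q, e q (m * r) = if (q : ℤ) ∣ m then (q : ℂ) else 0 := by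
  rw [← gs_div q hq m, gs]
  refine sum_congr rfl fun r _ => ?_
  rw [e]
  congr 1
  push_cast
  ring

theorem dvd_of_e {q : ℕ} (hq : 0 < q) {m : ℤ} (h : e q m = 1) : (q : ℤ) ∣ m := by
  by_contra hm
  have h1 := gs_div q hq m
  rw [if_neg hm, gs] at h1
  have h2 : ex ((m : ℝ) / q) = 1 := h
  simp only [ex_nat_mul, h2, one_pow, sum_const, card_range, nsmul_eq_mul, mul_one,
    Nat.cast_eq_zero] at h1
  omega

/-- Periodic functions. -/
def Per (n : ℕ) (f : ℤ → ℂ) : Prop := ∀ x y : ℤ, (n : ℤ) ∣ x - y → f x = f y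

theorem sum_zmod (n : ℕ) [NeZero n] (f : ℤ → ℂ) :
    ∑ r ∈ range n, f r = ∑ x : ZMod n, f (x.val : ℕ) := by
  refine sum_nbij' (fun r => (r : ZMod n)) (fun x => x.val) (fun _ _ => mem_univ _)
    (fun x _ => mem_range.2 x.val_lt) (fun r hr => ZMod.val_cast_of_lt (mem_range.1 hr))
    (fun x _ => ZMod.natCast_zmod_val x) fun r hr => ?_
  rw [ZMod.val_cast_of_lt (mem_range.1 hr)]

theorem sum_affine {n : ℕ} {f : ℤ → ℂ} (hf : Per n f) {u : ℤ} (hu : IsCoprime (n : ℤ) u)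
    (v : ℤ) : ∑ r ∈ range n, f (u * r + v) = ∑ r ∈ range n, f r := by
  rcases eq_or_ne n 0 with rfl | hn
  · simp
  have : NeZero n := ⟨hn⟩
  rw [sum_zmod n fun r => f (u * r + v), sum_zmod n f]
  obtain ⟨w, hw⟩ := (ZMod.coe_int_isUnit_iff_isCoprime u n).2 hu
  have hb : Function.Bijective fun x : ZMod n => (u : ZMod n) * x + v :=
    (Equiv.addRight (v : ZMod n)).bijective.comp (hw ▸ w.mulLeft_bijective)
  refine Fintype.sum_bijective _ hb _ _ fun x => hf _ _ ?_
  rw [← ZMod.intCast_zmod_eq_zero_iff_dvd]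
  simp

theorem sum_shift {n : ℕ} {f : ℤ → ℂ} (hf : Per n f) (v : ℤ) :
    ∑ r ∈ range n, f (r + v) = ∑ r ∈ range n, f r := by
  simpa using sum_affine hf isCoprime_one_right v

theorem sum_mul (a b : ℕ) (f : ℤ → ℂ) :
    ∑ r ∈ range (a * b), f r = ∑ v ∈ range a, ∑ w ∈ range b, f (v + a * w) := by
  induction b with
  | zero => simp
  | succ b ih =>
    rw [Nat.mul_succ, sum_range_add, ih, ← sum_add_distrib]
    refine sum_congr rfl fun v _ => ?_
    rw [sum_range_succ]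
    congr 2
    push_cast
    ring

theorem sum_two {n : ℕ} {f : ℤ → ℂ} (hf : Per n f) :
    ∑ r ∈ range (2 * n), f r = 2 * ∑ r ∈ range n, f r := by
  rw [two_mul, sum_range_add, two_mul]
  congr 1
  exact sum_congr rfl fun r _ => hf _ _ ⟨1, by push_cast; ring⟩

/-- The summand of `SS`. -/
def FF (A B : ℤ) (q : ℕ) (a k r : ℤ) : ℂ := e (2 * q) (-(2 * a * qf A B r) + k * r)

theorem SS_eq (A B : ℤ) (q : ℕ) (a k : ℤ) :
    SS A B q a k = ∑ r ∈ range (2 * q), FF A B q a k r := by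
  refine sum_congr rfl fun r _ => ?_
  rw [FF, e, ← mul_div_mul_left _ (q : ℝ) two_ne_zero, ← add_div]
  congr 2 <;> push_cast <;> ring

theorem FF_per (A B : ℤ) (q : ℕ) (a k : ℤ) : Per (2 * q) (FF A B q a k) := fun x y h => by
  refine e_congr (h.trans ⟨k - a * (A * (x + y) + (A + 2 * B)), ?_⟩)
  linear_combination (-a) * two_qf A B x + a * two_qf A B y

theorem FF_add (A B : ℤ) (q : ℕ) (a k r h : ℤ) : FF A B q a k (r + h) =
    FF A B q a k r * FF A B q a k h * e (2 * q) (-(2 * a * A * h) * r) := by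
  rw [FF, FF, FF, ← e_add, ← e_add, qf_add]
  congr 1
  ring

theorem FF_zero (A B : ℤ) (q : ℕ) (a r : ℤ) : FF A B q a 0 r = e q (-(a * qf A B r)) := by
  rw [FF, ← e_mul q two_ne_zero]
  congr 1
  push_cast
  ring

theorem SS_zero {A B : ℤ} {q : ℕ} (hq : 0 < q) {a h : ℤ} (ha : IsCoprime a (q : ℤ))
    (h1 : (q : ℤ) ∣ A * h) (h2 : ¬ (q : ℤ) ∣ qf A B h) : SS A B q a 0 = 0 := by
  have h3 : FF A B q a 0 h ≠ 1 := fun h4 => by
    rw [FF_zero] at h4
    exact h2 (ha.symm.dvd_of_dvd_mul_left (dvd_neg.1 (dvd_of_e hq h4)))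
  have h4 := sum_shift (FF_per A B q a 0) h
  have h5 : ∀ r : ℕ, FF A B q a 0 (r + h) = FF A B q a 0 r * FF A B q a 0 h := fun r => by
    obtain ⟨t, ht⟩ := h1
    rw [FF_add, e_dvd ⟨-(a * t * r), by push_cast; linear_combination (-(2 * a * r)) * ht⟩,
      mul_one]
  simp only [h5] at h4
  rw [← Finset.sum_mul, ← SS_eq] at h4
  exact (mul_eq_zero.1 (by linear_combination h4 :
    SS A B q a 0 * (FF A B q a 0 h - 1) = 0)).resolve_right (sub_ne_zero.2 h3)

/-- The quadratic Gauss sum. -/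
def G (q : ℕ) (b : ℤ) : ℂ := ∑ u ∈ range q, e q (b * (u : ℤ) ^ 2)

theorem G_per (q : ℕ) (b : ℤ) : Per q fun u => e q (b * u ^ 2) := fun x y h =>
  e_congr (h.trans ⟨b * (x + y), by ring⟩)

theorem G_mul {a c : ℕ} (ha : a ≠ 0) (hc : c ≠ 0) (h : a.Coprime c) (b : ℤ) :
    G (a * c) b = G a (b * c) * G c (b * a) := by
  have hp : Per a fun v => ∑ w ∈ range c, e (a * c) (b * (v + a * w) ^ 2) := fun x y ⟨t, ht⟩ => by
    have h1 : Per c fun w => e (a * c) (b * (y + a * w) ^ 2) := fun w w' ⟨s, hs⟩ =>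
      G_per (a * c) b _ _ ⟨s, by push_cast; linear_combination a * hs⟩
    beta_reduce
    rw [← sum_shift h1 t]
    refine sum_congr rfl fun w _ => ?_
    congr 3
    linear_combination ht
  rw [G, sum_mul a c fun u => e (a * c) (b * u ^ 2),
    ← sum_affine hp (Nat.isCoprime_iff_coprime.2 h) 0, G, G, sum_mul_sum]
  refine sum_congr rfl fun v _ => sum_congr rfl fun w _ => ?_
  rw [← e_mul a hc, ← e_mul c ha, mul_comm c a, ← e_add]
  exact e_congr ⟨2 * b * v * w, by push_cast; ring⟩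

theorem G_sq {p m : ℕ} (hp : p ≠ 0) (hm : m ≠ 0) {b : ℤ} (h : IsCoprime (p : ℤ) (2 * b)) :
    G (p * (p * m)) b = p * G m b := by
  have h1 : ∀ v : ℕ, ∑ w ∈ range p, e (p * m * p) (b * (v + (p * m : ℕ) * w) ^ 2) =
      if (p : ℤ) ∣ v then p * e (p * m * p) (b * v ^ 2) else 0 := fun v => by
    have h2 : ∀ w : ℕ, e (p * m * p) (b * (v + (p * m : ℕ) * w) ^ 2) =
        e (p * m * p) (b * v ^ 2) * e p (2 * b * v * w) := fun w => by
      rw [← e_mul p (mul_ne_zero hp hm), ← e_add]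
      exact e_congr ⟨b * m * w ^ 2, by push_cast; ring⟩
    simp only [h2]
    rw [← mul_sum, sum_e (Nat.pos_of_ne_zero hp)]
    by_cases h3 : (p : ℤ) ∣ v
    · rw [if_pos h3, if_pos (h3.mul_left _), mul_comm]
    · rw [if_neg h3, if_neg fun h4 => h3 (h.dvd_of_dvd_mul_left h4), mul_zero]
  rw [mul_comm p (p * m), G, sum_mul (p * m) p fun u => e (p * m * p) (b * u ^ 2)]
  simp only [h1]
  rw [sum_mul p m fun v => if (p : ℤ) ∣ v then p * e (p * m * p) (b * v ^ 2) else 0,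
    sum_eq_single 0, G, mul_sum]
  · refine sum_congr rfl fun w _ => ?_
    rw [if_pos (by simp), ← e_mul m (mul_ne_zero hp hp), mul_right_comm p p m]
    congr 2
    push_cast
    ring
  · refine fun v hv h0 => sum_eq_zero fun w _ => if_neg fun h4 => h0 ?_
    exact Nat.eq_zero_of_dvd_of_lt
      (Int.natCast_dvd_natCast.1 ((dvd_add_left (dvd_mul_right _ _)).1 h4)) (mem_range.1 hv)
  · exact fun h0 => absurd (mem_range.2 (Nat.pos_of_ne_zero hp)) h0

theorem G_prime {p : ℕ} [Fact p.Prime] (h2 : p ≠ 2) {b : ℤ} (hb : (b : ZMod p) ≠ 0) :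
    (legendreSym p b : ℂ) * G p b =
      gaussSum ((quadraticChar (ZMod p)).ringHomComp (Int.castRingHom ℂ)) ZMod.stdAddChar := by
  have hc : ringChar (ZMod p) ≠ 2 := by rwa [ZMod.ringChar_zmod_n]
  have h1 : G p b = ∑ x : ZMod p, ZMod.stdAddChar ((b : ZMod p) * x ^ 2) := by
    rw [G, sum_zmod p fun u => e p (b * u ^ 2)]
    refine sum_congr rfl fun x _ => ?_
    have h3 : (b : ZMod p) * x ^ 2 = ((b * ((x.val : ℕ) : ℤ) ^ 2 : ℤ) : ZMod p) := by simp
    rw [h3, ZMod.stdAddChar_coe, e, ex]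
    congr 1
    push_cast
    ring
  have h3 : ∑ x : ZMod p, ZMod.stdAddChar ((b : ZMod p) * x ^ 2) = ∑ y : ZMod p,
      ((quadraticChar (ZMod p) y : ℂ) + 1) * ZMod.stdAddChar ((b : ZMod p) * y) := by
    rw [← sum_fiberwise_of_maps_to (t := univ) (g := fun x : ZMod p => x ^ 2)
      fun _ _ => mem_univ _]
    refine sum_congr rfl fun y _ => ?_
    rw [sum_congr rfl fun x hx => by rw [(mem_filter.1 hx).2], sum_const, nsmul_eq_mul]
    congr 1
    have h4 := quadraticChar_card_sqrts hc y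
    rw [Set.toFinset_ofPred] at h4
    exact_mod_cast h4
  have h4 := AddChar.sum_mulShift (b : ZMod p) (ZMod.isPrimitive_stdAddChar p)
  rw [if_neg hb] at h4
  rw [← gaussSum_mulShift _ _ (Units.mk0 _ hb), h1, h3]
  simp only [add_mul, one_mul, sum_add_distrib, mul_comm (b : ZMod p), h4, Nat.cast_zero,
    add_zero]
  simp [gaussSum, legendreSym, mul_comm (b : ZMod p)]

theorem GG_prime {p : ℕ} (hp : p.Prime) {b d : ℤ} (h : IsCoprime (p : ℤ) (2 * b * d)) :
    G p b * G p (d * b) = jacobiSym (-d) p * p := by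
  have := Fact.mk hp
  have hp' : Prime (p : ℤ) := Nat.prime_iff_prime_int.1 hp
  have h0 : ¬ (p : ℤ) ∣ 2 * b * d := (hp'.irreducible.coprime_iff_not_dvd).1 h
  have h2 : p ≠ 2 := by
    rintro rfl
    exact h0 ⟨b * d, by push_cast; ring⟩
  have hb : (b : ZMod p) ≠ 0 := fun h1 =>
    h0 ((((ZMod.intCast_zmod_eq_zero_iff_dvd b p).1 h1).mul_left _).mul_right _)
  have hd : (d : ZMod p) ≠ 0 := fun h1 =>
    h0 (((ZMod.intCast_zmod_eq_zero_iff_dvd d p).1 h1).mul_left _)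
  have hc : ringChar (ZMod p) ≠ 2 := by rwa [ZMod.ringChar_zmod_n]
  have g1 := G_prime h2 hb
  have g2 := G_prime h2 (b := d * b) (by push_cast; exact mul_ne_zero hd hb)
  have g3 := gaussSum_sq ((MulChar.ringHomComp_ne_one_iff (f := Int.castRingHom ℂ)
    Int.cast_injective).2 (quadraticChar_ne_one hc))
    ((quadraticChar_isQuadratic (ZMod p)).comp _) (ZMod.isPrimitive_stdAddChar p)
  have g4 : ((quadraticChar (ZMod p)).ringHomComp (Int.castRingHom ℂ)) (-1) =
      (legendreSym p (-1) : ℂ) := by simp [legendreSym]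
  have g5 : (legendreSym p b : ℂ) ^ 2 = 1 := by exact_mod_cast legendreSym.sq_one p hb
  have g6 : (legendreSym p d : ℂ) ^ 2 = 1 := by exact_mod_cast legendreSym.sq_one p hd
  rw [g4, ZMod.card] at g3
  rw [legendreSym.mul] at g2
  rw [← jacobiSym.legendreSym.to_jacobiSym, neg_eq_neg_one_mul, legendreSym.mul]
  push_cast at g2 ⊢
  generalize gaussSum ((quadraticChar (ZMod p)).ringHomComp (Int.castRingHom ℂ))
    ZMod.stdAddChar = g at *
  linear_combination (legendreSym p d : ℂ) * g3 + (legendreSym p d : ℂ) * g * g1 +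
    (legendreSym p d : ℂ) * (legendreSym p b : ℂ) * G p b * g2 -
    G p b * G p (d * b) * (legendreSym p d : ℂ) ^ 2 * g5 - G p b * G p (d * b) * g6

theorem GG (d : ℤ) (q : ℕ) : q ≠ 0 → ∀ b : ℤ, IsCoprime (q : ℤ) (2 * b * d) →
    G q b * G q (d * b) = jacobiSym (-d) q * q := by
  induction q using Nat.strong_induction_on with
  | _ q ih =>
  intro hq b h
  rcases eq_or_ne q 1 with rfl | h1
  · simp [G, e, ex_zero]
  obtain ⟨p, hp, m, rfl⟩ := Nat.exists_prime_and_dvd h1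
  have hm : m ≠ 0 := right_ne_zero_of_mul hq
  have hlt : m < p * m := (Nat.lt_mul_iff_one_lt_left (Nat.pos_of_ne_zero hm)).2 hp.one_lt
  rw [Nat.cast_mul] at h
  by_cases hpm : p ∣ m
  · obtain ⟨n, rfl⟩ := hpm
    have hn : n ≠ 0 := right_ne_zero_of_mul hm
    rw [Nat.cast_mul] at h
    have h2 := ih n (((Nat.lt_mul_iff_one_lt_left (Nat.pos_of_ne_zero hn)).2 hp.one_lt).trans hlt)
      hn b h.of_mul_left_right.of_mul_left_right
    have h3 : jacobiSym (-d) p ^ 2 = 1 := jacobiSym.sq_one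
      (Int.isCoprime_iff_gcd_eq_one.1 h.of_mul_left_left.of_mul_right_right.symm.neg_left)
    have h4 : IsCoprime (p : ℤ) (2 * (d * b)) := by
      have h5 := h.of_mul_left_left
      rwa [mul_assoc, mul_comm b] at h5
    have h5 : (jacobiSym (-d) p : ℂ) ^ 2 = 1 := by exact_mod_cast h3
    rw [G_sq hp.ne_zero hn h.of_mul_left_left.of_mul_right_left, G_sq hp.ne_zero hn h4,
      jacobiSym.mul_right' _ hp.ne_zero hm, jacobiSym.mul_right' _ hp.ne_zero hn]
    push_cast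
    linear_combination (p : ℂ) ^ 2 * h2 - (p : ℂ) ^ 2 * n * (jacobiSym (-d) n : ℂ) * h5
  · have hc : p.Coprime m := (Nat.Prime.coprime_iff_not_dvd hp).2 hpm
    have hc' : IsCoprime (p : ℤ) m := Nat.isCoprime_iff_coprime.2 hc
    have h2 := ih m hlt hm (b * p) (by
      have h3 := h.of_mul_left_right.mul_right hc'.symm
      rwa [mul_right_comm, mul_assoc 2] at h3)
    have h3 := GG_prime hp (b := b * m) (d := d) (by
      have h3 := h.of_mul_left_left.mul_right hc'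
      rwa [mul_right_comm, mul_assoc 2] at h3)
    rw [G_mul hp.ne_zero hm hc, G_mul hp.ne_zero hm hc, jacobiSym.mul_right' _ hp.ne_zero hm,
      mul_assoc d, mul_assoc d]
    push_cast
    linear_combination G m (b * p) * G m (d * (b * p)) * h3 +
      (jacobiSym (-d) p : ℂ) * p * h2

theorem SS_G {A B : ℤ} {q : ℕ} {a b u v t : ℤ} (hu : IsCoprime (q : ℤ) u)
    (h : ∀ r : ℤ, (q : ℤ) ∣ -(a * qf A B r) - (b * (u * r + v) ^ 2 + t)) :
    SS A B q a 0 = 2 * (G q b * e q t) := by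
  have h1 : ∀ r : ℤ, FF A B q a 0 r = e q (b * (u * r + v) ^ 2) * e q t := fun r => by
    rw [FF_zero, ← e_add, e_congr (h r)]
  have h2 : Per q fun r => e q (b * (u * r + v) ^ 2) := fun x y hxy =>
    G_per q b _ _ (hxy.trans ⟨u, by ring⟩)
  rw [SS_eq]
  simp only [h1]
  rw [← Finset.sum_mul, sum_two h2, sum_affine (G_per q b) hu v, G, mul_assoc]

end Gauss

open Gauss

theorem norm_SS_sq {A : ℤ} (hA : 0 < A) (B : ℤ) {q : ℕ} (hq : 0 < q) {a : ℤ}
    (ha : IsCoprime a (q : ℤ)) (k : ℤ) : ‖SS A B q a k‖ ^ 2 ≤ 4 * (q : ℝ) * (A : ℝ) := by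
  have h1 : ∀ r : ℤ, (starRingEnd ℂ) (FF A B q a k r) * FF A B q a k r = 1 := fun r => by
    rw [FF, conj_e, ← e_add, neg_add_cancel, e_dvd (dvd_zero _)]
  have h2 : ((‖SS A B q a k‖ ^ 2 : ℝ) : ℂ) = ∑ h ∈ range (2 * q),
      FF A B q a k h * if ((2 * q : ℕ) : ℤ) ∣ -(2 * a * A * h) then ((2 * q : ℕ) : ℂ) else 0 := by
    rw [← Complex.normSq_eq_norm_sq, Complex.normSq_eq_conj_mul_self, SS_eq, map_sum, Finset.sum_mul]
    simp only [← sum_e (by omega : 0 < 2 * q), mul_sum]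
    rw [sum_comm (s := range (2 * q)) (t := range (2 * q))
      (f := fun h r : ℕ => FF A B q a k h * e (2 * q) (-(2 * a * A * h) * r))]
    refine sum_congr rfl fun r _ => ?_
    rw [← mul_sum, ← sum_shift (FF_per A B q a k) r, mul_sum]
    refine sum_congr rfl fun h _ => ?_
    rw [add_comm, FF_add, ← mul_assoc, ← mul_assoc, h1, one_mul]
  obtain ⟨n, rfl⟩ := Int.eq_ofNat_of_zero_le hA.le
  have hn : 0 < n := by exact_mod_cast hA
  have h3 : ((range (2 * q)).filter fun h : ℕ => q ∣ n * h).card ≤ 2 * n := by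
    rw [← card_range (2 * n)]
    refine card_le_card_of_injOn (fun h => n * h / q) (fun h hh => ?_) fun x hx y hy hxy => ?_
    · have h4 := mem_range.1 (mem_filter.1 (mem_coe.1 hh)).1
      refine mem_coe.2 (mem_range.2 ((Nat.div_lt_iff_lt_mul hq).2 ?_))
      nlinarith
    · exact Nat.eq_of_mul_eq_mul_left hn ((Nat.div_left_inj (mem_filter.1 (mem_coe.1 hx)).2
        (mem_filter.1 (mem_coe.1 hy)).2).1 hxy)
  calc ‖SS n B q a k‖ ^ 2 = ‖((‖SS n B q a k‖ ^ 2 : ℝ) : ℂ)‖ := by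
        rw [Complex.norm_real, Real.norm_of_nonneg (by positivity)]
    _ ≤ ∑ h ∈ range (2 * q), if q ∣ n * h then 2 * (q : ℝ) else 0 := by
        rw [h2]
        refine (norm_sum_le _ _).trans (sum_le_sum fun h _ => ?_)
        rw [norm_mul, FF, norm_e, one_mul]
        split_ifs with h4 h5
        · simp
        · refine absurd (Int.natCast_dvd_natCast.1 (ha.symm.dvd_of_dvd_mul_left ?_)) h5
          obtain ⟨t, ht⟩ := h4
          refine ⟨-t, mul_left_cancel₀ two_ne_zero ?_⟩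
          push_cast at ht ⊢
          linear_combination -ht
        · rw [norm_zero]
          positivity
        · simp
    _ ≤ 4 * (q : ℝ) * ((n : ℤ) : ℝ) := by
        rw [← sum_filter, sum_const, nsmul_eq_mul]
        have h4 : (((range (2 * q)).filter fun h : ℕ => q ∣ n * h).card : ℝ) ≤ 2 * n := by
          exact_mod_cast h3
        have h5 : (0 : ℝ) ≤ q := Nat.cast_nonneg q
        push_cast
        nlinarith

theorem gg_add (q : ℕ) (a i : ℤ) : gg q (a + q * i) = gg q a := by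
  have h : ∀ A B : ℤ, SS A B q (a + q * i) 0 = SS A B q a 0 := fun A B => by
    rw [SS_eq, SS_eq]
    refine sum_congr rfl fun r _ => ?_
    rw [FF_zero, FF_zero]
    exact e_congr ⟨-(i * qf A B r), by ring⟩
  rw [gg, gg, h, h]

theorem gg_eq_zero {q : ℕ} (hq : 0 < q) {a : ℤ} (ha : IsCoprime a (q : ℤ))
    (h : ¬ q.Coprime 22) : gg q a = 0 := by
  have h1 : 2 ∣ q ∨ 11 ∣ q := by
    by_contra h2
    rw [not_or] at h2
    exact h (Nat.Coprime.mul_right ((Nat.prime_two.coprime_iff_not_dvd.2 h2.1).symm)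
      ((Nat.Prime.coprime_iff_not_dvd (by norm_num)).2 h2.2).symm)
  rcases h1 with ⟨w, hw⟩ | ⟨w, hw⟩
  · have hw0 : (w : ℤ) ≠ 0 := by omega
    have h2 : ¬ (q : ℤ) ∣ qf 1 0 q := fun ⟨t, ht⟩ => by
      have h3 := two_qf 1 0 q
      rw [ht, hw] at h3
      push_cast at h3
      have h4 : 2 * t = 2 * w + 1 := mul_left_cancel₀ (mul_ne_zero two_ne_zero hw0)
        (by linear_combination h3)
      omega
    rw [gg, SS_zero hq ha (dvd_mul_left _ _) h2, mul_zero, zero_div]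
  · have hw0 : (w : ℤ) ≠ 0 := by omega
    have h2 : ¬ (q : ℤ) ∣ qf 11 (-3) (2 * w) := fun ⟨t, ht⟩ => by
      have h3 := two_qf 11 (-3) (2 * w)
      rw [ht, hw] at h3
      push_cast at h3
      have h4 : 11 * t = 22 * w + 5 := mul_left_cancel₀ (mul_ne_zero two_ne_zero hw0)
        (by linear_combination h3)
      omega
    rw [gg, SS_zero hq ha ⟨2, by rw [hw]; push_cast; ring⟩ h2, zero_mul, zero_div]

theorem gg_eq {q : ℕ} (hq : 0 < q) {a c : ℤ} (ha : IsCoprime a (q : ℤ)) (h : q.Coprime 22)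
    (hc : (q : ℤ) ∣ 88 * c - 1) :
    gg q a = (chi q : ℂ) / q * ex (((36 * a * c : ℤ) : ℝ) / q) := by
  have h22 : IsCoprime (q : ℤ) 22 := Nat.isCoprime_iff_coprime.2 h
  have h2 : IsCoprime (q : ℤ) 2 := IsCoprime.of_mul_right_left (z := 11) h22
  have hc' : IsCoprime (q : ℤ) c := by
    obtain ⟨t, ht⟩ := hc
    exact ⟨-t, 88, by linear_combination ht⟩
  have s1 := SS_G (A := 11) (B := -3) (a := a) (b := -(a * c)) (v := 5) (t := 25 * a * c) h22
    fun r => hc.trans ⟨a * qf 11 (-3) r, by linear_combination (-(44 * a * c)) * two_qf 11 (-3) r⟩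
  have s2 := SS_G (A := 1) (B := 0) (a := a) (b := 11 * -(a * c)) (v := 1) (t := 11 * a * c) h2
    fun r => hc.trans ⟨a * qf 1 0 r, by linear_combination (-(44 * a * c)) * two_qf 1 0 r⟩
  have s3 := GG 11 q hq.ne' (-(a * c)) (by
    rw [mul_right_comm]
    exact h22.mul_right (ha.symm.mul_right hc').neg_right)
  have s4 : ex (((36 * a * c : ℤ) : ℝ) / q) = e q (25 * a * c) * e q (11 * a * c) := by
    rw [← e_add, e]
    congr 3
    ring
  have hq' : (q : ℂ) ≠ 0 := Nat.cast_ne_zero.2 hq.ne'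
  rw [gg, s1, s2, s4, chi, if_pos h]
  field_simp
  linear_combination (4 * e q (25 * a * c) * e q (11 * a * c)) * s3

theorem norm_gg_le {q : ℕ} (hq : 0 < q) {a : ℤ} (ha : IsCoprime a (q : ℤ)) :
    ‖gg q a‖ ≤ 1 / q := by
  by_cases h : q.Coprime 22
  · have h88 : IsCoprime (q : ℤ) 88 := Nat.isCoprime_iff_coprime.2
      (Nat.Coprime.coprime_dvd_right (by norm_num : 88 ∣ 22 ^ 3) (h.pow_right 3))
    obtain ⟨t, c, hc⟩ := h88
    rw [gg_eq hq ha h (c := c) ⟨-t, by linear_combination hc⟩, norm_mul,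
      Pool.Agent.MP_2a1f0e_nt.norm_ex, mul_one, norm_div, Complex.norm_natCast,
      Complex.norm_intCast]
    gcongr
    exact_mod_cast abs_chi_le q
  · rw [gg_eq_zero hq ha h, norm_zero]
    positivity

end Pool.Agent.MP_b9bf0c_nt
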