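import Pool.Agent.MP_b9bf0c_nt.Loc

/-!
Odd integers as x^2 + 2 y^2 + 3 z^2 with x + y + z a square: the theta series on the whole circle.
-/

set_option autoImplicit false

open Finset Complex
open scoped Real ArithmeticFunction.Moebius

noncomputable section

namespace Pool.Agent.MP_b9bf0c_nt

open Pool.Agent.MP_2a1f0e_nt (ex)
open Pool.Agent.MP_c903c4_nt (Red cc)

namespace Glob

theorem pt_re (M : ℕ) (β : ℝ) : (pt M β).re = 1 / (M : ℝ) ^ 2 := by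
  simp only [pt, add_re, ofReal_re, mul_re, I_re, ofReal_im, I_im]
  ring

theorem pt_im (M : ℕ) (β : ℝ) : (pt M β).im = β := by
  simp only [pt, add_im, ofReal_im, mul_im, ofReal_re, I_im, I_re]
  ring

theorem EE_shift (M : ℕ) (β : ℝ) (i : ℤ) : EE (pt M (β + i)) = EE (pt M β) := by
  have h : -(2 * (π : ℂ) * pt M (β + i)) = -(2 * π * pt M β) + ((-i : ℤ) : ℂ) * (2 * π * I) := by
    simp only [pt]
    push_cast
    ring
  simp only [EE]
  rw [h, Complex.exp_add, Complex.exp_int_mul_two_pi_mul_I, mul_one]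

theorem norm_EE_pt {M : ℕ} (hM : 2 ≤ M) {β : ℝ} (hβ : |β| ≤ 1 / 2) :
    ‖EE (pt M β)‖ ≤ 1 / ‖pt M β‖ := by
  have hM' : (2 : ℝ) ≤ M := by exact_mod_cast hM
  apply norm_EE_le
  · rw [pt_re]; positivity
  · rw [pt_re]
    apply one_div_le_one_div_of_le (by norm_num)
    nlinarith
  · rw [pt_im]; exact hβ

theorem norm_EE_sq {M : ℕ} (hM : 2 ≤ M) {β : ℝ} (hβ : |β| ≤ 1 / 2) :
    ‖EE (pt M β)‖ ≤ (M : ℝ) ^ 2 := by
  have hM' : (2 : ℝ) ≤ M := by exact_mod_cast hM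
  refine (norm_EE_pt hM hβ).trans ?_
  have h1 : 1 / (M : ℝ) ^ 2 ≤ ‖pt M β‖ := by
    rw [← pt_re M β]
    exact Complex.re_le_norm _
  have h2 : (0 : ℝ) < 1 / (M : ℝ) ^ 2 := by positivity
  calc 1 / ‖pt M β‖ ≤ 1 / (1 / (M : ℝ) ^ 2) := one_div_le_one_div_of_le h2 h1
    _ = (M : ℝ) ^ 2 := by rw [one_div_one_div]

theorem norm_EE_im {M : ℕ} (hM : 2 ≤ M) {β δ : ℝ} (hβ : |β| ≤ 1 / 2) (hδ : 0 < δ)
    (h : δ ≤ |β|) : ‖EE (pt M β)‖ ≤ 1 / δ := by
  refine (norm_EE_pt hM hβ).trans ?_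
  apply one_div_le_one_div_of_le hδ
  refine h.trans ?_
  have := Complex.abs_im_le_norm (pt M β)
  rwa [pt_im] at this

/-- The numerator nearest to `α q` in the class of `a`. -/
def nn (α : ℝ) (q a : ℕ) : ℤ := a + q * round (α - (a : ℝ) / q)

/-- The determinant of two fractions. -/
def DD (α : ℝ) (a0 : ℤ) (q0 : ℕ) (q a : ℕ) : ℤ := a0 * q - nn α q a * q0

theorem emod_toNat {q a : ℕ} (ha : a < q) (i : ℤ) : (((a : ℤ) + q * i) % q).toNat = a := by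
  rw [Int.add_mul_emod_self_left, Int.emod_eq_of_lt (by positivity) (by exact_mod_cast ha)]
  simp

theorem DD_ne {α : ℝ} {a0 : ℤ} {q0 q a : ℕ} (h0 : IsCoprime a0 (q0 : ℤ)) (hq0 : 0 < q0)
    (ha : a ∈ Red q) (hD : DD α a0 q0 q a = 0) :
    q = q0 ∧ a = (a0 % q0).toNat := by
  rw [Pool.Agent.MP_c903c4_nt.Four_memRed] at ha
  obtain ⟨h1, h2⟩ := ha
  have hc : IsCoprime (nn α q a) (q : ℤ) := by
    have : IsCoprime (a : ℤ) (q : ℤ) := Nat.isCoprime_iff_coprime.mpr h2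
    exact this.add_mul_left_left _
  have he : a0 * q = nn α q a * q0 := by
    unfold DD at hD
    linarith
  have d1 : (q0 : ℤ) ∣ q := by
    apply h0.symm.dvd_of_dvd_mul_left
    rw [he]
    exact dvd_mul_left _ _
  have d2 : (q : ℤ) ∣ q0 := by
    apply hc.symm.dvd_of_dvd_mul_left
    rw [← he]
    exact dvd_mul_left _ _
  have hq : q = q0 := Nat.dvd_antisymm (by exact_mod_cast d2) (by exact_mod_cast d1)
  subst hq
  refine ⟨rfl, ?_⟩
  have hq' : (q : ℤ) ≠ 0 := by exact_mod_cast hq0.ne'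
  have : a0 = nn α q a := mul_right_cancel₀ hq' he
  rw [this]
  exact (emod_toNat h1 _).symm

theorem term_le {M : ℕ} (hM : 2 ≤ M) {α : ℝ} {a0 : ℤ} {q0 q a : ℕ} (hq0 : 0 < q0) (hq0M : q0 ≤ M)
    (hβ : |α - (a0 : ℝ) / q0| ≤ 1 / ((q0 : ℝ) * M)) (hq : q ∈ Ioc 0 (M / 2)) (ha : a ∈ Red q)
    (hD : DD α a0 q0 q a ≠ 0) :
    ‖gg q a * EE (pt M (α - (a : ℝ) / q))‖ ≤ 2 * q0 / |(DD α a0 q0 q a : ℝ)| ∧
      (DD α a0 q0 q a).natAbs ≤ M ^ 2 := by
  rw [Pool.Agent.MP_c903c4_nt.Four_memRed] at ha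
  obtain ⟨-, h2⟩ := ha
  rw [mem_Ioc] at hq
  obtain ⟨hq1, hq2⟩ := hq
  have hq3 : 2 * q ≤ M := by omega
  have hqR : (0 : ℝ) < q := by exact_mod_cast hq1
  have hq0R : (0 : ℝ) < q0 := by exact_mod_cast hq0
  have hq3R : 2 * (q : ℝ) ≤ M := by exact_mod_cast hq3
  have hq0MR : (q0 : ℝ) ≤ M := by exact_mod_cast hq0M
  set i : ℤ := round (α - (a : ℝ) / q) with hi
  set b : ℝ := α - (a : ℝ) / q - i with hb
  have hb2 : |b| ≤ 1 / 2 := abs_sub_round _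
  set D : ℤ := DD α a0 q0 q a with hDdef
  have hD1 : (1 : ℝ) ≤ |(D : ℝ)| := by
    have : (1 : ℤ) ≤ |D| := Int.one_le_abs hD
    exact_mod_cast this
  have hbD : b = (α - (a0 : ℝ) / q0) + (D : ℝ) / (q * q0) := by
    rw [hb, hDdef]
    simp only [DD, nn, ← hi]
    push_cast
    field_simp
    ring
  have hsmall : |α - (a0 : ℝ) / q0| ≤ |(D : ℝ)| / (2 * q * q0) := by
    refine hβ.trans ?_
    rw [div_le_div_iff₀ (by nlinarith) (by positivity)]
    have h8 : (q0 : ℝ) * (2 * q) ≤ q0 * M := by gcongr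
    have h9 : 1 * ((q0 : ℝ) * M) ≤ |(D : ℝ)| * (q0 * M) :=
      mul_le_mul_of_nonneg_right hD1 (by nlinarith)
    linarith
  have hlow : |(D : ℝ)| / (2 * q * q0) ≤ |b| := by
    have h3 : |(D : ℝ) / (q * q0)| ≤ |b| + |α - (a0 : ℝ) / q0| := by
      have : (D : ℝ) / (q * q0) = b - (α - (a0 : ℝ) / q0) := by rw [hbD]; ring
      rw [this]
      exact abs_sub _ _
    rw [abs_div, abs_of_pos (by positivity : (0 : ℝ) < q * q0)] at h3
    have h4 : |(D : ℝ)| / (q * q0) = 2 * (|(D : ℝ)| / (2 * q * q0)) := by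
      field_simp
    linarith
  have hpos : 0 < |(D : ℝ)| / (2 * q * q0) := by positivity
  constructor
  · have e1 : EE (pt M (α - (a : ℝ) / q)) = EE (pt M b) := by
      rw [← EE_shift M b i]
      congr 2
      rw [hb]
      ring
    rw [norm_mul, e1]
    have g1 : ‖gg q a‖ ≤ 1 / q := norm_gg_le hq1 (Nat.isCoprime_iff_coprime.mpr h2)
    have g2 := norm_EE_im hM hb2 hpos hlow
    calc ‖gg q a‖ * ‖EE (pt M b)‖ ≤ 1 / q * (1 / (|(D : ℝ)| / (2 * q * q0))) := by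
          gcongr
      _ = 2 * q0 / |(D : ℝ)| := by
          field_simp
  · have h5 : |(D : ℝ)| ≤ (M : ℝ) ^ 2 := by
      have h6 := hlow.trans hb2
      rw [div_le_iff₀ (by positivity)] at h6
      have : (q : ℝ) * q0 ≤ M * M := by
        apply mul_le_mul (by linarith) hq0MR hq0R.le (by linarith)
      nlinarith
    have h7 : |D| ≤ (M : ℤ) ^ 2 := by exact_mod_cast h5
    zify
    exact h7

theorem inj {α : ℝ} {a0 : ℤ} {q0 q a q' a' : ℕ} (h0 : IsCoprime a0 (q0 : ℤ)) (hq0 : 0 < q0)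
    (ha : a < q) (ha' : a' < q') (hD : DD α a0 q0 q a = DD α a0 q0 q' a')
    (hk : q / q0 = q' / q0) : q = q' ∧ a = a' := by
  have d1 : (q0 : ℤ) ∣ (q' : ℤ) - q := by
    apply h0.symm.dvd_of_dvd_mul_left
    refine ⟨nn α q' a' - nn α q a, ?_⟩
    unfold DD at hD
    linarith
  have hmod : q % q0 = q' % q0 := (Nat.modEq_iff_dvd).mpr d1
  have hq : q = q' := by
    rw [← Nat.div_add_mod q q0, ← Nat.div_add_mod q' q0, hk, hmod]
  subst hq
  refine ⟨rfl, ?_⟩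
  have hq' : (q0 : ℤ) ≠ 0 := by exact_mod_cast hq0.ne'
  have h1 : nn α q a = nn α q a' := by
    apply mul_right_cancel₀ hq'
    unfold DD at hD
    linarith
  rw [← emod_toNat ha (round (α - (a : ℝ) / q)), ← emod_toNat ha' (round (α - (a' : ℝ) / q))]
  exact congrArg (fun x : ℤ => (x % q).toNat) h1

theorem harm_le (N : ℕ) : ∑ n ∈ Icc 1 N, 1 / (n : ℝ) ≤ 1 + Real.log N := by
  have h := harmonic_le_one_add_log N
  rw [harmonic_eq_sum_Icc] at h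
  push_cast at h
  simpa only [one_div] using h

theorem rest_le {M : ℕ} (hM : 2 ≤ M) {α : ℝ} {a0 : ℤ} {q0 : ℕ} (h0 : IsCoprime a0 (q0 : ℤ))
    (hq0 : 0 < q0) (hq0M : q0 ≤ M) (hβ : |α - (a0 : ℝ) / q0| ≤ 1 / ((q0 : ℝ) * M)) :
    ‖∑ p ∈ ((Ioc 0 (M / 2)).sigma Red).erase ⟨q0, (a0 % q0).toNat⟩,
      gg p.1 p.2 * EE (pt M (α - (p.2 : ℝ) / p.1))‖ ≤ 24 * M * (1 + Real.log M) := by
  classical
  set S : Finset (Σ _ : ℕ, ℕ) := ((Ioc 0 (M / 2)).sigma Red).erase ⟨q0, (a0 % q0).toNat⟩ with hS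
  have hmem : ∀ p ∈ S, p.1 ∈ Ioc 0 (M / 2) ∧ p.2 ∈ Red p.1 ∧ DD α a0 q0 p.1 p.2 ≠ 0 := by
    intro p hp
    rw [hS, mem_erase, mem_sigma] at hp
    refine ⟨hp.2.1, hp.2.2, fun hD => hp.1 ?_⟩
    obtain ⟨e1, e2⟩ := DD_ne h0 hq0 hp.2.2 hD
    obtain ⟨q, a⟩ := p
    simp only at e1 e2
    subst e1
    rw [e2]
  let g : (Σ _ : ℕ, ℕ) → ℕ × ℤ × ℕ := fun p =>
    ((DD α a0 q0 p.1 p.2).natAbs, (DD α a0 q0 p.1 p.2).sign, p.1 / q0)
  let f : ℕ × ℤ × ℕ → ℝ := fun x => 2 * q0 * (1 / (x.1 : ℝ))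
  let T : Finset (ℕ × ℤ × ℕ) := Icc 1 (M ^ 2) ×ˢ (Icc (-1 : ℤ) 1 ×ˢ range (M / q0 + 1))
  have hinj : Set.InjOn g S := by
    intro p hp p' hp' h
    obtain ⟨-, h2, -⟩ := hmem p hp
    obtain ⟨-, h2', -⟩ := hmem p' hp'
    rw [Pool.Agent.MP_c903c4_nt.Four_memRed] at h2 h2'
    simp only [g, Prod.mk.injEq] at h
    obtain ⟨e1, e2, e3⟩ := h
    have hD : DD α a0 q0 p.1 p.2 = DD α a0 q0 p'.1 p'.2 := by
      rw [← Int.sign_mul_natAbs (DD α a0 q0 p.1 p.2), ← Int.sign_mul_natAbs (DD α a0 q0 p'.1 p'.2),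
        e1, e2]
    obtain ⟨e4, e5⟩ := inj h0 hq0 h2.1 h2'.1 hD e3
    obtain ⟨q, a⟩ := p
    obtain ⟨q', a'⟩ := p'
    simp only at e4 e5
    subst e4
    rw [e5]
  have hsub : S.image g ⊆ T := by
    intro x hx
    rw [mem_image] at hx
    obtain ⟨p, hp, rfl⟩ := hx
    obtain ⟨h1, h2, h3⟩ := hmem p hp
    have h4 := (term_le hM hq0 hq0M hβ h1 h2 h3).2
    simp only [g, T, mem_product, mem_Icc, mem_range]
    refine ⟨⟨Int.natAbs_pos.mpr h3, h4⟩, ?_, ?_⟩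
    · rcases lt_trichotomy (DD α a0 q0 p.1 p.2) 0 with h | h | h
      · rw [Int.sign_eq_neg_one_of_neg h]; omega
      · exact absurd h h3
      · rw [Int.sign_eq_one_of_pos h]; omega
    · rw [mem_Ioc] at h1
      have : p.1 / q0 ≤ M / q0 := Nat.div_le_div_right (by omega)
      omega
  have hq0R : (0 : ℝ) < q0 := by exact_mod_cast hq0
  have hq0MR : (q0 : ℝ) ≤ M := by exact_mod_cast hq0M
  have hM' : (2 : ℝ) ≤ M := by exact_mod_cast hM
  have hlog : 0 ≤ Real.log M := Real.log_nonneg (by linarith)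
  calc ‖∑ p ∈ S, gg p.1 p.2 * EE (pt M (α - (p.2 : ℝ) / p.1))‖
      ≤ ∑ p ∈ S, ‖gg p.1 p.2 * EE (pt M (α - (p.2 : ℝ) / p.1))‖ := norm_sum_le _ _
    _ ≤ ∑ p ∈ S, f (g p) := by
        apply sum_le_sum
        intro p hp
        obtain ⟨h1, h2, h3⟩ := hmem p hp
        refine (term_le hM hq0 hq0M hβ h1 h2 h3).1.trans (le_of_eq ?_)
        simp only [f, g, Nat.cast_natAbs, Int.cast_abs]
        ring
    _ = ∑ x ∈ S.image g, f x := (sum_image hinj).symm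
    _ ≤ ∑ x ∈ T, f x := by
        apply sum_le_sum_of_subset_of_nonneg hsub
        intro x _ _
        simp only [f]
        positivity
    _ = (3 * ((M / q0 + 1 : ℕ) : ℝ)) * (2 * q0) * ∑ n ∈ Icc 1 (M ^ 2), 1 / (n : ℝ) := by
        simp only [T, f, sum_product, sum_const, card_product, card_range, nsmul_eq_mul, mul_sum]
        apply sum_congr rfl
        intro n _
        have : (Icc (-1 : ℤ) 1).card = 3 := by decide
        rw [this]
        push_cast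
        ring
    _ ≤ (12 * M) * (1 + Real.log ((M ^ 2 : ℕ) : ℝ)) := by
        apply mul_le_mul _ (harm_le _) (sum_nonneg fun n _ => by positivity) (by positivity)
        have h1 : ((M / q0 : ℕ) : ℝ) * q0 ≤ M := by exact_mod_cast Nat.div_mul_le_self M q0
        rw [Nat.cast_add, Nat.cast_one]
        nlinarith
    _ ≤ 24 * M * (1 + Real.log M) := by
        rw [Nat.cast_pow, Real.log_pow]
        push_cast
        nlinarith

theorem sum_sub_le {M : ℕ} (hM : 2 ≤ M) {α : ℝ} {a0 : ℤ} {q0 : ℕ} (h0 : IsCoprime a0 (q0 : ℤ))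
    (hq0 : 0 < q0) (hq0M : q0 ≤ M) (hβ : |α - (a0 : ℝ) / q0| ≤ 1 / ((q0 : ℝ) * M)) :
    ‖gg q0 a0 * EE (pt M (α - (a0 : ℝ) / q0)) - ∑ q ∈ Ioc 0 (M / 2), ∑ a ∈ Red q,
      gg q a * EE (pt M (α - (a : ℝ) / q))‖ ≤ 26 * M * (1 + Real.log M) := by
  classical
  have hr := rest_le hM h0 hq0 hq0M hβ
  have hq0R : (0 : ℝ) < q0 := by exact_mod_cast hq0
  have hq01 : (1 : ℝ) ≤ q0 := by exact_mod_cast hq0
  have hM' : (2 : ℝ) ≤ M := by exact_mod_cast hM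
  have hlog : 0 ≤ Real.log M := Real.log_nonneg (by linarith)
  rw [sum_sigma' (Ioc 0 (M / 2)) Red (fun q a => gg q a * EE (pt M (α - (a : ℝ) / q)))]
  by_cases hs : q0 ≤ M / 2
  · have hq0Z : (0 : ℤ) < q0 := by exact_mod_cast hq0
    have hnn : 0 ≤ a0 % q0 := Int.emod_nonneg _ hq0Z.ne'
    have hcast : (((a0 % q0).toNat : ℕ) : ℤ) = a0 % q0 := Int.toNat_of_nonneg hnn
    have hdec : a0 = (((a0 % q0).toNat : ℕ) : ℤ) + q0 * (a0 / q0) := by
      rw [hcast]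
      exact (Int.emod_add_mul_ediv a0 q0).symm
    have hin : (⟨q0, (a0 % q0).toNat⟩ : Σ _ : ℕ, ℕ) ∈ (Ioc 0 (M / 2)).sigma Red := by
      rw [mem_sigma, mem_Ioc, Pool.Agent.MP_c903c4_nt.Four_memRed]
      refine ⟨⟨hq0, hs⟩, ?_, ?_⟩
      · have := Int.emod_lt_of_pos a0 hq0Z
        simp only
        omega
      · simp only
        rw [← Nat.isCoprime_iff_coprime]
        rw [hdec] at h0
        exact h0.of_add_mul_left_left
    rw [← add_sum_erase _ _ hin]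
    have e1 : gg q0 ((a0 % q0).toNat : ℕ) = gg q0 a0 := by
      rw [← gg_add q0 _ (a0 / q0), ← hdec]
    have e2 : EE (pt M (α - (((a0 % q0).toNat : ℕ) : ℝ) / q0)) =
        EE (pt M (α - (a0 : ℝ) / q0)) := by
      rw [← EE_shift M (α - (a0 : ℝ) / q0) (a0 / q0)]
      congr 2
      have h1 : (a0 : ℝ) = (((a0 % q0).toNat : ℕ) : ℝ) + q0 * ((a0 / q0 : ℤ) : ℝ) := by
        exact_mod_cast hdec
      rw [h1]
      field_simp
      ring
    simp only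
    rw [e1, e2, sub_add_cancel_left, norm_neg]
    refine hr.trans ?_
    nlinarith
  · have hnot : (⟨q0, (a0 % q0).toNat⟩ : Σ _ : ℕ, ℕ) ∉ (Ioc 0 (M / 2)).sigma Red := by
      rw [mem_sigma, mem_Ioc]
      exact fun h => hs h.1.2
    rw [erase_eq_of_notMem hnot] at hr
    refine (norm_sub_le _ _).trans ?_
    have hb2 : |α - (a0 : ℝ) / q0| ≤ 1 / 2 := by
      refine hβ.trans (one_div_le_one_div_of_le (by norm_num) ?_)
      nlinarith
    have g1 : ‖gg q0 a0‖ ≤ 1 / q0 := norm_gg_le hq0 h0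
    have g2 := norm_EE_sq hM hb2
    have h2 : (M : ℝ) ≤ 2 * q0 := by
      have : M ≤ 2 * q0 := by omega
      exact_mod_cast this
    have g3 : ‖gg q0 a0 * EE (pt M (α - (a0 : ℝ) / q0))‖ ≤ 2 * M := by
      rw [norm_mul]
      calc ‖gg q0 a0‖ * ‖EE (pt M (α - (a0 : ℝ) / q0))‖ ≤ 1 / q0 * (M : ℝ) ^ 2 := by gcongr
        _ ≤ 2 * M := by
          rw [one_div_mul_eq_div, div_le_iff₀ hq0R]
          nlinarith
    nlinarith

end Glob

theorem theta_approx : ∃ C : ℝ, 0 < C ∧ ∀ (M : ℕ) (α : ℝ), 2 ≤ M →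
    ‖th (pt M α) - kap * ∑ q ∈ Ioc 0 (M / 2), ∑ a ∈ Red q,
      gg q a * EE (pt M (α - (a : ℝ) / q))‖ ≤ C * M * (1 + Real.log M) := by
  obtain ⟨C, hC, h⟩ := theta_loc
  refine ⟨C + 26 * ‖kap‖, by positivity, fun M α hM => ?_⟩
  obtain ⟨r, hr1, hr2⟩ := Real.exists_rat_abs_sub_le_and_den_le α (n := M) (by omega)
  have hM' : (2 : ℝ) ≤ M := by exact_mod_cast hM
  have hlog : 0 ≤ Real.log M := Real.log_nonneg (by linarith)
  have hq0R : (0 : ℝ) < r.den := by exact_mod_cast r.den_pos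
  have h0 : IsCoprime r.num (r.den : ℤ) := by
    rw [Int.isCoprime_iff_gcd_eq_one]
    exact r.reduced
  have hβ : |α - (r.num : ℝ) / r.den| ≤ 1 / ((r.den : ℝ) * M) := by
    rw [← Rat.cast_def]
    refine hr1.trans (one_div_le_one_div_of_le (by positivity) ?_)
    nlinarith
  have h1 := h M r.den r.num _ hM r.den_pos hr2 h0 hβ
  rw [add_sub_cancel] at h1
  have h2 := Glob.sum_sub_le hM h0 r.den_pos hr2 hβ
  set X := ∑ q ∈ Ioc 0 (M / 2), ∑ a ∈ Red q, gg q a * EE (pt M (α - (a : ℝ) / q))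
  set L := EE (pt M (α - (r.num : ℝ) / r.den))
  have e : th (pt M α) - kap * X =
      (th (pt M α) - kap * gg r.den r.num * L) + kap * (gg r.den r.num * L - X) := by ring
  rw [e]
  refine (norm_add_le _ _).trans ?_
  rw [norm_mul]
  have h3 : ‖kap‖ * ‖gg r.den r.num * L - X‖ ≤ ‖kap‖ * (26 * M * (1 + Real.log M)) := by gcongr
  have h4 : C * M ≤ C * M * (1 + Real.log M) := by
    have : 0 ≤ C * M := by positivity
    nlinarith
  nlinarith

end Pool.Agent.MP_b9bf0c_nt
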