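import Pool.Agent.MP_b9bf0c_nt.Arith

/-!
Odd integers as x^2 + 2 y^2 + 3 z^2 with x + y + z a square: collisions and the large sieve.
-/

set_option autoImplicit false

open Finset Complex
open scoped Real ArithmeticFunction.Moebius

noncomputable section

namespace Pool.Agent.MP_b9bf0c_nt

open Pool.Agent.MP_2a1f0e_nt (ex)
open Pool.Agent.MP_c903c4_nt (Red cc)

namespace LS

theorem harm (L : ℕ) : ∑ m ∈ range L, 1 / ((m : ℝ) + 1) ≤ 1 + Real.log L := by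
  have h := harmonic_le_one_add_log L
  unfold harmonic at h
  push_cast at h
  simpa only [one_div] using h

theorem harm' (a L : ℕ) : ∑ q ∈ Ioc a L, 1 / (q : ℝ) ≤ 1 + Real.log L := by
  have h := harmonic_le_one_add_log L
  rw [harmonic_eq_sum_Icc] at h
  push_cast at h
  refine le_trans ?_ h
  simp only [one_div]
  refine sum_le_sum_of_subset_of_nonneg (fun q hq => ?_) fun _ _ _ => by positivity
  rw [mem_Ioc] at hq
  rw [mem_Icc]
  omega

theorem divcount {τ : ℝ} {L : ℕ} (hτ : Dv τ (33 ^ 4 * L ^ 4)) {s t : ℕ} (hs : s < L) (ht : t < L)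
    (hst : s ≠ t) (B : Finset ℕ) :
    ((B.filter fun q : ℕ => (q : ℤ) ∣ PP s - PP t).card : ℝ) ≤ τ := by
  have h0 : (PP s - PP t).natAbs ≠ 0 := fun h =>
    hst (PP_inj (sub_eq_zero.1 (Int.natAbs_eq_zero.1 h)))
  have h1 : (PP s - PP t).natAbs ≤ 33 ^ 4 * L ^ 4 := by
    have a1 := PP_le hs
    have a2 := PP_le ht
    have a3 := PP_pos s
    have a4 := PP_pos t
    zify
    rw [abs_le]
    constructor <;> linarith
  refine le_trans ?_ (hτ _ h0 h1)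
  exact_mod_cast card_le_card fun q hq =>
    Nat.mem_divisors.2 ⟨Int.natCast_dvd.1 (mem_filter.1 hq).2, h0⟩

theorem col_eq (T q : ℕ) : (col T q : ℝ) =
    ∑ s ∈ range T, ∑ t ∈ range T, if (q : ℤ) ∣ PP s - PP t then (1 : ℝ) else 0 := by
  unfold col cc
  rw [card_filter, ← sum_product']
  push_cast
  rfl

theorem col_mono {r T : ℕ} (h : r ≤ T) (q : ℕ) : col r q ≤ col T q :=
  card_le_card (filter_subset_filter _
    (product_subset_product (range_subset_range.2 h) (range_subset_range.2 h)))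

/-- one pair off the diagonal -/
theorem pair {τ : ℝ} {L : ℕ} (hτ : Dv τ (33 ^ 4 * L ^ 4)) {s t : ℕ} (hs : s < L) (ht : t < L)
    (hst : s ≠ t) (B : Finset ℕ) (w : ℕ → ℝ) {M : ℝ} (hM : 0 ≤ M) (hw : ∀ q ∈ B, w q ≤ M) :
    ∑ q ∈ B, (if (q : ℤ) ∣ PP s - PP t then w q else 0) ≤ τ * M := by
  rw [← sum_filter]
  refine (sum_le_card_nsmul _ _ M fun q hq => hw q (mem_filter.1 hq).1).trans ?_
  rw [nsmul_eq_mul]
  exact mul_le_mul_of_nonneg_right (divcount hτ hs ht hst B) hM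

theorem sum_max (L : ℕ) :
    ∑ s ∈ range L, ∑ t ∈ range L, 1 / (((max s t : ℕ) : ℝ) + 1) ^ 2 ≤
      2 * ∑ m ∈ range L, 1 / ((m : ℝ) + 1) := by
  induction L with
  | zero => simp
  | succ L ih =>
    simp only [sum_range_succ, sum_add_distrib, max_self]
    have h1 : ∑ s ∈ range L, 1 / (((max s L : ℕ) : ℝ) + 1) ^ 2 = L * (1 / ((L : ℝ) + 1) ^ 2) := by
      rw [sum_congr rfl fun s hs => by rw [max_eq_right (mem_range.1 hs).le]]
      simp
    have h2 : ∑ s ∈ range L, 1 / (((max L s : ℕ) : ℝ) + 1) ^ 2 = L * (1 / ((L : ℝ) + 1) ^ 2) := by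
      rw [sum_congr rfl fun s hs => by rw [max_eq_left (mem_range.1 hs).le]]
      simp
    have h3 : 2 * (L * (1 / ((L : ℝ) + 1) ^ 2)) + 1 / ((L : ℝ) + 1) ^ 2 ≤ 2 * (1 / ((L : ℝ) + 1)) := by
      have : 2 * (1 / ((L : ℝ) + 1)) - (2 * (L * (1 / ((L : ℝ) + 1) ^ 2)) + 1 / ((L : ℝ) + 1) ^ 2)
          = 1 / ((L : ℝ) + 1) ^ 2 := by
        field_simp
        ring
      have h4 : 0 ≤ 1 / ((L : ℝ) + 1) ^ 2 := by positivity
      linarith
    rw [h1, h2]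
    linarith

theorem GT_add {q : ℕ} (hq : 0 < q) (a n : ℕ) :
    GT (q + n) ((a : ℝ) / q) = GT q ((a : ℝ) / q) + GT n ((a : ℝ) / q) := by
  unfold GT
  rw [sum_range_add]
  congr 1
  refine sum_congr rfl fun i _ => ?_
  obtain ⟨k, hk⟩ := PP_dvd q ((q + i : ℕ) : ℤ) i ⟨1, by push_cast; ring⟩
  have hq' : (q : ℝ) ≠ 0 := by positivity
  have e : -((a : ℝ) / q * (PP ((q + i : ℕ) : ℤ) : ℝ)) =
      -((a : ℝ) / q * (PP i : ℝ)) + ((-(a * k) : ℤ) : ℝ) := by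
    have : (PP ((q + i : ℕ) : ℤ) : ℝ) = PP i + q * k := by
      exact_mod_cast (by linear_combination hk : PP ((q + i : ℕ) : ℤ) = PP i + q * k)
    rw [this]
    push_cast
    field_simp
    ring
  rw [e, Pool.Agent.MP_2a1f0e_nt.ex_add, Pool.Agent.MP_2a1f0e_nt.ex_int, mul_one]

theorem GT_mul {q : ℕ} (hq : 0 < q) (a r m : ℕ) :
    GT (q * m + r) ((a : ℝ) / q) = m * GT q ((a : ℝ) / q) + GT r ((a : ℝ) / q) := by
  induction m with
  | zero => simp
  | succ m ih =>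
    rw [show q * (m + 1) + r = q + (q * m + r) by ring, GT_add hq, ih]
    push_cast
    ring

theorem GT_parseval (T : ℕ) {q : ℕ} (hq : 0 < q) :
    ∑ a ∈ Red q, ‖GT T ((a : ℝ) / q)‖ ^ 2 ≤ q * (col T q : ℝ) := by
  have h := Pool.Agent.MP_c903c4_nt.parseval (range T) (fun s : ℕ => -PP s) hq
  have e : cc (range T) (fun s : ℕ => -PP s) q = col T q := by
    unfold col cc
    congr 1
    refine filter_congr fun x _ => ?_
    rw [show -PP x.1 - -PP x.2 = -(PP x.1 - PP x.2) by ring, dvd_neg]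
  rw [e] at h
  refine le_trans (le_of_eq (sum_congr rfl fun a _ => ?_)) h
  unfold GT
  congr 2
  refine sum_congr rfl fun s _ => ?_
  congr 1
  push_cast
  ring

theorem gg_sq {q a : ℕ} (hq : 0 < q) (ha : a ∈ Red q) : ‖gg q a‖ ^ 2 ≤ 1 / (q : ℝ) ^ 2 := by
  have h := norm_gg_le hq
    (Nat.isCoprime_iff_coprime.2 (Pool.Agent.MP_c903c4_nt.Four_memRed.1 ha).2)
  calc ‖gg q a‖ ^ 2 ≤ (1 / (q : ℝ)) ^ 2 := pow_le_pow_left₀ (norm_nonneg _) h 2
    _ = 1 / (q : ℝ) ^ 2 := by rw [one_div_pow]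

theorem ls' (Q : ℕ) {N : ℕ} (hN : 1 ≤ N) (u : ℕ → ℕ → ℂ) :
    ∑ ν ∈ Ioc 0 N, ‖∑ q ∈ Ioc 0 Q, ∑ a ∈ Red q, u q a * ex ((a : ℝ) * ν / q)‖ ^ 2 ≤
      24 * (2 * N + (Q : ℝ) ^ 2) * ∑ q ∈ Ioc 0 Q, ∑ a ∈ Red q, ‖u q a‖ ^ 2 := by
  have h := Pool.Agent.MP_c903c4_nt.ls 1 Q 0 N hN (Ioc 0 Q)
    (fun q hq => mem_filter.2 ⟨hq, Nat.coprime_one_right q⟩) u
  simpa only [zero_add, Nat.cast_one, one_mul] using h

theorem small_term {T q : ℕ} (hq : 0 < q) (hqT : q ≤ T) :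
    ∑ a ∈ Red q, ‖gg q a * (GT T ((a : ℝ) / q) - T * (GT q ((a : ℝ) / q) / q))‖ ^ 2 ≤
      4 * T * ((col q q : ℝ) / (q : ℝ) ^ 2) := by
  have hq' : (0 : ℝ) < q := by exact_mod_cast hq
  have hr : T % q < q := Nat.mod_lt _ hq
  have h1 : ∀ a ∈ Red q, ‖gg q a * (GT T ((a : ℝ) / q) - T * (GT q ((a : ℝ) / q) / q))‖ ^ 2 ≤
      1 / (q : ℝ) ^ 2 * (2 * ‖GT (T % q) ((a : ℝ) / q)‖ ^ 2 + 2 * ‖GT q ((a : ℝ) / q)‖ ^ 2) := by
    intro a ha
    rw [norm_mul, mul_pow]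
    refine mul_le_mul (gg_sq hq ha) ?_ (by positivity) (by positivity)
    have e : GT T ((a : ℝ) / q) - T * (GT q ((a : ℝ) / q) / q) =
        GT (T % q) ((a : ℝ) / q) - (((T % q : ℕ) : ℂ) / q) * GT q ((a : ℝ) / q) := by
      have e1 := GT_mul hq a (T % q) (T / q)
      rw [Nat.div_add_mod] at e1
      have e2 : (T : ℂ) = q * (T / q : ℕ) + (T % q : ℕ) := by
        exact_mod_cast (Nat.div_add_mod T q).symm
      have hq0 : (q : ℂ) ≠ 0 := by exact_mod_cast hq.ne'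
      rw [e1, e2]
      field_simp
      ring
    have h2 : ‖(((T % q : ℕ) : ℂ) / q) * GT q ((a : ℝ) / q)‖ ≤ ‖GT q ((a : ℝ) / q)‖ := by
      rw [norm_mul, norm_div, Complex.norm_natCast, Complex.norm_natCast]
      refine mul_le_of_le_one_left (norm_nonneg _) ?_
      rw [div_le_one hq']
      exact_mod_cast hr.le
    have h3 := norm_sub_le (GT (T % q) ((a : ℝ) / q))
      ((((T % q : ℕ) : ℂ) / q) * GT q ((a : ℝ) / q))
    rw [e]
    have h4 := pow_le_pow_left₀ (norm_nonneg _) (h3.trans (add_le_add le_rfl h2)) 2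
    nlinarith [sq_nonneg (‖GT (T % q) ((a : ℝ) / q)‖ - ‖GT q ((a : ℝ) / q)‖)]
  refine (sum_le_sum h1).trans ?_
  rw [← mul_sum, sum_add_distrib, ← mul_sum, ← mul_sum]
  have h2 := GT_parseval (T % q) hq
  have h3 := GT_parseval q hq
  have h4 : (col (T % q) q : ℝ) ≤ col q q := by exact_mod_cast col_mono hr.le q
  have h5 : (q : ℝ) ≤ T := by exact_mod_cast hqT
  have h6 : (0 : ℝ) ≤ col q q := by positivity
  have h7 : 2 * ∑ a ∈ Red q, ‖GT (T % q) ((a : ℝ) / q)‖ ^ 2 +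
      2 * ∑ a ∈ Red q, ‖GT q ((a : ℝ) / q)‖ ^ 2 ≤ 4 * T * (col q q : ℝ) := by
    nlinarith [mul_le_mul_of_nonneg_left h4 hq'.le, mul_le_mul_of_nonneg_right h5 h6]
  calc _ ≤ 1 / (q : ℝ) ^ 2 * (4 * T * (col q q : ℝ)) :=
        mul_le_mul_of_nonneg_left h7 (by positivity)
    _ = _ := by ring

theorem big_term (T : ℕ) {q : ℕ} (hq : 0 < q) :
    ∑ a ∈ Red q, ‖gg q a * GT T ((a : ℝ) / q)‖ ^ 2 ≤ (col T q : ℝ) / q := by
  have hq' : (0 : ℝ) < q := by exact_mod_cast hq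
  have h1 : ∀ a ∈ Red q, ‖gg q a * GT T ((a : ℝ) / q)‖ ^ 2 ≤
      1 / (q : ℝ) ^ 2 * ‖GT T ((a : ℝ) / q)‖ ^ 2 := by
    intro a ha
    rw [norm_mul, mul_pow]
    exact mul_le_mul_of_nonneg_right (gg_sq hq ha) (by positivity)
  refine (sum_le_sum h1).trans ?_
  rw [← mul_sum]
  calc _ ≤ 1 / (q : ℝ) ^ 2 * (q * (col T q : ℝ)) :=
        mul_le_mul_of_nonneg_left (GT_parseval T hq) (by positivity)
    _ = _ := by field_simp

end LS

theorem col_small {τ : ℝ} {L : ℕ} (hτ : Dv τ (33 ^ 4 * L ^ 4)) (hL : 1 ≤ L) :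
    ∑ q ∈ Ioc 0 L, (col q q : ℝ) / (q : ℝ) ^ 2 ≤ 3 * τ * (1 + Real.log L) := by
  have hτ1 : 1 ≤ τ := hτ.one_le (Nat.one_le_iff_ne_zero.2 (by positivity))
  have h1 : ∀ q ∈ Ioc 0 L, (col q q : ℝ) / (q : ℝ) ^ 2 ≤ 1 / (q : ℝ) +
      ∑ s ∈ range L, ∑ t ∈ range L, if s = t then 0 else
        (if (q : ℤ) ∣ PP s - PP t then (if max s t < q then 1 / (q : ℝ) ^ 2 else 0) else 0) := by
    intro q hq
    rw [mem_Ioc] at hq
    have hq' : (0 : ℝ) < q := by exact_mod_cast hq.1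
    have e : 1 / (q : ℝ) = ∑ s ∈ range q, ∑ t ∈ range q, if s = t then 1 / (q : ℝ) ^ 2 else 0 := by
      rw [sum_congr rfl fun s hs => by rw [sum_ite_eq, if_pos hs]]
      simp only [sum_const, card_range, nsmul_eq_mul]
      field_simp
    have h2 : ∀ s t : ℕ, (0 : ℝ) ≤ if s = t then 0 else
        (if (q : ℤ) ∣ PP s - PP t then (if max s t < q then 1 / (q : ℝ) ^ 2 else 0) else 0) := by
      intro s t
      split_ifs <;> positivity
    refine le_trans ?_ (add_le_add le_rfl (sum_le_sum_of_subset_of_nonneg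
      (range_subset_range.2 hq.2) fun s _ _ => sum_nonneg fun t _ => h2 s t))
    refine le_trans ?_ (add_le_add le_rfl (sum_le_sum fun s _ => sum_le_sum_of_subset_of_nonneg
      (range_subset_range.2 hq.2) fun t _ _ => h2 s t))
    rw [e, LS.col_eq, ← sum_add_distrib, sum_div]
    refine sum_le_sum fun s hs => ?_
    rw [← sum_add_distrib, sum_div]
    refine sum_le_sum fun t ht => ?_
    have h3 : max s t < q := max_lt (mem_range.1 hs) (mem_range.1 ht)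
    rw [if_pos h3]
    split_ifs <;> simp
  refine (sum_le_sum h1).trans ?_
  rw [sum_add_distrib, sum_comm]
  have h2 : ∑ s ∈ range L, ∑ q ∈ Ioc 0 L, ∑ t ∈ range L, (if s = t then 0 else
      (if (q : ℤ) ∣ PP s - PP t then (if max s t < q then 1 / (q : ℝ) ^ 2 else 0) else 0)) ≤
      ∑ s ∈ range L, ∑ t ∈ range L, τ * (1 / (((max s t : ℕ) : ℝ) + 1) ^ 2) := by
    refine sum_le_sum fun s hs => ?_
    rw [sum_comm]
    refine sum_le_sum fun t ht => ?_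
    by_cases hst : s = t
    · simp only [if_pos hst, sum_const_zero]
      positivity
    · simp only [if_neg hst]
      refine LS.pair hτ (mem_range.1 hs) (mem_range.1 ht) hst _ _ (by positivity) fun q _ => ?_
      split_ifs with h
      · refine one_div_le_one_div_of_le (by positivity) (pow_le_pow_left₀ (by positivity) ?_ 2)
        exact_mod_cast h
      · positivity
  simp only [← mul_sum] at h2
  have h3 := LS.sum_max L
  have h4 := LS.harm L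
  have h5 := LS.harm' 0 L
  have h6 : 0 ≤ Real.log L := Real.log_natCast_nonneg L
  have h7 := mul_le_mul_of_nonneg_left (h3.trans (mul_le_mul_of_nonneg_left h4 zero_le_two))
    (zero_le_one.trans hτ1)
  nlinarith

theorem col_big {τ : ℝ} {T : ℕ} (hτ : Dv τ (33 ^ 4 * T ^ 4)) (hT : 1 ≤ T) {Q : ℕ} (hQ : 1 ≤ Q) :
    ∑ q ∈ Ioc T Q, (col T q : ℝ) / q ≤ 2 * τ * T * (1 + Real.log Q) := by
  have hτ1 : 1 ≤ τ := hτ.one_le (Nat.one_le_iff_ne_zero.2 (by positivity))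
  have hT' : (0 : ℝ) < T := by exact_mod_cast hT
  have h6 : 0 ≤ Real.log Q := Real.log_natCast_nonneg Q
  simp only [LS.col_eq, sum_div]
  rw [sum_comm]
  have h2 : ∀ s ∈ range T, ∑ q ∈ Ioc T Q, ∑ t ∈ range T,
      (if (q : ℤ) ∣ PP s - PP t then (1 : ℝ) else 0) / q ≤ (1 + Real.log Q) + τ := by
    intro s hs
    rw [sum_comm]
    have h3 : ∀ t ∈ range T, ∑ q ∈ Ioc T Q, (if (q : ℤ) ∣ PP s - PP t then (1 : ℝ) else 0) / q ≤
        (if s = t then 1 + Real.log Q else 0) + τ * (1 / T) := by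
      intro t ht
      by_cases hst : s = t
      · rw [if_pos hst]
        refine le_add_of_le_of_nonneg (le_trans (sum_le_sum fun q _ => ?_) (LS.harm' T Q))
          (by positivity)
        split_ifs
        · exact le_rfl
        · simp
      · rw [if_neg hst, zero_add]
        simp only [ite_div, zero_div]
        refine LS.pair hτ (mem_range.1 hs) (mem_range.1 ht) hst _ _ (by positivity) fun q hq => ?_
        refine one_div_le_one_div_of_le hT' ?_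
        exact_mod_cast (mem_Ioc.1 hq).1.le
    refine (sum_le_sum h3).trans (le_of_eq ?_)
    rw [sum_add_distrib, sum_ite_eq, if_pos hs, sum_const, card_range, nsmul_eq_mul]
    field_simp
  refine (sum_le_sum h2).trans ?_
  rw [sum_const, card_range, nsmul_eq_mul]
  nlinarith [mul_nonneg hT'.le (mul_nonneg (sub_nonneg.2 hτ1) h6),
    mul_nonneg hT'.le (mul_nonneg (zero_le_one.trans hτ1) h6),
    mul_nonneg hT'.le (sub_nonneg.2 hτ1)]

theorem JJ_approx {τ : ℝ} {T Q N : ℕ} (hτ : Dv τ (33 ^ 4 * T ^ 4)) (hT : 1 ≤ T) (hQ : T ≤ Q)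
    (hN : 1 ≤ N) : ∑ ν ∈ Ioc 0 N, ‖JJ Q T ν - (T : ℂ) * (HH T ν : ℂ)‖ ^ 2 ≤
      1000 * (2 * N + (Q : ℝ) ^ 2) * τ * T * (1 + Real.log Q) := by
  have hτ1 : 1 ≤ τ := hτ.one_le (Nat.one_le_iff_ne_zero.2 (by positivity))
  set u : ℕ → ℕ → ℂ := fun q a => gg q a * (GT T ((a : ℝ) / q) -
    if q ≤ T then T * (GT q ((a : ℝ) / q) / q) else 0) with hu
  have e : ∀ ν : ℕ, JJ Q T ν - (T : ℂ) * (HH T ν : ℂ) =
      ∑ q ∈ Ioc 0 Q, ∑ a ∈ Red q, u q a * ex ((a : ℝ) * ν / q) := by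
    intro ν
    have e1 : Ioc 0 T = (Ioc 0 Q).filter fun q => q ≤ T := by
      ext q
      simp only [mem_Ioc, mem_filter]
      omega
    unfold JJ HH
    rw [Complex.ofReal_sum, e1, sum_filter, mul_sum, ← sum_sub_distrib]
    refine sum_congr rfl fun q hq => ?_
    by_cases h : q ≤ T
    · simp only [hu, if_pos h]
      rw [hh_eq ν (mem_Ioc.1 hq).1, mul_sum, ← sum_sub_distrib]
      exact sum_congr rfl fun a _ => by ring
    · simp only [hu, if_neg h, mul_zero, sub_zero]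
  simp only [e]
  refine (LS.ls' Q hN u).trans ?_
  have h1 : ∑ q ∈ Ioc 0 T, ∑ a ∈ Red q, ‖u q a‖ ^ 2 ≤ 4 * T * (3 * τ * (1 + Real.log T)) := by
    refine le_trans ?_ (mul_le_mul_of_nonneg_left (col_small hτ hT) (by positivity))
    rw [mul_sum]
    refine sum_le_sum fun q hq => ?_
    rw [mem_Ioc] at hq
    simp only [hu, if_pos hq.2]
    exact LS.small_term hq.1 hq.2
  have h2 : ∑ q ∈ Ioc T Q, ∑ a ∈ Red q, ‖u q a‖ ^ 2 ≤ 2 * τ * T * (1 + Real.log Q) := by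
    refine le_trans (sum_le_sum fun q hq => ?_) (col_big hτ hT (hT.trans hQ))
    rw [mem_Ioc] at hq
    simp only [hu, if_neg (not_le.2 hq.1), sub_zero]
    exact LS.big_term T (by omega)
  have hT' : (0 : ℝ) < T := by exact_mod_cast hT
  have h3 : Real.log T ≤ Real.log Q := Real.log_le_log hT' (by exact_mod_cast hQ)
  have h4 : 0 ≤ Real.log T := Real.log_natCast_nonneg T
  rw [← sum_Ioc_consecutive _ (Nat.zero_le T) hQ]
  have h5 : 0 ≤ τ * T := by positivity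
  have h6 : ∑ q ∈ Ioc 0 T, ∑ a ∈ Red q, ‖u q a‖ ^ 2 + ∑ q ∈ Ioc T Q, ∑ a ∈ Red q, ‖u q a‖ ^ 2 ≤
      14 * (τ * T * (1 + Real.log Q)) := by
    nlinarith [mul_le_mul_of_nonneg_left h3 h5]
  have h7 : 0 ≤ (2 * N + (Q : ℝ) ^ 2) * (τ * T * (1 + Real.log Q)) := by
    have : 0 ≤ 1 + Real.log Q := by linarith
    positivity
  have h8 := mul_le_mul_of_nonneg_left h6 (by positivity : 0 ≤ 24 * (2 * N + (Q : ℝ) ^ 2))
  nlinarith

theorem hh_ls {τ σ R : ℝ} {L N : ℕ} (hτ : Dv τ (33 ^ 4 * L ^ 4)) (hL : 1 ≤ L) (hN : 1 ≤ N)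
    (hR : 0 < R) (c : ℕ → ℝ) (hc : ∀ l ∈ Ioc 0 L, |c l| ≤ σ) (hc0 : ∀ l : ℕ, (l : ℝ) ≤ R → c l = 0) :
    ∑ ν ∈ Ioc 0 N, (∑ l ∈ Ioc 0 L, c l * hh ν l) ^ 2 ≤
      72 * (2 * N + (L : ℝ) ^ 2) * σ ^ 2 * τ * (1 + Real.log L) / R := by
  set u : ℕ → ℕ → ℂ := fun l a => ((c l / l : ℝ) : ℂ) * (gg l a * GT l ((a : ℝ) / l)) with hu
  have e : ∀ ν : ℕ, (∑ l ∈ Ioc 0 L, c l * hh ν l) ^ 2 =
      ‖∑ q ∈ Ioc 0 L, ∑ a ∈ Red q, u q a * ex ((a : ℝ) * ν / q)‖ ^ 2 := by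
    intro ν
    rw [← sq_abs, ← Real.norm_eq_abs, ← Complex.norm_real, Complex.ofReal_sum]
    congr 2
    refine sum_congr rfl fun q hq => ?_
    rw [Complex.ofReal_mul, hh_eq ν (mem_Ioc.1 hq).1, mul_sum]
    refine sum_congr rfl fun a _ => ?_
    simp only [hu]
    push_cast
    ring
  simp only [e]
  refine (LS.ls' L hN u).trans ?_
  have h1 : ∑ q ∈ Ioc 0 L, ∑ a ∈ Red q, ‖u q a‖ ^ 2 ≤ σ ^ 2 / R * (3 * τ * (1 + Real.log L)) := by
    refine le_trans ?_ (mul_le_mul_of_nonneg_left (col_small hτ hL) (by positivity))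
    rw [mul_sum]
    refine sum_le_sum fun q hq => ?_
    have hq0 := (mem_Ioc.1 hq).1
    have hq' : (0 : ℝ) < q := by exact_mod_cast hq0
    simp only [hu, norm_mul (((c q / q : ℝ) : ℂ)), mul_pow, ← mul_sum, Complex.norm_real,
      Real.norm_eq_abs, sq_abs]
    refine (mul_le_mul_of_nonneg_left (LS.big_term q hq0) (by positivity)).trans ?_
    by_cases h : (q : ℝ) ≤ R
    · rw [hc0 q h]
      simp only [zero_div, ne_eq, OfNat.ofNat_ne_zero, not_false_eq_true, zero_pow, zero_mul]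
      positivity
    · have h2 : c q ^ 2 ≤ σ ^ 2 := by
        rw [← sq_abs]
        exact pow_le_pow_left₀ (abs_nonneg _) (hc q hq) 2
      have h3 : c q ^ 2 / q ≤ σ ^ 2 / R :=
        div_le_div₀ (by positivity) h2 hR (not_le.1 h).le
      calc (c q / q) ^ 2 * ((col q q : ℝ) / q) = c q ^ 2 / q * ((col q q : ℝ) / (q : ℝ) ^ 2) := by
            field_simp
        _ ≤ _ := mul_le_mul_of_nonneg_right h3 (by positivity)
  calc _ ≤ 24 * (2 * N + (L : ℝ) ^ 2) * (σ ^ 2 / R * (3 * τ * (1 + Real.log L))) :=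
        mul_le_mul_of_nonneg_left h1 (by positivity)
    _ = _ := by ring

end Pool.Agent.MP_b9bf0c_nt
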