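import Pool.Agent.MP_b9bf0c_nt.Defs

/-!
Odd integers as x^2 + 2 y^2 + 3 z^2 with x + y + z a square: Poisson summation.
-/

set_option autoImplicit false

open Finset Complex
open scoped Real ArithmeticFunction.Moebius

noncomputable section

namespace Pool.Agent.MP_b9bf0c_nt

open Pool.Agent.MP_2a1f0e_nt (ex)
open Pool.Agent.MP_c903c4_nt (Red cc)

namespace Pois

open Pool.Agent.MP_2a1f0e_nt (ex_add ex_int norm_ex)

theorem summable_gauss {a : ℂ} (ha : 0 < a.re) (b : ℂ) :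
    Summable fun n : ℤ => cexp (-π * a * n ^ 2 + 2 * π * b * n) := by
  have h := (summable_jacobiTheta₂_term_iff (-I * b) (I * a)).mpr (by simpa using ha)
  refine h.congr fun n => ?_
  unfold jacobiTheta₂_term
  congr 1
  linear_combination (-2 * π * n * b + π * n ^ 2 * a) * I_mul_I

theorem qf_cast (A B j : ℤ) :
    (qf A B j : ℂ) = ((A : ℂ) * (j : ℂ) ^ 2 + ((A : ℂ) + 2 * B) * j) / 2 := by
  have h : ((2 * qf A B j : ℤ) : ℂ) = ((A * j ^ 2 + (A + 2 * B) * j : ℤ) : ℂ) := by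
    rw [two_qf]
  push_cast at h
  linear_combination h / 2

theorem summable_term {A : ℤ} (hA : 0 < A) (B : ℤ) {z : ℂ} (hz : 0 < z.re) :
    Summable fun j : ℤ => cexp (-(2 * π * z * (qf A B j : ℂ))) := by
  have hA' : (0 : ℝ) < A := by exact_mod_cast hA
  have h1 : 0 < ((A : ℂ) * z).re := by
    simpa using mul_pos hA' hz
  refine (summable_gauss h1 (-(z * ((A : ℂ) + 2 * B)) / 2)).congr fun n => ?_
  rw [qf_cast]
  congr 1
  ring

theorem tsum_split (n : ℕ) (hn : 0 < n) (F : ℤ → ℂ) (hF : Summable F) :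
    ∑' j, F j = ∑ r ∈ range n, ∑' l : ℤ, F (l * n + r) := by
  have : NeZero n := ⟨hn.ne'⟩
  have h1 : Summable fun p : ℤ × Fin n => F ((Int.divModEquiv n).symm p) :=
    (Int.divModEquiv n).symm.summable_iff.mpr hF
  rw [← (Int.divModEquiv n).symm.tsum_eq, h1.tsum_prod]
  simp_rw [tsum_fintype]
  rw [Summable.tsum_finsetSum]
  · rw [← Fin.sum_univ_eq_sum_range (fun r : ℕ => ∑' l : ℤ, F (l * n + r)) n]
    rfl
  · intro r _
    exact h1.comp_injective (i := fun l : ℤ => (l, r)) fun x y h => (Prod.ext_iff.mp h).1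

theorem qf_shift (A B : ℤ) (q : ℕ) (r l : ℤ) :
    qf A B (l * ((2 * q : ℕ) : ℤ) + r) =
      qf A B r + q * (2 * A * q * l ^ 2 + (A + 2 * B) * l + 2 * A * r * l) := by
  have h1 := two_qf A B (l * ((2 * q : ℕ) : ℤ) + r)
  have h2 := two_qf A B r
  apply mul_left_cancel₀ (two_ne_zero (α := ℤ))
  push_cast at h1 ⊢
  linear_combination h1 - h2

theorem term_eq (A B : ℤ) {q : ℕ} (hq : 0 < q) (a : ℤ) (z : ℂ) (r l : ℤ) :
    cexp (-(2 * π * (z + (((a : ℝ) / q : ℝ) : ℂ) * I) *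
        (qf A B (l * ((2 * q : ℕ) : ℤ) + r) : ℂ))) =
      cexp (-(2 * π * (z + (((a : ℝ) / q : ℝ) : ℂ) * I) * (qf A B r : ℂ))) *
        cexp (-π * (4 * (q : ℂ) ^ 2 * A * z) * l ^ 2 +
          2 * π * (-(z * q * (2 * A * r + (A + 2 * B)))) * l) := by
  have hq' : (q : ℂ) ≠ 0 := by exact_mod_cast hq.ne'
  rw [qf_shift, ← Complex.exp_add, Complex.exp_eq_exp_iff_exists_int]
  refine ⟨-(a * (2 * A * q * l ^ 2 + (A + 2 * B) * l + 2 * A * r * l)), ?_⟩
  push_cast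
  field_simp
  ring

theorem dual_eq {A : ℤ} (hA : 0 < A) (B : ℤ) {q : ℕ} (hq : 0 < q) (a : ℤ) {z : ℂ} (hz : z ≠ 0)
    (r : ℕ) (k : ℤ) :
    cexp (-(2 * π * (z + (((a : ℝ) / q : ℝ) : ℂ) * I) * (qf A B r : ℂ))) *
        cexp (-π / (4 * (q : ℂ) ^ 2 * A * z) *
          (k + I * (-(z * q * (2 * A * ((r : ℤ) : ℂ) + (A + 2 * B))))) ^ 2) =
      cexp (π * z * ((A : ℂ) + 2 * B) ^ 2 / (4 * A)) *
        (cexp (-(π * (k : ℂ) ^ 2 / (4 * (q : ℂ) ^ 2 * A * z))) *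
          ex ((k : ℝ) * ((A : ℝ) + 2 * B) / (4 * q * A)) *
            ex (-((a * qf A B r : ℤ) : ℝ) / q + (k : ℝ) * r / (2 * q))) := by
  have hq' : (q : ℂ) ≠ 0 := by exact_mod_cast hq.ne'
  have hA' : (A : ℂ) ≠ 0 := by exact_mod_cast hA.ne'
  unfold ex
  simp only [← Complex.exp_add]
  congr 1
  push_cast
  rw [qf_cast]
  push_cast
  have hI : I ^ 2 = -1 := I_sq
  field_simp
  ring_nf
  simp only [hI]
  ring

end Pois

theorem summable_phi {A : ℤ} (hA : 0 < A) (B : ℤ) {z : ℂ} (hz : 0 < z.re) :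
    Summable fun j : ℤ => ‖cexp (-(2 * π * z * (qf A B j : ℂ)))‖ :=
  (Pois.summable_term hA B hz).norm

theorem phi_eq {A : ℤ} (hA : 0 < A) (B : ℤ) {q : ℕ} (hq : 0 < q) (a : ℤ) {z : ℂ} (hz : 0 < z.re) :
    phi A B (z + (((a : ℝ) / q : ℝ) : ℂ) * I) =
      cexp (π * z * ((A : ℂ) + 2 * B) ^ 2 / (4 * A)) / (4 * (q : ℂ) ^ 2 * A * z) ^ (1 / 2 : ℂ) *
        ∑' k : ℤ, cexp (-(π * (k : ℂ) ^ 2 / (4 * (q : ℂ) ^ 2 * A * z))) *
          ex ((k : ℝ) * ((A : ℝ) + 2 * B) / (4 * q * A)) * SS A B q a k := by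
  have hA' : (0 : ℝ) < A := by exact_mod_cast hA
  have hq' : (0 : ℝ) < q := by exact_mod_cast hq
  have hz0 : z ≠ 0 := by
    rintro rfl
    simp at hz
  have hre : 0 < (z + (((a : ℝ) / q : ℝ) : ℂ) * I).re := by
    rw [add_re, mul_I_re, ofReal_im, neg_zero, add_zero]
    exact hz
  have ha0 : 0 < (4 * (q : ℂ) ^ 2 * A * z).re := by
    have : (4 * (q : ℂ) ^ 2 * A * z) = ((4 * (q : ℝ) ^ 2 * A : ℝ) : ℂ) * z := by
      push_cast
      ring
    rw [this, re_ofReal_mul]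
    positivity
  have hinv : 0 < ((4 * (q : ℂ) ^ 2 * A * z)⁻¹).re := by
    rw [inv_re]
    refine div_pos ha0 (normSq_pos.mpr ?_)
    intro h
    rw [h] at ha0
    simp at ha0
  have hs : Summable fun k : ℤ => cexp (-(π * (k : ℂ) ^ 2 / (4 * (q : ℂ) ^ 2 * A * z))) := by
    refine (Pois.summable_gauss hinv 0).congr fun k => ?_
    congr 1
    ring
  unfold phi
  rw [Pois.tsum_split (2 * q) (by omega) _ (Pois.summable_term hA B hre)]
  simp_rw [Pois.term_eq A B hq a z, tsum_mul_left, Complex.tsum_exp_neg_quadratic ha0]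
  unfold SS
  simp_rw [Finset.mul_sum]
  rw [Summable.tsum_finsetSum, Finset.mul_sum]
  · refine Finset.sum_congr rfl fun r _ => ?_
    rw [mul_left_comm, ← tsum_mul_left]
    simp_rw [Pois.dual_eq hA B hq a hz0 r]
    rw [tsum_mul_left]
    ring
  · intro r _
    refine hs.norm.of_norm_bounded fun k => ?_
    rw [norm_mul, norm_mul, Pool.Agent.MP_2a1f0e_nt.norm_ex, Pool.Agent.MP_2a1f0e_nt.norm_ex,
      mul_one, mul_one]

end Pool.Agent.MP_b9bf0c_nt
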