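import Pool.Agent.MP_b9bf0c_nt.Gauss
import Pool.Agent.MP_b9bf0c_nt.Pois

/-!
Odd integers as x^2 + 2 y^2 + 3 z^2 with x + y + z a square: the theta series near a fraction.
-/

set_option autoImplicit false

open Finset Complex
open scoped Real ArithmeticFunction.Moebius

noncomputable section

namespace Pool.Agent.MP_b9bf0c_nt

open Pool.Agent.MP_2a1f0e_nt (ex)
open Pool.Agent.MP_c903c4_nt (Red cc)

namespace Loc

theorem norm_le_den {z : ℂ} (h0 : 0 < z.re) (h1 : z.re ≤ 1 / 4) (h2 : |z.im| ≤ 1 / 2) :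
    ‖z‖ ≤ ‖1 - cexp (-(2 * π * z))‖ := by
  obtain ⟨r, hr⟩ : ∃ r : ℝ, r = Real.exp (-(2 * π * z.re)) := ⟨_, rfl⟩
  obtain ⟨E, hE⟩ : ∃ E : ℂ, E = ex (-z.im) := ⟨_, rfl⟩
  have hexp : cexp (-(2 * π * z)) = (r : ℂ) * E := by
    rw [hr, hE]
    unfold ex
    rw [Complex.ofReal_exp, ← Complex.exp_add]
    congr 1
    conv_lhs => rw [← Complex.re_add_im z]
    push_cast
    ring
  have hE1 : ‖E‖ = 1 := by rw [hE]; exact Pool.Agent.MP_2a1f0e_nt.norm_ex _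
  have hE2 : 4 * |z.im| ≤ ‖E - 1‖ := by
    have := Pool.Agent.MP_2a1f0e_nt.norm_ex_sub_one (x := -z.im) (by rwa [abs_neg])
    rwa [abs_neg, ← hE] at this
  have hpi := Real.pi_gt_three
  have hpi4 := Real.pi_lt_four
  have hr0 : 0 < r := by rw [hr]; exact Real.exp_pos _
  have hr1 : r * Real.exp (2 * π * z.re) = 1 := by
    rw [hr, ← Real.exp_add]; simp
  have hr2 : r ≤ 1 - z.re := by
    have h3 := Real.add_one_le_exp (2 * π * z.re)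
    have h4 : r * (6 * z.re + 1) ≤ 1 := by
      have : 6 * z.re + 1 ≤ Real.exp (2 * π * z.re) := by nlinarith
      nlinarith
    by_contra h
    push Not at h
    nlinarith [mul_pos h0 h0]
  have hr3 : 1 / 16 ≤ r := by
    have h3 : Real.exp (2 * π * z.re) ≤ Real.exp 2 := Real.exp_le_exp.mpr (by nlinarith)
    have h4 : Real.exp 2 ≤ 16 := by
      have h5 : Real.exp 2 = Real.exp 1 * Real.exp 1 := by rw [← Real.exp_add]; norm_num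
      have h6 := Real.exp_one_lt_d9
      have h7 := Real.exp_pos 1
      nlinarith
    nlinarith
  have hA : E.re ^ 2 + E.im ^ 2 = 1 := by
    have := Complex.sq_norm E
    rw [hE1, Complex.normSq_apply] at this
    nlinarith
  have hB : 16 * z.im ^ 2 ≤ (E.re - 1) ^ 2 + E.im ^ 2 := by
    have h3 : (4 * |z.im|) ^ 2 ≤ ‖E - 1‖ ^ 2 := pow_le_pow_left₀ (by positivity) hE2 2
    rw [Complex.sq_norm, Complex.normSq_apply, mul_pow, sq_abs] at h3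
    simp only [sub_re, one_re, sub_im, one_im, sub_zero] at h3
    nlinarith
  rw [hexp]
  refine le_of_sq_le_sq ?_ (norm_nonneg _)
  rw [Complex.sq_norm, Complex.sq_norm, Complex.normSq_apply, Complex.normSq_apply]
  simp only [sub_re, one_re, sub_im, one_im, mul_re, mul_im, ofReal_re, ofReal_im, zero_mul,
    sub_zero, add_zero, zero_sub]
  have h5 : z.re ^ 2 ≤ (1 - r) ^ 2 := pow_le_pow_left₀ h0.le (by linarith) 2
  have h6 : z.im ^ 2 ≤ r * ((E.re - 1) ^ 2 + E.im ^ 2) := by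
    nlinarith [sq_nonneg z.im, mul_le_mul_of_nonneg_left hB hr0.le]
  have h7 : (1 - r * E.re) * (1 - r * E.re) + -(r * E.im) * -(r * E.im) =
      (1 - r) ^ 2 + r * ((E.re - 1) ^ 2 + E.im ^ 2) := by
    linear_combination (r ^ 2 - r) * hA
  rw [h7]
  nlinarith

/-- The sum of the inverse squares. -/
def SQ : ℝ := ∑' k : ℤ, 1 / (k : ℝ) ^ 2

theorem summable_SQ : Summable fun k : ℤ => 1 / (k : ℝ) ^ 2 :=
  Real.summable_one_div_int_pow.mpr (by norm_num)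

theorem SQ_nonneg : 0 ≤ SQ := tsum_nonneg fun k => by positivity

theorem half_sq (x : ℂ) : (x ^ (1 / 2 : ℂ)) ^ 2 = x := by
  simp [one_div]

theorem split {A : ℤ} (hA : 0 < A) (B : ℤ) : ∃ K : ℝ, 0 < K ∧ ∀ (q : ℕ) (a : ℤ) (z : ℂ) (w ν : ℝ),
    0 < q → IsCoprime a (q : ℤ) → 0 < z.re → z.re ≤ 1 → 0 ≤ w → w ^ 2 * (q * ‖z‖) = 1 →
    ν * z.re = (q : ℝ) ^ 2 * ‖z‖ ^ 2 →
    ∃ e : ℂ, phi A B (z + (((a : ℝ) / q : ℝ) : ℂ) * I) =
      cexp (π * z * ((A : ℂ) + 2 * B) ^ 2 / (4 * A)) / (4 * (q : ℂ) ^ 2 * A * z) ^ (1 / 2 : ℂ) *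
        SS A B q a 0 + e ∧
      ‖cexp (π * z * ((A : ℂ) + 2 * B) ^ 2 / (4 * A)) / (4 * (q : ℂ) ^ 2 * A * z) ^ (1 / 2 : ℂ) *
        SS A B q a 0‖ ≤ K * w ∧ ‖e‖ ≤ K * (w * ν) := by
  have hA' : (0 : ℝ) < A := by exact_mod_cast hA
  obtain ⟨K0, hK0⟩ : ∃ K0 : ℝ, K0 = Real.exp (π * ((A : ℝ) + 2 * B) ^ 2 / (4 * A)) := ⟨_, rfl⟩
  have hK0p : 0 < K0 := by rw [hK0]; exact Real.exp_pos _
  have hS := SQ_nonneg
  refine ⟨K0 * (1 + 4 * A * SQ), by positivity, ?_⟩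
  intro q a z w ν hq ha h0 h1 hw hw2 hν
  have hq' : (0 : ℝ) < q := by exact_mod_cast hq
  have hz : z ≠ 0 := fun h => by simp [h] at h0
  have hN : 0 < ‖z‖ := norm_pos_iff.mpr hz
  have hν0 : 0 < ν := by
    by_contra h
    push Not at h
    have : 0 < (q : ℝ) ^ 2 * ‖z‖ ^ 2 := by positivity
    nlinarith
  obtain ⟨u, hu⟩ : ∃ u : ℂ, u = (4 * (q : ℂ) ^ 2 * A * z) ^ (1 / 2 : ℂ) := ⟨_, rfl⟩
  obtain ⟨X, hX⟩ : ∃ X : ℂ, X = cexp (π * z * ((A : ℂ) + 2 * B) ^ 2 / (4 * A)) := ⟨_, rfl⟩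
  have hu2 : ‖u‖ ^ 2 = 4 * (q : ℝ) ^ 2 * A * ‖z‖ := by
    rw [← norm_pow, hu, half_sq]
    simp only [norm_mul, norm_pow, Complex.norm_natCast, Complex.norm_intCast, Complex.norm_ofNat]
    rw [abs_of_pos hA']
  have hu0 : 0 < ‖u‖ := by
    by_contra h
    have h3 : ‖u‖ = 0 := le_antisymm (not_lt.mp h) (norm_nonneg _)
    rw [h3] at hu2
    have : 0 < 4 * (q : ℝ) ^ 2 * A * ‖z‖ := by positivity
    nlinarith
  have hXn : ‖X‖ ≤ K0 := by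
    rw [hX, Complex.norm_exp, hK0]
    refine Real.exp_le_exp.mpr ?_
    have h3 : (π * z * ((A : ℂ) + 2 * B) ^ 2 / (4 * A)) =
        ((π * ((A : ℝ) + 2 * B) ^ 2 / (4 * A) : ℝ) : ℂ) * z := by
      push_cast
      ring
    rw [h3, Complex.re_ofReal_mul]
    have h4 : 0 ≤ π * ((A : ℝ) + 2 * B) ^ 2 / (4 * A) := by positivity
    nlinarith
  have hSS : ∀ k : ℤ, ‖SS A B q a k‖ ≤ w * ‖u‖ := by
    intro k
    refine le_of_sq_le_sq ?_ (by positivity)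
    refine (norm_SS_sq hA B hq ha k).trans (le_of_eq ?_)
    rw [mul_pow, hu2]
    linear_combination (-4 * (q : ℝ) * A) * hw2
  obtain ⟨f, hf⟩ : ∃ f : ℤ → ℂ, f = fun k : ℤ =>
      cexp (-(π * (k : ℂ) ^ 2 / (4 * (q : ℂ) ^ 2 * A * z))) *
        ex ((k : ℝ) * ((A : ℝ) + 2 * B) / (4 * q * A)) * SS A B q a k := ⟨_, rfl⟩
  have hf0 : f 0 = SS A B q a 0 := by
    rw [hf]
    simp [Pool.Agent.MP_2a1f0e_nt.ex_zero]
  have hfk : ∀ k : ℤ, k ≠ 0 → ‖f k‖ ≤ (4 * A * ν * (w * ‖u‖)) * (1 / (k : ℝ) ^ 2) := by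
    intro k hk
    have hk' : (0 : ℝ) < (k : ℝ) ^ 2 := by positivity
    rw [hf]
    simp only [norm_mul, Pool.Agent.MP_2a1f0e_nt.norm_ex, mul_one, Complex.norm_exp]
    have h3 : (-(π * (k : ℂ) ^ 2 / (4 * (q : ℂ) ^ 2 * A * z))) =
        ((-(π * (k : ℝ) ^ 2 / (4 * (q : ℝ) ^ 2 * A)) : ℝ) : ℂ) * z⁻¹ := by
      push_cast
      field_simp
    have h4 : (-(π * (k : ℂ) ^ 2 / (4 * (q : ℂ) ^ 2 * A * z))).re =
        -(π * (k : ℝ) ^ 2 / (4 * A * ν)) := by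
      rw [h3, Complex.re_ofReal_mul, Complex.inv_re, Complex.normSq_eq_norm_sq]
      have h5 : z.re = (q : ℝ) ^ 2 * ‖z‖ ^ 2 / ν := by
        rw [← hν]
        field_simp
      rw [h5]
      field_simp
    rw [h4]
    obtain ⟨x, hx⟩ : ∃ x : ℝ, x = π * (k : ℝ) ^ 2 / (4 * A * ν) := ⟨_, rfl⟩
    have hx0 : 0 < x := by rw [hx]; positivity
    rw [← hx]
    have h6 : Real.exp (-x) ≤ 4 * A * ν * (1 / (k : ℝ) ^ 2) := by
      have h7 : Real.exp (-x) ≤ 1 / x := by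
        rw [Real.exp_neg, one_div]
        exact inv_anti₀ hx0 (by linarith [Real.add_one_le_exp x])
      refine h7.trans ?_
      rw [hx, one_div_div, mul_one_div]
      refine div_le_div_of_nonneg_left (by positivity) hk' ?_
      nlinarith [Real.pi_gt_three]
    calc Real.exp (-x) * ‖SS A B q a k‖ ≤ (4 * A * ν * (1 / (k : ℝ) ^ 2)) * (w * ‖u‖) :=
          mul_le_mul h6 (hSS k) (norm_nonneg _) (by positivity)
      _ = _ := by ring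
  have hite : ∀ k : ℤ, ‖(if k = 0 then 0 else f k : ℂ)‖ ≤
      (4 * A * ν * (w * ‖u‖)) * (1 / (k : ℝ) ^ 2) := by
    intro k
    split_ifs with hk
    · simp [hk]
    · exact hfk k hk
  have hg := summable_SQ.mul_left (4 * A * ν * (w * ‖u‖))
  have hsum : Summable f := by
    refine Summable.of_norm_bounded_eventually hg ?_
    refine (Set.finite_singleton (0 : ℤ)).subset fun k hk => ?_
    by_contra h
    exact hk (hfk k h)
  have hE : ‖∑' k : ℤ, (if k = 0 then 0 else f k : ℂ)‖ ≤ 4 * A * ν * (w * ‖u‖) * SQ :=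
    tsum_of_norm_bounded (summable_SQ.hasSum.mul_left _) hite
  refine ⟨X / u * ∑' k : ℤ, (if k = 0 then 0 else f k : ℂ), ?_, ?_, ?_⟩
  · rw [phi_eq hA B hq a h0, ← hu, ← hX, ← hf0, ← mul_add, ← hsum.tsum_eq_add_tsum_ite 0, hf]
  · rw [← hu, ← hX, norm_mul, norm_div]
    calc ‖X‖ / ‖u‖ * ‖SS A B q a 0‖ ≤ K0 / ‖u‖ * (w * ‖u‖) := by gcongr; exact hSS 0
      _ = K0 * w := by field_simp
      _ ≤ K0 * (1 + 4 * A * SQ) * w := by
        have : 0 ≤ K0 * (4 * A * SQ) * w := by positivity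
        nlinarith
  · rw [norm_mul, norm_div]
    calc ‖X‖ / ‖u‖ * ‖∑' k : ℤ, (if k = 0 then 0 else f k : ℂ)‖ ≤
          K0 / ‖u‖ * (4 * A * ν * (w * ‖u‖) * SQ) := by gcongr
      _ = K0 * (4 * A * SQ) * (w * ν) := by field_simp
      _ ≤ K0 * (1 + 4 * A * SQ) * (w * ν) := by
        have : 0 ≤ K0 * (w * ν) := by positivity
        nlinarith

theorem half_mul {x : ℂ} (hx : x ≠ 0) :
    (11 * x) ^ (1 / 2 : ℂ) * x ^ (1 / 2 : ℂ) = ((√11 : ℝ) : ℂ) * x := by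
  have h1 : (11 * x) ^ (1 / 2 : ℂ) = ((√11 : ℝ) : ℂ) * x ^ (1 / 2 : ℂ) := by
    have h2 : (11 : ℂ) * x = ((11 : ℝ) : ℂ) * x := by norm_num
    rw [Complex.cpow_def_of_ne_zero (mul_ne_zero (by norm_num) hx), Complex.cpow_def_of_ne_zero hx,
      h2, Complex.log_ofReal_mul (by norm_num) hx, add_mul, Complex.exp_add, Real.sqrt_eq_rpow,
      Real.rpow_def_of_pos (by norm_num), Complex.ofReal_exp]
    push_cast
    rfl
  rw [h1, mul_assoc, ← sq, half_sq]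

theorem main_diff : ∃ K : ℝ, 0 < K ∧ ∀ z : ℂ, 0 < z.re → z.re ≤ 1 / 4 → |z.im| ≤ 1 / 2 →
    ‖z‖ ≤ 1 → ‖cexp (9 * π * z / 11) / z - 2 * π * EE z‖ ≤ K := by
  refine ⟨4 * Real.exp 4 + 64 * Real.exp 8, by positivity, fun z h0 h1 h2 h3 => ?_⟩
  have hz : z ≠ 0 := fun h => by simp [h] at h0
  have hN : 0 < ‖z‖ := norm_pos_iff.mpr hz
  have hD := norm_le_den h0 h1 h2
  have hpi := Real.pi_pos
  have hpi4 := Real.pi_lt_four
  obtain ⟨D, hDe⟩ : ∃ D : ℂ, D = 1 - cexp (-(2 * π * z)) := ⟨_, rfl⟩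
  rw [← hDe] at hD
  have hD0 : D ≠ 0 := norm_pos_iff.mp (hN.trans_le hD)
  have e1 : cexp (9 * π * z / 11) / z - 2 * π * EE z =
      (cexp (9 * π * z / 11) - 1) / z -
        (cexp (-(2 * π * z)) - (1 + -(2 * π * z))) / (z * D) := by
    have : cexp (-(2 * π * z)) = 1 - D := by rw [hDe]; ring
    unfold EE
    rw [← hDe, this]
    field_simp
    ring
  have n1 : ‖(9 * π * z / 11 : ℂ)‖ ≤ 4 * ‖z‖ := by
    simp only [norm_div, norm_mul, Complex.norm_ofNat, Complex.norm_real, Real.norm_eq_abs,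
      abs_of_pos hpi]
    nlinarith
  have n2 : ‖(-(2 * π * z) : ℂ)‖ ≤ 8 * ‖z‖ := by
    simp only [norm_neg, norm_mul, Complex.norm_ofNat, Complex.norm_real, Real.norm_eq_abs,
      abs_of_pos hpi]
    nlinarith
  have b1 : ‖cexp (9 * π * z / 11) - 1‖ ≤ 4 * ‖z‖ * Real.exp 4 := by
    have h := Complex.norm_exp_sub_sum_le_norm_mul_exp (9 * π * z / 11) 1
    simp only [range_one, sum_singleton, pow_zero, Nat.factorial_zero, Nat.cast_one, div_one,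
      pow_one] at h
    refine h.trans (mul_le_mul n1 (Real.exp_le_exp.mpr (by linarith)) (Real.exp_pos _).le
      (by positivity))
  have b2 : ‖cexp (-(2 * π * z)) - (1 + -(2 * π * z))‖ ≤ (8 * ‖z‖) ^ 2 * Real.exp 8 := by
    have h := Complex.norm_exp_sub_sum_le_norm_mul_exp (-(2 * π * z)) 2
    simp only [sum_range_succ, range_zero, sum_empty, pow_zero, Nat.factorial_zero, Nat.cast_one,
      div_one, pow_one, zero_add, Nat.factorial_one] at h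
    refine h.trans (mul_le_mul (pow_le_pow_left₀ (norm_nonneg _) n2 2)
      (Real.exp_le_exp.mpr (by linarith)) (Real.exp_pos _).le (by positivity))
  rw [e1]
  refine (norm_sub_le _ _).trans (add_le_add ?_ ?_)
  · rw [norm_div, div_le_iff₀ hN]
    linarith
  · rw [norm_div, norm_mul, div_le_iff₀ (mul_pos hN (hN.trans_le hD))]
    refine b2.trans ?_
    have h5 : ‖z‖ * ‖z‖ ≤ ‖z‖ * ‖D‖ := mul_le_mul_of_nonneg_left hD hN.le
    have h6 := Real.exp_pos 8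
    nlinarith [mul_le_mul_of_nonneg_left h5 h6.le]

end Loc

theorem norm_EE_le {z : ℂ} (h0 : 0 < z.re) (h1 : z.re ≤ 1 / 4) (h2 : |z.im| ≤ 1 / 2) :
    ‖EE z‖ ≤ 1 / ‖z‖ := by
  have hz : z ≠ 0 := fun h => by simp [h] at h0
  unfold EE
  rw [norm_div, norm_one]
  exact one_div_le_one_div_of_le (norm_pos_iff.mpr hz) (Loc.norm_le_den h0 h1 h2)

theorem theta_loc : ∃ C : ℝ, 0 < C ∧ ∀ (M q : ℕ) (a : ℤ) (β : ℝ), 2 ≤ M → 0 < q → q ≤ M →
    IsCoprime a (q : ℤ) → |β| ≤ 1 / ((q : ℝ) * M) →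
    ‖th (pt M ((a : ℝ) / q + β)) - kap * gg q a * EE (pt M β)‖ ≤ C * M := by
  obtain ⟨K1, hK1, H1⟩ := Loc.split (A := 11) (by norm_num) (-3)
  obtain ⟨K2, hK2, H2⟩ := Loc.split (A := 1) (by norm_num) 0
  obtain ⟨K3, hK3, H3⟩ := Loc.main_diff
  refine ⟨K3 + 8 * (K1 * K2), by positivity, ?_⟩
  intro M q a β hM hq hqM ha hβ
  have hM' : (2 : ℝ) ≤ M := by exact_mod_cast hM
  have hq' : (1 : ℝ) ≤ q := by exact_mod_cast hq
  have hqM' : (q : ℝ) ≤ M := by exact_mod_cast hqM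
  obtain ⟨z, hz⟩ : ∃ z : ℂ, z = pt M β := ⟨_, rfl⟩
  have hre : z.re = 1 / (M : ℝ) ^ 2 := by
    rw [hz, pt, add_re, ofReal_re, re_ofReal_mul, I_re, mul_zero, add_zero]
  have him : z.im = β := by
    rw [hz, pt, add_im, ofReal_im, im_ofReal_mul, I_im, mul_one, zero_add]
  have hpt : pt M ((a : ℝ) / q + β) = z + (((a : ℝ) / q : ℝ) : ℂ) * I := by
    rw [hz, pt, pt]
    push_cast
    ring
  have h0 : 0 < z.re := by rw [hre]; positivity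
  have hy : z.re * (M : ℝ) ^ 2 = 1 := by rw [hre]; field_simp
  have h1 : z.re ≤ 1 / 4 := by
    have : (4 : ℝ) ≤ (M : ℝ) ^ 2 := by nlinarith
    nlinarith
  have hβ1 : |β| * (q * M) ≤ 1 := by rwa [le_div_iff₀ (by positivity)] at hβ
  have h2 : |z.im| ≤ 1 / 2 := by
    rw [him]
    have : (2 : ℝ) ≤ q * M := by nlinarith
    nlinarith [abs_nonneg β]
  have hz0 : z ≠ 0 := fun h => by simp [h] at h0
  have hN : 0 < ‖z‖ := norm_pos_iff.mpr hz0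
  have hN2 : ‖z‖ ^ 2 = z.re ^ 2 + |β| ^ 2 := by
    rw [Complex.sq_norm, Complex.normSq_apply, him, sq_abs]
    ring
  have h3 : ‖z‖ ≤ 1 := by
    refine le_of_sq_le_sq ?_ zero_le_one
    rw [him] at h2
    nlinarith [abs_nonneg β]
  have h4 : ((q : ℝ) * ‖z‖ * M) ^ 2 ≤ 2 := by
    have e1 : ((q : ℝ) * ‖z‖ * M) ^ 2 = (q : ℝ) ^ 2 * z.re + (|β| * (q * M)) ^ 2 := by
      rw [mul_pow, mul_pow, hN2]
      linear_combination ((q : ℝ) ^ 2 * z.re) * hy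
    have e2 : (q : ℝ) ^ 2 * z.re ≤ 1 := by
      have : (q : ℝ) ^ 2 ≤ (M : ℝ) ^ 2 := pow_le_pow_left₀ (by positivity) hqM' 2
      nlinarith
    have e3 : (|β| * (q * M)) ^ 2 ≤ 1 := pow_le_one₀ (by positivity) hβ1
    linarith
  have h5 : (q : ℝ) * ‖z‖ * M ≤ 2 := le_of_sq_le_sq (by linarith) (by norm_num)
  obtain ⟨w, hw⟩ : ∃ w : ℝ, w = √(1 / (q * ‖z‖)) := ⟨_, rfl⟩
  have hw0 : 0 ≤ w := by rw [hw]; positivity
  have hw2 : w ^ 2 * (q * ‖z‖) = 1 := by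
    rw [hw, Real.sq_sqrt (by positivity)]
    field_simp
  obtain ⟨ν, hν⟩ : ∃ ν : ℝ, ν = ((q : ℝ) * ‖z‖ * M) ^ 2 := ⟨_, rfl⟩
  have hν0 : 0 ≤ ν := by rw [hν]; positivity
  have hν1 : ν * z.re = (q : ℝ) ^ 2 * ‖z‖ ^ 2 := by
    rw [hν]
    linear_combination ((q : ℝ) ^ 2 * ‖z‖ ^ 2) * hy
  have hν2 : ν ≤ 2 := by rwa [hν]
  have hwν : w ^ 2 * ν ≤ 2 * M := by
    have e1 : w ^ 2 * ν = (q * ‖z‖ * M) * M := by
      rw [hν]
      linear_combination ((q : ℝ) * ‖z‖ * M ^ 2) * hw2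
    rw [e1]
    exact mul_le_mul_of_nonneg_right h5 (by positivity)
  obtain ⟨e1, p1, m1, b1⟩ := H1 q a z w ν hq ha h0 (by linarith) hw0 hw2 hν1
  obtain ⟨e2, p2, m2, b2⟩ := H2 q a z w ν hq ha h0 (by linarith) hw0 hw2 hν1
  have hq0 : (q : ℂ) ≠ 0 := by exact_mod_cast hq.ne'
  have h11 : ((√11 : ℝ) : ℂ) ≠ 0 := by
    have : (0 : ℝ) < √11 := by positivity
    exact_mod_cast this.ne'
  have hx : (4 * (q : ℂ) ^ 2 * z) ≠ 0 := by simp [hq0, hz0]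
  have hmm : cexp (π * z * (((11 : ℤ) : ℂ) + 2 * ((-3 : ℤ) : ℂ)) ^ 2 / (4 * ((11 : ℤ) : ℂ))) /
        (4 * (q : ℂ) ^ 2 * ((11 : ℤ) : ℂ) * z) ^ (1 / 2 : ℂ) * SS 11 (-3) q a 0 *
      (cexp (π * z * (((1 : ℤ) : ℂ) + 2 * ((0 : ℤ) : ℂ)) ^ 2 / (4 * ((1 : ℤ) : ℂ))) /
        (4 * (q : ℂ) ^ 2 * ((1 : ℤ) : ℂ) * z) ^ (1 / 2 : ℂ) * SS 1 0 q a 0) - kap * gg q a * EE z =
      gg q a / ((√11 : ℝ) : ℂ) * (cexp (9 * π * z / 11) / z - 2 * π * EE z) := by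
    have a1 : 4 * (q : ℂ) ^ 2 * ((11 : ℤ) : ℂ) * z = 11 * (4 * (q : ℂ) ^ 2 * z) := by
      push_cast
      ring
    have a2 : 4 * (q : ℂ) ^ 2 * ((1 : ℤ) : ℂ) * z = 4 * (q : ℂ) ^ 2 * z := by
      push_cast
      ring
    have a3 : cexp (9 * π * z / 11) =
        cexp (π * z * (((11 : ℤ) : ℂ) + 2 * ((-3 : ℤ) : ℂ)) ^ 2 / (4 * ((11 : ℤ) : ℂ))) *
          cexp (π * z * (((1 : ℤ) : ℂ) + 2 * ((0 : ℤ) : ℂ)) ^ 2 / (4 * ((1 : ℤ) : ℂ))) := by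
      rw [← Complex.exp_add]
      congr 1
      push_cast
      ring
    have a4 := Loc.half_mul hx
    rw [a1, a2, a3]
    generalize cexp (π * z * (((11 : ℤ) : ℂ) + 2 * ((-3 : ℤ) : ℂ)) ^ 2 /
      (4 * ((11 : ℤ) : ℂ))) = X1
    generalize cexp (π * z * (((1 : ℤ) : ℂ) + 2 * ((0 : ℤ) : ℂ)) ^ 2 / (4 * ((1 : ℤ) : ℂ))) = X2
    generalize (11 * (4 * (q : ℂ) ^ 2 * z)) ^ (1 / 2 : ℂ) = u1 at a4 ⊢
    generalize (4 * (q : ℂ) ^ 2 * z) ^ (1 / 2 : ℂ) = u2 at a4 ⊢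
    have a5 : X1 / u1 * SS 11 (-3) q a 0 * (X2 / u2 * SS 1 0 q a 0) =
        X1 * X2 * (SS 11 (-3) q a 0 * SS 1 0 q a 0) / (u1 * u2) := by ring
    rw [a5, a4]
    unfold kap gg
    push_cast
    field_simp
  have hmain : ‖gg q a / ((√11 : ℝ) : ℂ) * (cexp (9 * π * z / 11) / z - 2 * π * EE z)‖ ≤ K3 := by
    rw [norm_mul, norm_div, Complex.norm_real, Real.norm_eq_abs, abs_of_nonneg (by positivity)]
    have g1 : ‖gg q a‖ ≤ 1 := (norm_gg_le hq ha).trans (by rw [div_le_one (by positivity)]; exact hq')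
    have g2 : (1 : ℝ) ≤ √11 := Real.one_le_sqrt.mpr (by norm_num)
    have g3 : ‖gg q a‖ / √11 ≤ 1 := by rw [div_le_one (by positivity)]; linarith
    calc _ ≤ 1 * K3 := mul_le_mul g3 (H3 z h0 h1 h2 h3) (norm_nonneg _) zero_le_one
      _ = K3 := one_mul _
  rw [hpt, ← hz, th, p1, p2]
  rw [← hmm] at hmain
  generalize cexp (π * z * (((11 : ℤ) : ℂ) + 2 * ((-3 : ℤ) : ℂ)) ^ 2 / (4 * ((11 : ℤ) : ℂ))) /
    (4 * (q : ℂ) ^ 2 * ((11 : ℤ) : ℂ) * z) ^ (1 / 2 : ℂ) * SS 11 (-3) q a 0 = x1 at m1 hmain ⊢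
  generalize cexp (π * z * (((1 : ℤ) : ℂ) + 2 * ((0 : ℤ) : ℂ)) ^ 2 / (4 * ((1 : ℤ) : ℂ))) /
    (4 * (q : ℂ) ^ 2 * ((1 : ℤ) : ℂ) * z) ^ (1 / 2 : ℂ) * SS 1 0 q a 0 = x2 at m2 hmain ⊢
  have e0 : (x1 + e1) * (x2 + e2) - kap * gg q a * EE z =
      (x1 * x2 - kap * gg q a * EE z) + (x1 * e2 + e1 * x2 + e1 * e2) := by ring
  have hK : 0 < K1 * K2 := by positivity
  have t1 : ‖x1 * e2‖ ≤ K1 * K2 * (2 * M) := by
    rw [norm_mul]
    calc _ ≤ K1 * w * (K2 * (w * ν)) := mul_le_mul m1 b2 (norm_nonneg _) (by positivity)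
      _ = K1 * K2 * (w ^ 2 * ν) := by ring
      _ ≤ _ := by gcongr
  have t2 : ‖e1 * x2‖ ≤ K1 * K2 * (2 * M) := by
    rw [norm_mul]
    calc _ ≤ K1 * (w * ν) * (K2 * w) := mul_le_mul b1 m2 (norm_nonneg _) (by positivity)
      _ = K1 * K2 * (w ^ 2 * ν) := by ring
      _ ≤ _ := by gcongr
  have t3 : ‖e1 * e2‖ ≤ K1 * K2 * (2 * M * 2) := by
    rw [norm_mul]
    calc _ ≤ K1 * (w * ν) * (K2 * (w * ν)) := mul_le_mul b1 b2 (norm_nonneg _) (by positivity)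
      _ = K1 * K2 * (w ^ 2 * ν * ν) := by ring
      _ ≤ _ := by gcongr
  rw [e0]
  have t4 := norm_add_le (x1 * x2 - kap * gg q a * EE z) (x1 * e2 + e1 * x2 + e1 * e2)
  have t5 := norm_add₃_le (a := x1 * e2) (b := e1 * x2) (c := e1 * e2)
  have t6 : K3 ≤ K3 * M := by nlinarith
  nlinarith

end Pool.Agent.MP_b9bf0c_nt
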